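import Mathlib
import Pool.Agent.W705.BorrGroup

set_option autoImplicit false

/-!
# Order automorphisms with the pointwise order, and reduction of actions to one without fixed points
-/

namespace Pool.Agent.Y479.LS

open Pool.Agent.W705.Borr

/-- Order automorphisms of a linear order. -/
def Aut (X : Type*) [LinearOrder X] : Type _ := X ≃o X

namespace Aut

variable {X : Type*} [LinearOrder X]

instance : Group (Aut X) := inferInstanceAs (Group (X ≃o X))

instance : FunLike (Aut X) X X := inferInstanceAs (FunLike (X ≃o X) X X)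

theorem mul_apply (f g : Aut X) (x : X) : (f * g) x = f (g x) := rfl
theorem one_apply (x : X) : (1 : Aut X) x = x := rfl
theorem inv_self (f : Aut X) (x : X) : f⁻¹ (f x) = x := by
  rw [← mul_apply, inv_mul_cancel, one_apply]
theorem self_inv (f : Aut X) (x : X) : f (f⁻¹ x) = x := by
  rw [← mul_apply, mul_inv_cancel, one_apply]

theorem le_iff (f : Aut X) {x y : X} : f x ≤ f y ↔ x ≤ y := OrderIso.le_iff_le (f : X ≃o X)
theorem lt_iff (f : Aut X) {x y : X} : f x < f y ↔ x < y := OrderIso.lt_iff_lt (f : X ≃o X)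
theorem inj (f : Aut X) {x y : X} : f x = f y ↔ x = y :=
  (OrderIso.injective (f : X ≃o X)).eq_iff

theorem ext' {f g : Aut X} (h : ∀ x, f x = g x) : f = g := DFunLike.ext (F := X ≃o X) f g h

instance : PartialOrder (Aut X) where
  le f g := ∀ x, f x ≤ g x
  le_refl f x := le_rfl
  le_trans f g h h1 h2 x := (h1 x).trans (h2 x)
  le_antisymm f g h1 h2 := ext' fun x => le_antisymm (h1 x) (h2 x)

theorem le_def {f g : Aut X} : f ≤ g ↔ ∀ x, f x ≤ g x := Iff.rfl

instance : MulLeftMono (Aut X) := ⟨fun f _ _ h x => (le_iff f).mpr (h x)⟩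
instance : MulRightMono (Aut X) := ⟨fun f _ _ h x => h (f x)⟩

/-- The same automorphism on the reversed order. -/
def dual : Aut X →* Aut Xᵒᵈ where
  toFun f := OrderIso.dual (f : X ≃o X)
  map_one' := rfl
  map_mul' _ _ := rfl

theorem dual_apply (f : Aut X) (x : X) : dual f (OrderDual.toDual x) = OrderDual.toDual (f x) := rfl

theorem le_inv_mul (g h : Aut X) (x : X) : x ≤ (g⁻¹ * h) x ↔ g x ≤ h x := by
  rw [mul_apply, ← le_iff g, self_inv]

theorem inv_mul_le (g h : Aut X) (x : X) : (g⁻¹ * h) x ≤ x ↔ h x ≤ g x := by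
  rw [mul_apply, ← le_iff g, self_inv]

theorem inv_mul_eq (g h : Aut X) (x : X) : (g⁻¹ * h) x = x ↔ h x = g x := by
  rw [mul_apply, ← inj g, self_inv]

theorem list_le (l : List (Aut X)) {x : X} (hl : ∀ g ∈ l, g x ≤ x) : l.prod x ≤ x := by
  induction l with
  | nil => rw [List.prod_nil, one_apply]
  | cons g l ih =>
    rw [List.prod_cons, mul_apply]
    exact ((le_iff g).mpr (ih fun g' hg' => hl g' (List.mem_cons_of_mem _ hg'))).trans
      (hl g List.mem_cons_self)

theorem list_eq (l : List (Aut X)) {x : X} (hl : ∀ g ∈ l, g x ≤ x) (hx : x ≤ l.prod x) :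
    ∀ g ∈ l, g x = x := by
  induction l with
  | nil => simp
  | cons g l ih =>
    rw [List.prod_cons, mul_apply] at hx
    have h1 := hl g List.mem_cons_self
    have h2 := list_le l fun g' hg' => hl g' (List.mem_cons_of_mem _ hg')
    have h3 : g x = x := le_antisymm h1 (hx.trans ((le_iff g).mpr h2))
    have h4 : x ≤ l.prod x := by
      rw [← le_iff g, h3]; exact hx
    intro g' hg'
    rcases List.mem_cons.mp hg' with rfl | h5
    · exact h3
    · exact ih (fun g'' h => hl g'' (List.mem_cons_of_mem _ h)) h4 g' h5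

/-- Restriction to an interval with fixed end points. -/
def stab (a b : X) : Subgroup (Aut X) where
  carrier := {f | f a = a ∧ f b = b}
  one_mem' := ⟨rfl, rfl⟩
  mul_mem' := by
    rintro f g ⟨h1, h2⟩ ⟨h3, h4⟩
    exact ⟨by rw [mul_apply, h3, h1], by rw [mul_apply, h4, h2]⟩
  inv_mem' := by
    rintro f ⟨h1, h2⟩
    exact ⟨by rw [← inj f, self_inv, h1], by rw [← inj f, self_inv, h2]⟩

theorem mem_stab {a b : X} {f : Aut X} : f ∈ stab a b ↔ f a = a ∧ f b = b := Iff.rfl

def res (a b : X) : stab a b →* Aut (Set.Ioo a b) where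
  toFun f :=
    { toFun := fun x => ⟨f.1 x.1, by
        obtain ⟨h1, h2⟩ := f.2
        refine ⟨?_, ?_⟩
        · have := (lt_iff f.1).mpr x.2.1
          rwa [h1] at this
        · have := (lt_iff f.1).mpr x.2.2
          rwa [h2] at this⟩
      invFun := fun x => ⟨f.1⁻¹ x.1, by
        obtain ⟨h1, h2⟩ := (stab a b).inv_mem f.2
        refine ⟨?_, ?_⟩
        · have := (lt_iff f.1⁻¹).mpr x.2.1
          rwa [h1] at this
        · have := (lt_iff f.1⁻¹).mpr x.2.2
          rwa [h2] at this⟩
      left_inv := fun x => Subtype.ext (inv_self _ _)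
      right_inv := fun x => Subtype.ext (self_inv _ _)
      map_rel_iff' := by
        intro x y
        exact le_iff f.1 }
  map_one' := rfl
  map_mul' _ _ := rfl

theorem res_apply (a b : X) (f : stab a b) (x : Set.Ioo a b) : (res a b f x).1 = f.1 x.1 := rfl

end Aut

open Aut

/-- If fixed points of `g` are fixed by everything, and `g` never moves all points up, then all
actions are trivial. -/
theorem act_trivial.{u} {Γ : Type*} [Group Γ] (g : Γ)
    (hfix : ∀ (X : Type u) [LinearOrder X] (φ : Γ →* Aut X) (x : X), φ g x = x → ∀ γ, φ γ x = x)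
    (hpos : ∀ (X : Type u) [LinearOrder X] [Nonempty X] (φ : Γ →* Aut X), ¬ ∀ x, x < φ g x)
    (X : Type u) [CompleteLinearOrder X] (φ : Γ →* Aut X) : ∀ γ x, φ γ x = x := by
  have key : ∀ (X : Type u) [CompleteLinearOrder X] (φ : Γ →* Aut X) (x : X), ¬ x < φ g x := by
    intro X _ φ s hs
    set G : X ≃o X := φ g with hG
    have hs' : s < G s := hs
    set A : Set X := {f | f ≤ s ∧ G f = f} with hA
    set B : Set X := {f | s ≤ f ∧ G f = f} with hB
    set α := sSup A with hα
    set β := sInf B with hβ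
    have xα : G α = α := by
      apply le_antisymm
      · rw [hα, G.map_sSup]
        refine iSup₂_le fun v hv => ?_
        rw [hv.2]; exact le_sSup hv
      · refine sSup_le fun v hv => ?_
        rw [← hv.2]; exact (G.le_iff_le).mpr (le_sSup hv)
    have xβ : G β = β := by
      apply le_antisymm
      · refine le_sInf fun v hv => ?_
        rw [← hv.2]; exact (G.le_iff_le).mpr (sInf_le hv)
      · rw [hβ, G.map_sInf]
        refine le_iInf₂ fun v hv => ?_
        rw [hv.2]; exact sInf_le hv
    have hsx : G s ≠ s := ne_of_gt hs'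
    have hαs : α < s := by
      refine lt_of_le_of_ne (sSup_le fun v hv => hv.1) ?_
      intro e; rw [e] at xα; exact hsx xα
    have hsβ : s < β := by
      refine lt_of_le_of_ne (le_sInf fun v hv => hv.1) ?_
      intro e; rw [← e] at xβ; exact hsx xβ
    have fα := hfix X φ α xα
    have fβ := hfix X φ β xβ
    set ψ : Γ →* Aut (Set.Ioo α β) :=
      (res α β).comp (φ.codRestrict (stab α β) fun γ => ⟨fα γ, fβ γ⟩) with hψ
    have : Nonempty (Set.Ioo α β) := ⟨⟨s, hαs, hsβ⟩⟩
    refine hpos (Set.Ioo α β) ψ fun x => ?_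
    change x.1 < G x.1
    by_contra hcon
    rw [not_lt] at hcon
    rcases le_total x.1 s with h1 | h1
    · obtain ⟨f, f1, f2, f3⟩ := ivt G h1 hcon hs'
      exact absurd (le_sSup (show f ∈ A from ⟨f2.le, f3⟩)) (not_le.mpr (lt_of_lt_of_le x.2.1 f1))
    · obtain ⟨f, f1, f2, f3⟩ := ivt' G h1 hcon hs'
      exact absurd (sInf_le (show f ∈ B from ⟨f1.le, f3⟩)) (not_le.mpr (lt_of_le_of_lt f2 x.2.2))
  intro γ x
  refine hfix X φ x ?_ γ
  rcases lt_trichotomy (φ g x) x with h | h | h
  · exact absurd h (key Xᵒᵈ (dual.comp φ) (OrderDual.toDual x))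
  · exact h
  · exact absurd h (key X φ x)

/-- A nontrivial group is left-orderable if it carries a strict total order that is invariant
under left multiplication. -/
def LeftOrderable (G : Type*) [Group G] : Prop :=
  Nontrivial G ∧ ∃ lt : G → G → Prop, IsStrictTotalOrder G lt ∧
    ∀ a b c : G, lt a b ↔ lt (c * a) (c * b)

/-- Homomorphisms to left-orderable groups are trivial. -/
theorem hom_trivial.{u} {Γ : Type*} [Group Γ] (g : Γ)
    (hfix : ∀ (X : Type u) [LinearOrder X] (φ : Γ →* Aut X) (x : X), φ g x = x → ∀ γ, φ γ x = x)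
    (hpos : ∀ (X : Type u) [LinearOrder X] [Nonempty X] (φ : Γ →* Aut X), ¬ ∀ x, x < φ g x)
    (H : Type u) [Group H] (hH : LeftOrderable H) (f : Γ →* H) (γ : Γ) : f γ = 1 := by
  classical
  obtain ⟨_, lt, hlt, hinv⟩ := hH
  let _ : LinearOrder H := linearOrderOfSTO lt
  have hinv' : ∀ a b c : H, a ≤ b ↔ c * a ≤ c * b := by
    intro a b c
    show (a = b ∨ lt a b) ↔ (c * a = c * b ∨ lt (c * a) (c * b))
    rw [mul_right_inj, ← hinv]
  let ρ : H →* Aut (LowerSet H) :=
    { toFun := act hinv'
      map_one' := ext' (act_one hinv')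
      map_mul' := fun a b => ext' (act_mul hinv' a b) }
  refine eq_one_of_act hinv' _ fun r => ?_
  exact act_trivial g hfix hpos (LowerSet H) (ρ.comp f) γ r

end Pool.Agent.Y479.LS
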