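import Pool.Agent.Y479.LS.Pos

set_option autoImplicit false
set_option linter.unusedSectionVars false

/-!
# Two disjoint paths of length two
-/

namespace Pool.Agent.Y479.LS

section algebra
variable {P : Type*} [Group P] [PartialOrder P] [MulLeftMono P] [MulRightMono P]

/-- The cyclic chain of inequalities: all of them are equalities. -/
theorem chain {g A X X' U Y Y' Z H0 H3 f1 f2 : P} {n n1 n2 n3 m1 m3 : ℕ}
    (hn : n = n1 + n2 + n3) (hm : n = m1 + n2 + m3)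
    (e1 : H0 * f1 = X) (e2 : X' * f2 = U) (e3 : H3 * (g⁻¹ * f2) = Y') (e4 : Y * (g⁻¹ * f1) = Z)
    (i1 : g ^ n1 ≤ H0) (i2 : X * g ^ n2 ≤ X') (i3 : U * g ^ n3 ≤ A) (i4 : H3 * g ^ m3 ≤ A)
    (i5 : Y * g ^ n2 ≤ Y') (i6 : g ^ m1 ≤ Z) (i7 : A ≤ g ^ (n + 1)) :
    g ^ n1 = H0 ∧ X * g ^ n2 = X' ∧ U * g ^ n3 = A ∧ H3 * g ^ m3 = A ∧ Y * g ^ n2 = Y' ∧
      g ^ m1 = Z ∧ A = g ^ (n + 1) := by
  -- the terms of the chain
  have t1 : X' = U * Y'⁻¹ * H3 * g⁻¹ := by
    rw [← e2, ← e3]; group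
  have t3 : (Y * g ^ n2)⁻¹ = (g ^ n2)⁻¹ * g⁻¹ * H0⁻¹ * X * Z⁻¹ := by
    rw [← e1, ← e4]; group
  have j1 : H0⁻¹ ≤ (g ^ n1)⁻¹ := inv_le_inv_iff.mpr i1
  have j3 : U ≤ A * (g ^ n3)⁻¹ := le_mul_inv_iff_mul_le.mpr i3
  have j4 : H3 ≤ A * (g ^ m3)⁻¹ := le_mul_inv_iff_mul_le.mpr i4
  have j5 : Y'⁻¹ ≤ (Y * g ^ n2)⁻¹ := inv_le_inv_iff.mpr i5
  have j6 : Z⁻¹ ≤ (g ^ m1)⁻¹ := inv_le_inv_iff.mpr i6
  have s0 : X' ≤ U * (Y * g ^ n2)⁻¹ * H3 * g⁻¹ := by
    rw [t1]
    exact mul_le_mul_left (mul_le_mul_left (mul_le_mul_right j5 _) _) _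
  have s1 : U * (Y * g ^ n2)⁻¹ * H3 * g⁻¹ ≤ (A * (g ^ n3)⁻¹) * (Y * g ^ n2)⁻¹ * H3 * g⁻¹ :=
    mul_le_mul_left (mul_le_mul_left (mul_le_mul_left j3 _) _) _
  have s2 : (A * (g ^ n3)⁻¹) * (Y * g ^ n2)⁻¹ * H3 * g⁻¹ ≤
      (A * (g ^ n3)⁻¹) * (Y * g ^ n2)⁻¹ * (A * (g ^ m3)⁻¹) * g⁻¹ :=
    mul_le_mul_left (mul_le_mul_right j4 _) _
  have s3 : (A * (g ^ n3)⁻¹) * (Y * g ^ n2)⁻¹ * (A * (g ^ m3)⁻¹) * g⁻¹ ≤
      (g ^ (n + 1) * (g ^ n3)⁻¹) * (Y * g ^ n2)⁻¹ * (A * (g ^ m3)⁻¹) * g⁻¹ :=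
    mul_le_mul_left (mul_le_mul_left (mul_le_mul_left (mul_le_mul_left i7 _) _) _) _
  have s4 : (g ^ (n + 1) * (g ^ n3)⁻¹) * (Y * g ^ n2)⁻¹ * (A * (g ^ m3)⁻¹) * g⁻¹ ≤
      (g ^ (n + 1) * (g ^ n3)⁻¹) * (Y * g ^ n2)⁻¹ * (g ^ (n + 1) * (g ^ m3)⁻¹) * g⁻¹ :=
    mul_le_mul_left (mul_le_mul_right (mul_le_mul_left i7 _) _) _
  have s5 : (g ^ (n + 1) * (g ^ n3)⁻¹) * (Y * g ^ n2)⁻¹ * (g ^ (n + 1) * (g ^ m3)⁻¹) * g⁻¹ =
      g ^ n1 * H0⁻¹ * X * Z⁻¹ * (g ^ m1 * g ^ n2) := by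
    rw [t3, show n + 1 = (n1 + 1 + n2) + n3 by omega, pow_add g (n1 + 1 + n2) n3,
      mul_inv_cancel_right]
    have : g ^ (n1 + 1 + n2 + n3) = g ^ (m1 + n2) * g * g ^ m3 := by
      rw [← pow_succ, ← pow_add]; congr 1; omega
    rw [← pow_add g (n1 + 1 + n2) n3, this, pow_add, pow_succ, pow_add]
    group
  have s6 : g ^ n1 * H0⁻¹ * X * Z⁻¹ * (g ^ m1 * g ^ n2) ≤
      g ^ n1 * (g ^ n1)⁻¹ * X * Z⁻¹ * (g ^ m1 * g ^ n2) :=
    mul_le_mul_left (mul_le_mul_left (mul_le_mul_left (mul_le_mul_right j1 _) _) _) _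
  have s7 : g ^ n1 * (g ^ n1)⁻¹ * X * Z⁻¹ * (g ^ m1 * g ^ n2) ≤
      g ^ n1 * (g ^ n1)⁻¹ * X * (g ^ m1)⁻¹ * (g ^ m1 * g ^ n2) :=
    mul_le_mul_left (mul_le_mul_right j6 _) _
  have s8 : g ^ n1 * (g ^ n1)⁻¹ * X * (g ^ m1)⁻¹ * (g ^ m1 * g ^ n2) = X * g ^ n2 := by group
  rw [s8] at s7
  rw [s5] at s4
  -- closing the chain
  have c7 := i2.trans (s0.trans (s1.trans (s2.trans (s3.trans (s4.trans s6)))))
  have c6 := i2.trans (s0.trans (s1.trans (s2.trans (s3.trans s4))))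
  have c4 := i2.trans (s0.trans (s1.trans (s2.trans s3)))
  have c3 := i2.trans (s0.trans (s1.trans s2))
  have c2 := i2.trans (s0.trans s1)
  have c1 := i2.trans s0
  have q7 := le_antisymm s7 c7
  have q6 := le_antisymm s6 (s7.trans c6)
  have q4 := le_antisymm s4 (s6.trans (s7.trans c4))
  have q3 := le_antisymm s3 (s4.trans (s6.trans (s7.trans c3)))
  have q2 := le_antisymm s2 (s3.trans (s4.trans (s6.trans (s7.trans c2))))
  have q1 := le_antisymm s1 (s2.trans (s3.trans (s4.trans (s6.trans (s7.trans c1)))))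
  have q0 := le_antisymm s0 (s1.trans (s2.trans (s3.trans (s4.trans (s6.trans (s7.trans i2))))))
  have qi := le_antisymm i2 (s0.trans (s1.trans (s2.trans (s3.trans (s4.trans (s6.trans s7))))))
  have r1 : g ^ n1 = H0 := by
    have := mul_right_cancel (mul_right_cancel (mul_right_cancel q6))
    exact (inv_injective (mul_left_cancel this)).symm
  have r3 : U * g ^ n3 = A := by
    have := mul_right_cancel (mul_right_cancel (mul_right_cancel q1))
    rw [this, inv_mul_cancel_right]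
  have r4 : H3 * g ^ m3 = A := by
    have := mul_left_cancel (mul_right_cancel q2)
    rw [this, inv_mul_cancel_right]
  have r5 : Y * g ^ n2 = Y' := by
    rw [t1] at q0
    have := mul_left_cancel (mul_right_cancel (mul_right_cancel q0))
    exact (inv_injective this).symm
  have r6 : g ^ m1 = Z := by
    rw [← s8] at q7
    have := mul_left_cancel (mul_right_cancel q7)
    exact (inv_injective this).symm
  have r7 : A = g ^ (n + 1) :=
    mul_right_cancel (mul_right_cancel (mul_right_cancel (mul_right_cancel q3)))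
  exact ⟨r1, qi, r3, r4, r5, r6, r7⟩

end algebra

/-- Two internally disjoint paths of length two from `p` to `q`, the first one passing to the side of
`a` and the second one to the side of `b`, and `n` crossings that are adjacent to both `p` and `q`,
equally many of which are met between the two paths at both ends. -/
structure TwoPaths {V C : Type} (v₁ v₂ : C → V) (p q : V) (star : V → List (C × Bool)) (n : ℕ) where
  A : List (C × Bool)
  B : List (C × Bool)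
  D : List (C × Bool)
  A' : List (C × Bool)
  B' : List (C × Bool)
  D' : List (C × Bool)
  k₁ : C × Bool
  k₂ : C × Bool
  l₁ : C × Bool
  l₂ : C × Bool
  /-- the corners of `p` -/
  atFirst : star p = A ++ k₁ :: (B ++ k₂ :: D)
  /-- the corners of `q` -/
  atSecond : star q = D' ++ l₂ :: (B' ++ l₁ :: A')
  path₁ : cOpp v₁ v₂ k₁ = cOpp v₁ v₂ l₁
  path₂ : cOpp v₁ v₂ k₂ = cOpp v₁ v₂ l₂
  between : facing v₁ v₂ B q = facing v₁ v₂ B' p
  count : facing v₁ v₂ (star p) q = n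
  count' : facing v₁ v₂ (star q) p = n

theorem facing_append {V C : Type} {v₁ v₂ : C → V} (l m : List (C × Bool)) (v : V) :
    facing v₁ v₂ (l ++ m) v = facing v₁ v₂ l v + facing v₁ v₂ m v := by
  classical
  unfold facing
  exact List.countP_append

theorem facing_cons {V C : Type} {v₁ v₂ : C → V} {k : C × Bool} (l : List (C × Bool)) {v : V}
    (hk : cOpp v₁ v₂ k ≠ v) : facing v₁ v₂ (k :: l) v = facing v₁ v₂ l v := by
  classical
  unfold facing
  exact List.countP_cons_of_neg (by simpa using hk)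

theorem facing_le {V C : Type} {v₁ v₂ : C → V} (l : List (C × Bool)) (v : V) :
    facing v₁ v₂ l v ≤ l.length := by
  classical
  exact List.countP_le_length

namespace Side

variable {V E C : Type} {v₁ v₂ : C → V} {e₁ e₂ : C → E} {p q : V} {a b : E}
  {star : V → List (C × Bool)}
variable (S : Side v₁ v₂ e₁ e₂ p q a b star)
variable {P : Type*} [Group P] [PartialOrder P] [MulLeftMono P] [MulRightMono P]
  {f : V → P} {h : E → P} (hr : Rel v₁ v₂ e₁ e₂ f h) (hf : Bounds f p q) (hh : Bounds h a b)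

include S hr hf hh in
/-- With two paths of length two and `n` direct crossings, a current that is not larger than the
`(n + 1)`-st power of the voltage is equal to it, and there are no further crossings at `p`, `q`. -/
theorem two_paths {n : ℕ} (T : TwoPaths v₁ v₂ p q star n) (hA : h b ≤ f q ^ (n + 1)) :
    h b = f q ^ (n + 1) ∧ (star p).length = n + 2 ∧ (star q).length = n + 2 := by
  obtain ⟨A, B, D, A', B', D', k₁, k₂, l₁, l₂, atp, atq, p1, p2, hB, c1, c2⟩ := T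
  have P1 := S.first
  have P2 := S.second
  rw [atp] at P1
  rw [atq] at P2
  obtain ⟨u0, A1, A2⟩ := path_append _ _ _ _ P1
  obtain ⟨A3, A4⟩ : cOpp e₁ e₂ k₁ = u0 ∧ Path e₁ e₂ (cAt e₁ e₂ k₁) (B ++ k₂ :: D) b := A2
  obtain ⟨u1, B1, B2⟩ := path_append _ _ _ _ A4
  obtain ⟨B3, B4⟩ : cOpp e₁ e₂ k₂ = u1 ∧ Path e₁ e₂ (cAt e₁ e₂ k₂) D b := B2
  obtain ⟨u3, D1, D2⟩ := path_append _ _ _ _ P2
  obtain ⟨D3, D4⟩ : cOpp e₁ e₂ l₂ = u3 ∧ Path e₁ e₂ (cAt e₁ e₂ l₂) (B' ++ l₁ :: A') a := D2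
  obtain ⟨u4, E1, E2⟩ := path_append _ _ _ _ D4
  obtain ⟨E3, E4⟩ : cOpp e₁ e₂ l₁ = u4 ∧ Path e₁ e₂ (cAt e₁ e₂ l₁) A' a := E2
  -- membership
  have mA : ∀ k ∈ A, k ∈ star p := fun k hk => by rw [atp]; simp [hk]
  have mk1 : k₁ ∈ star p := by rw [atp]; simp
  have mB : ∀ k ∈ B, k ∈ star p := fun k hk => by rw [atp]; simp [hk]
  have mk2 : k₂ ∈ star p := by rw [atp]; simp
  have mD : ∀ k ∈ D, k ∈ star p := fun k hk => by rw [atp]; simp [hk]
  have mA' : ∀ k ∈ A', k ∈ star q := fun k hk => by rw [atq]; simp [hk]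
  have ml1 : l₁ ∈ star q := by rw [atq]; simp
  have mB' : ∀ k ∈ B', k ∈ star q := fun k hk => by rw [atq]; simp [hk]
  have ml2 : l₂ ∈ star q := by rw [atq]; simp
  have mD' : ∀ k ∈ D', k ∈ star q := fun k hk => by rw [atq]; simp [hk]
  have ne1 : cOpp v₁ v₂ k₁ ≠ q := by rw [p1]; exact S.opp_ne ml1
  have ne2 : cOpp v₁ v₂ k₂ ≠ q := by rw [p2]; exact S.opp_ne ml2
  have ne3 : cOpp v₁ v₂ l₁ ≠ p := by rw [← p1]; exact S.opp_ne mk1
  have ne4 : cOpp v₁ v₂ l₂ ≠ p := by rw [← p2]; exact S.opp_ne mk2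
  rw [atp, facing_append, facing_cons _ ne1, facing_append, facing_cons _ ne2] at c1
  rw [atq, facing_append, facing_cons _ ne4, facing_append, facing_cons _ ne3] at c2
  -- the inequalities
  obtain ⟨i1, j1⟩ := S.seg_first hr hf mA A1
  obtain ⟨i2, j2⟩ := S.seg_first hr hf mB B1
  obtain ⟨i3, j3⟩ := S.seg_first hr hf mD B4
  obtain ⟨i4, j4⟩ := S.seg_second hr hf mD' D1
  obtain ⟨i5, j5⟩ := S.seg_second hr hf mB' E1
  obtain ⟨i6, j6⟩ := S.seg_second hr hf mA' E4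
  rw [hh.base, inv_one, one_mul] at i1 j1
  rw [hh.base, mul_one] at i6 j6
  have e1 := S.first_factor hr hf mk1
  have e2 := S.first_factor hr hf mk2
  have e3 := S.factor hr ml2
  have e4 := S.factor hr ml1
  rw [A3] at e1
  rw [B3] at e2
  rw [D3, ← p2] at e3
  rw [E3, ← p1] at e4
  set g := f q with hg
  set n1 := facing v₁ v₂ A q with hn1
  set n2 := facing v₁ v₂ B q with hn2
  set n3 := facing v₁ v₂ D q with hn3
  set m1 := facing v₁ v₂ A' p with hm1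
  set m3 := facing v₁ v₂ D' p with hm3
  rw [← hB] at c2 i5 j5
  have res := chain (g := g) (A := h b) (X := h (cAt e₁ e₂ k₁)) (X' := h u1)
    (U := h (cAt e₁ e₂ k₂)) (Y := h u4) (Y' := h (cAt e₁ e₂ l₂)) (Z := h (cAt e₁ e₂ l₁))
    (H0 := h u0) (H3 := h u3) (f1 := f (cOpp v₁ v₂ k₁)) (f2 := f (cOpp v₁ v₂ k₂)) (n := n)
    (n1 := n1) (n2 := n2) (n3 := n3) (m1 := m1) (m3 := m3) (by omega) (by omega)
    (by rw [← e1]; group) (by rw [← e2]; group) (by rw [← e3]; group) (by rw [← e4]; group)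
    i1 (le_inv_mul_iff_mul_le.mp i2) (le_inv_mul_iff_mul_le.mp i3)
    (by
      have := mul_le_mul_right i4 (h b)
      rw [mul_inv_cancel_left] at this
      exact le_mul_inv_iff_mul_le.mp this)
    (by
      have := mul_le_mul_right i5 (h (cAt e₁ e₂ l₂))
      rw [mul_inv_cancel_left] at this
      exact le_mul_inv_iff_mul_le.mp this)
    (inv_le_inv_iff.mp i6) hA
  obtain ⟨r1, r2, r3, r4, r5, r6, r7⟩ := res
  have l1 : n1 = A.length := le_antisymm (facing_le A q) (not_lt.mp fun hl => (j1 hl).ne r1)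
  have l2 : n2 = B.length := le_antisymm (facing_le B q) (not_lt.mp fun hl => (j2 hl).ne (by
    rw [← r2]; group))
  have l3 : n3 = D.length := le_antisymm (facing_le D q) (not_lt.mp fun hl => (j3 hl).ne (by
    rw [← r3]; group))
  have l4 : m3 = D'.length := le_antisymm (facing_le D' p) (not_lt.mp fun hl => (j4 hl).ne (by
    rw [← r4]; group))
  have l5 : n2 = B'.length := by
    refine le_antisymm (hB ▸ facing_le B' p) (not_lt.mp fun hl => (j5 hl).ne (by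
      rw [← r5]; group))
  have l6 : m1 = A'.length := le_antisymm (facing_le A' p) (not_lt.mp fun hl => (j6 hl).ne (by
    rw [← r6]))
  refine ⟨r7, ?_, ?_⟩
  · rw [atp]
    simp only [List.length_append, List.length_cons]
    omega
  · rw [atq]
    simp only [List.length_append, List.length_cons]
    omega

end Side

end Pool.Agent.Y479.LS
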