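import Pool.Agent.Y479.LS.Sum

set_option autoImplicit false
set_option linter.unusedSectionVars false

/-!
# Alternating tangles that contain the rational tangles `s / (s m + 1)`
-/

namespace Pool.Agent.Y479.LS

/-- The tangle contains, with the same poles, the rational tangle `s / (s m + 1)`: a walk of length `m`
in the white graph from `west` to some region `v`, and `s` crossings between `v` and `east`. -/
def Tangle.Contains (T : Tangle) (m s : ℕ) : Prop :=
  ∃ v, Walk T.w₁ T.w₂ m T.west v ∧ s ≤ facing T.w₁ T.w₂ (T.starW T.east) v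

section list
variable {P : Type*} [Group P] [PartialOrder P] [MulLeftMono P] [MulRightMono P]

theorem prod_le_pow {K : Type*} (F : K → P) (D : K → Bool) (g : P) :
    ∀ (l : List K), (∀ k ∈ l, F k ≤ 1) → (∀ k ∈ l, D k = true → F k = g) →
      (l.map F).prod ≤ g ^ l.countP D
  | [], _, _ => by simp
  | k :: l, h1, h2 => by
    have ih := prod_le_pow F D g l (fun x hx => h1 x (List.mem_cons_of_mem _ hx))
      (fun x hx => h2 x (List.mem_cons_of_mem _ hx))
    rw [List.map_cons, List.prod_cons]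
    by_cases hk : D k = true
    · rw [List.countP_cons_of_pos hk, pow_succ', h2 k List.mem_cons_self hk]
      exact mul_le_mul_right ih _
    · rw [List.countP_cons_of_neg hk]
      exact (mul_le_of_le_one_left' (h1 k List.mem_cons_self)).trans ih

end list

namespace Side

variable {V E C : Type} {v₁ v₂ : C → V} {e₁ e₂ : C → E} {p q : V} {a b : E}
  {star : V → List (C × Bool)}
variable (S : Side v₁ v₂ e₁ e₂ p q a b star)
variable {P : Type*} [Group P] [PartialOrder P] [MulLeftMono P] [MulRightMono P]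
  {f : V → P} {h : E → P} (hr : Rel v₁ v₂ e₁ e₂ f h) (hf : Bounds f p q) (hh : Bounds h a b)

open Classical in
include S hr hf hh in
/-- the certificate of a contained rational tangle -/
theorem contains_le {m s : ℕ} {v : V} (hw : Walk v₁ v₂ m p v)
    (hs : s ≤ facing v₁ v₂ (star q) v) : ((h b ^ m)⁻¹ * f q) ^ s ≤ h b := by
  have h1 := walk_le hr hh m p v hw
  rw [hf.base, inv_one, one_mul] at h1
  have h2 := path_prod h _ _ _ S.second
  rw [hh.base, mul_one] at h2
  have h3 := prod_le_pow (fun k => (h (cOpp e₁ e₂ k))⁻¹ * h (cAt e₁ e₂ k))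
    (fun k => decide (cOpp v₁ v₂ k = v)) ((f q)⁻¹ * f v) (star q)
    (fun k hk => (S.second_neg hr hf hk).le) (by
      intro k hk hd
      rw [S.factor hr hk, of_decide_eq_true hd])
  rw [h2] at h3
  have h4 : ((f v)⁻¹ * f q) ^ facing v₁ v₂ (star q) v ≤ h b := by
    have h5 := inv_le_inv_iff.mpr h3
    rw [inv_inv, ← inv_pow, mul_inv_rev, inv_inv] at h5
    exact h5
  have h6 : 1 ≤ (f v)⁻¹ * f q := by
    have := mul_le_mul_right (hf.le v) (f v)⁻¹
    rwa [inv_mul_cancel] at this
  calc ((h b ^ m)⁻¹ * f q) ^ s ≤ ((f v)⁻¹ * f q) ^ s :=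
        pow_le_pow_of_le (mul_le_mul_left (inv_le_inv_iff.mpr h1) _) s
    _ ≤ ((f v)⁻¹ * f q) ^ facing v₁ v₂ (star q) v := pow_le_pow_right' h6 hs
    _ ≤ h b := h4

end Side

section algebra
variable {P : Type*} [Group P] [PartialOrder P] [MulLeftMono P] [MulRightMono P]

/-- `a ^ (-m) (a b) ^ m` as a product of conjugates of `b` is at least `c₁ b`. -/
theorem conj_word {a b : P} (hb : 1 < b) (r : ℕ) :
    (a⁻¹ * b * a) * b ≤ (a ^ (r + 2))⁻¹ * (a * b) ^ (r + 2) := by
  induction r with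
  | zero =>
    refine le_of_eq ?_
    rw [zero_add, pow_two, pow_two]; group
  | succ r ih =>
    have e : (a ^ (r + 1 + 2))⁻¹ * (a * b) ^ (r + 1 + 2) =
        ((a ^ (r + 2))⁻¹ * b * a ^ (r + 2)) * ((a ^ (r + 2))⁻¹ * (a * b) ^ (r + 2)) := by
      rw [pow_succ' a (r + 2), pow_succ' (a * b) (r + 2), mul_inv_rev]
      simp only [mul_assoc, inv_mul_cancel_left, mul_inv_cancel_left]
    rw [e]
    refine ih.trans (le_mul_of_one_le_left' ?_)
    exact (conj_pos (a := a ^ (r + 2)) hb).le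

theorem conj_word' {a b : P} (hb : 1 < b) (r : ℕ) :
    b * (a * b * a⁻¹) ≤ (b * a) ^ (r + 2) * (a ^ (r + 2))⁻¹ := by
  induction r with
  | zero =>
    refine le_of_eq ?_
    rw [zero_add, pow_two, pow_two]; group
  | succ r ih =>
    have e : (b * a) ^ (r + 1 + 2) * (a ^ (r + 1 + 2))⁻¹ =
        ((b * a) ^ (r + 2) * (a ^ (r + 2))⁻¹) * (a ^ (r + 2) * b * (a ^ (r + 2))⁻¹) := by
      rw [pow_succ a (r + 2), pow_succ (b * a) (r + 2), mul_inv_rev]
      simp only [mul_assoc, inv_mul_cancel_left, mul_inv_cancel_left]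
    rw [e]
    refine ih.trans (le_mul_of_one_le_right' ?_)
    exact (conj_pos' (a := a ^ (r + 2)) hb).le

/-- The final contradiction. `u`, `v` are the two conjugates of `b` by `a`. -/
theorem farey_core {a b g : P} {r s : ℕ} (hb : 1 < b)
    (h1 : b * (a * b * a⁻¹) * b ^ s ≤ a) (h2 : b ^ s * ((a⁻¹ * b * a) * b) ≤ a)
    (hg : (a * b) ^ (r + 2) ≤ g ∨ (b * a) ^ (r + 2) ≤ g)
    (h3 : g ≤ b ^ ((s + 2) * (r + 2) + 1)) : False := by
  have h0 : b ^ (s + 1) ≤ a := by
    refine le_trans ?_ h2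
    rw [pow_succ]
    exact mul_le_mul_right (le_mul_of_one_le_left' (conj_pos hb).le) _
  have hab : b ^ (s + 2) ≤ a * b := by
    rw [pow_succ]; exact mul_le_mul_left h0 _
  have hba : b ^ (s + 2) ≤ b * a := by
    rw [pow_succ']; exact mul_le_mul_right h0 _
  have key : (a * b * a⁻¹) * b ^ (s * 2 + (s + 2) * r + 1) * (a⁻¹ * b * a) ≤
      b ^ (s * 2 + (s + 2) * r + 2) := by
    have e : b ^ ((s + 2) * (r + 2) + 1) =
        b * b ^ (s * 2 + (s + 2) * r + 2) * (b * b) := by
      rw [← pow_two, ← pow_succ', ← pow_add]; congr 1; ring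
    have e' : b ^ ((s + 2) * (r + 2) + 1) =
        (b * b) * b ^ (s * 2 + (s + 2) * r + 2) * b := by
      rw [← pow_two, ← pow_add, ← pow_succ]; congr 1; ring
    rcases hg with hg | hg
    · have w : b * ((a * b * a⁻¹) * b ^ (s * 2 + (s + 2) * r + 1) * (a⁻¹ * b * a)) * (b * b) ≤
          b * b ^ (s * 2 + (s + 2) * r + 2) * (b * b) := by
        calc b * ((a * b * a⁻¹) * b ^ (s * 2 + (s + 2) * r + 1) * (a⁻¹ * b * a)) * (b * b)
            = (b * (a * b * a⁻¹) * b ^ s) * b * (b ^ (s + 2)) ^ r *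
                (b ^ s * ((a⁻¹ * b * a) * b)) * b := by
              rw [← pow_mul, show s * 2 + (s + 2) * r + 1 = s + 1 + ((s + 2) * r + s) by ring,
                pow_add b (s + 1), pow_succ b s, pow_add b ((s + 2) * r)]
              simp only [mul_assoc]
          _ ≤ a * b * (a * b) ^ r * a * b := by
              refine mul_le_mul_left (mul_le_mul' (mul_le_mul' (mul_le_mul_left h1 _) ?_) h2) _
              exact pow_le_pow_of_le hab r
          _ = (a * b) ^ (r + 2) := by
              rw [pow_succ, pow_succ']; simp only [mul_assoc]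
          _ ≤ _ := (hg.trans h3).trans (le_of_eq e)
      exact le_of_mul_le_mul_left' (le_of_mul_le_mul_right' w)
    · have w : (b * b) * ((a * b * a⁻¹) * b ^ (s * 2 + (s + 2) * r + 1) * (a⁻¹ * b * a)) * b ≤
          (b * b) * b ^ (s * 2 + (s + 2) * r + 2) * b := by
        calc (b * b) * ((a * b * a⁻¹) * b ^ (s * 2 + (s + 2) * r + 1) * (a⁻¹ * b * a)) * b
            = b * (b * (a * b * a⁻¹) * b ^ s) * (b ^ (s + 2)) ^ r * b *
                (b ^ s * ((a⁻¹ * b * a) * b)) := by
              rw [← pow_mul, show s * 2 + (s + 2) * r + 1 = s + ((s + 2) * r + (1 + s)) by ring,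
                pow_add b s, pow_add b ((s + 2) * r), pow_add b 1 s, pow_one]
              simp only [mul_assoc]
          _ ≤ b * a * (b * a) ^ r * b * a := by
              refine mul_le_mul' (mul_le_mul_left (mul_le_mul' (mul_le_mul_right h1 _) ?_) _) h2
              exact pow_le_pow_of_le hba r
          _ = (b * a) ^ (r + 2) := by
              rw [pow_succ (b * a) (r + 1), pow_succ' (b * a) r]; simp only [mul_assoc]
          _ ≤ _ := (hg.trans h3).trans (le_of_eq e')
      exact le_of_mul_le_mul_left' (le_of_mul_le_mul_right' w)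
  obtain ⟨k5, k6⟩ := squeeze (conj_pos' hb) (conj_pos hb) key
  exact conj_false k5 k6

theorem pow_conj (a x : P) (n : ℕ) : a * x ^ n * a⁻¹ = (a * x * a⁻¹) ^ n := conj_pow.symm

/-- The inequalities of a triple `(m - 1) / m`, `s / (s m + 1)`, `1 / ((s + 1) m + 1)`. -/
theorem farey {a b g : P} {r s : ℕ} (hb : 1 < b)
    (hg : (a * b) ^ (r + 2) ≤ g ∨ (b * a) ^ (r + 2) ≤ g)
    (ha : ((a ^ (r + 2))⁻¹ * g) ^ (s + 1) ≤ a)
    (h3 : g ≤ b ^ ((s + 2) * (r + 2) + 1)) : False := by
  have one_c : 1 ≤ a⁻¹ * b * a := (conj_pos hb).le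
  have one_d : 1 ≤ a * b * a⁻¹ := (conj_pos' hb).le
  rcases hg with hg | hg
  · set K := (a ^ (r + 2))⁻¹ * (a * b) ^ (r + 2) with hK
    have k1 : (a⁻¹ * b * a) * b ≤ K := conj_word hb r
    have k2 : b ≤ K := (le_mul_of_one_le_left' one_c).trans k1
    have k3 : K ^ (s + 1) ≤ a :=
      (pow_le_pow_of_le (mul_le_mul_right hg _) _).trans ha
    have k4 : b ^ s * ((a⁻¹ * b * a) * b) ≤ a := by
      refine le_trans ?_ k3
      rw [pow_succ]
      exact mul_le_mul' (pow_le_pow_of_le k2 s) k1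
    have k5 : (a * K * a⁻¹) ^ (s + 1) ≤ a := by
      rw [← pow_conj]
      have := mul_le_mul_left (mul_le_mul_right k3 a) a⁻¹
      rwa [mul_inv_cancel_right] at this
    have k6 : b * (a * b * a⁻¹) ≤ a * K * a⁻¹ := by
      have := mul_le_mul_left (mul_le_mul_right k1 a) a⁻¹
      calc b * (a * b * a⁻¹) = a * (a⁻¹ * b * a * b) * a⁻¹ := by group
        _ ≤ _ := this
    have k7 : b ≤ a * K * a⁻¹ := (le_mul_of_one_le_right' one_d).trans k6
    have k8 : b * (a * b * a⁻¹) * b ^ s ≤ a := by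
      refine le_trans ?_ k5
      rw [pow_succ']
      exact mul_le_mul' k6 (pow_le_pow_of_le k7 s)
    exact farey_core hb k8 k4 (Or.inl hg) h3
  · set K := (b * a) ^ (r + 2) * (a ^ (r + 2))⁻¹ with hK
    have ha' : (g * (a ^ (r + 2))⁻¹) ^ (s + 1) ≤ a := by
      have := mul_le_mul_left (mul_le_mul_right ha (a ^ (r + 2))) (a ^ (r + 2))⁻¹
      rw [pow_conj] at this
      have e1 : a ^ (r + 2) * ((a ^ (r + 2))⁻¹ * g) * (a ^ (r + 2))⁻¹ = g * (a ^ (r + 2))⁻¹ := by
        group
      have e2 : a ^ (r + 2) * a * (a ^ (r + 2))⁻¹ = a := by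
        rw [← pow_succ, pow_succ', mul_inv_cancel_right]
      rwa [e1, e2] at this
    have k1 : b * (a * b * a⁻¹) ≤ K := conj_word' hb r
    have k2 : b ≤ K := (le_mul_of_one_le_right' one_d).trans k1
    have k3 : K ^ (s + 1) ≤ a :=
      (pow_le_pow_of_le (mul_le_mul_left hg _) _).trans ha'
    have k8 : b * (a * b * a⁻¹) * b ^ s ≤ a := by
      refine le_trans ?_ k3
      rw [pow_succ']
      exact mul_le_mul' k1 (pow_le_pow_of_le k2 s)
    have k5 : (a⁻¹ * K * a) ^ (s + 1) ≤ a := by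
      have e : a⁻¹ * K * a = a⁻¹ * K * a⁻¹⁻¹ := by rw [inv_inv]
      rw [e, ← pow_conj, inv_inv]
      have := mul_le_mul_left (mul_le_mul_right k3 a⁻¹) a
      rwa [inv_mul_cancel, one_mul] at this
    have k6 : (a⁻¹ * b * a) * b ≤ a⁻¹ * K * a := by
      have := mul_le_mul_left (mul_le_mul_right k1 a⁻¹) a
      calc (a⁻¹ * b * a) * b = a⁻¹ * (b * (a * b * a⁻¹)) * a := by group
        _ ≤ _ := this
    have k7 : b ≤ a⁻¹ * K * a := (le_mul_of_one_le_left' one_c).trans k6
    have k4 : b ^ s * ((a⁻¹ * b * a) * b) ≤ a := by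
      refine le_trans ?_ k5
      rw [pow_succ]
      exact mul_le_mul' (pow_le_pow_of_le k7 s) k6
    exact farey_core hb k8 k4 (Or.inr hg) h3

end algebra

end Pool.Agent.Y479.LS
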