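import Pool.Agent.Y479.LS.Same

set_option autoImplicit false
set_option linter.unusedSectionVars false

/-!
# Nested tangles

Alternating tangle diagrams whose crossings are replaced by tangles, and sums and products
`Q + k - Q'` with mirror images; the group relations; consequences for actions on ordered sets.
-/

namespace Pool.Agent.Y479.LS

open Relation Aut

/-- A walk in the checkerboard graph of one colour, in which the crossing `c` may be passed at
the cost `m` if `wt c m`; `WWalk v₁ v₂ wt n a b` is a walk of total cost `n` from `a` to `b`. -/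
inductive WWalk {V C : Type} (v₁ v₂ : C → V) (wt : C → ℕ → Prop) : ℕ → V → V → Prop
  | nil (a : V) : WWalk v₁ v₂ wt 0 a a
  | cons {m n : ℕ} {b : V} (k : C × Bool) : wt k.1 m → WWalk v₁ v₂ wt n (cOpp v₁ v₂ k) b →
      WWalk v₁ v₂ wt (m + n) (cAt v₁ v₂ k) b

section walk

variable {V E C : Type} {v₁ v₂ : C → V} {e₁ e₂ : C → E}

theorem walk_ctl {X : Type*} [LinearOrder X] {f : V → Aut X} {h : E → Aut X} {H : Aut X}
    {wt : C → ℕ → Prop} (hr : Side.SRel v₁ v₂ e₁ e₂ f h)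
    (hwt : ∀ k m, wt k.1 m → Dom m ((f (cAt v₁ v₂ k))⁻¹ * f (cOpp v₁ v₂ k))
      ((h (cOpp e₁ e₂ k))⁻¹ * h (cAt e₁ e₂ k)))
    (hH : ∀ c d, Ctl H 1 ((h c)⁻¹ * h d)) {n : ℕ} {u v : V} (hw : WWalk v₁ v₂ wt n u v) :
    Ctl H n ((f u)⁻¹ * f v) := by
  induction hw with
  | nil a => rw [inv_mul_cancel]; exact Ctl.one H
  | @cons m n b k h1 h2 ih =>
    have h3 : Ctl H m ((f (cAt v₁ v₂ k))⁻¹ * f (cOpp v₁ v₂ k)) :=
      Ctl.of_dom (hH _ _) (hr k).symm (hwt k m h1)
    have h4 := h3.mul ih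
    rwa [mul_assoc, mul_inv_cancel_left] at h4

end walk

namespace Side

variable {V E C : Type} {v₁ v₂ : C → V} {e₁ e₂ : C → E} {p q : V} {a b : E}
  {star : V → List (C × Bool)} {star' : E → List (C × Bool)}

/-- The voltage moves points in the same direction as the current. -/
theorem same_of (S : Side v₁ v₂ e₁ e₂ p q a b star) (S' : Side e₁ e₂ v₁ v₂ a b p q star')
    [Finite V] [Finite E] {X : Type*} [LinearOrder X] {f : V → Aut X} {h : E → Aut X}
    (hr : SRel v₁ v₂ e₁ e₂ f h) (hr' : SRel e₁ e₂ v₁ v₂ h f) :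
    Same ((h a)⁻¹ * h b) ((f p)⁻¹ * f q) := by
  intro x
  rw [inv_mul_le, inv_mul_le, le_inv_mul, le_inv_mul]
  exact ⟨⟨fun k => S'.scurrent_aux hr' x k, fun k => S.scurrent_aux hr x k⟩,
    ⟨fun k => S'.scurrent hr' x k, fun k => S.scurrent hr x k⟩⟩

theorem dom_aux (S' : Side e₁ e₂ v₁ v₂ a b p q star')
    [Finite E] {X : Type*} [LinearOrder X] {f : V → Aut X} {h : E → Aut X}
    (hr : SRel v₁ v₂ e₁ e₂ f h) (hr' : SRel e₁ e₂ v₁ v₂ h f) {wt : C → ℕ → Prop}
    (hwt : ∀ k m, wt k.1 m → Dom m ((f (cAt v₁ v₂ k))⁻¹ * f (cOpp v₁ v₂ k))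
      ((h (cOpp e₁ e₂ k))⁻¹ * h (cAt e₁ e₂ k))) {n : ℕ} (hw : WWalk v₁ v₂ wt n p q) (x : X)
    (hx : x < ((h a)⁻¹ * h b) x) : ((f p)⁻¹ * f q) x ≤ (((h a)⁻¹ * h b) ^ n) x :=
  (walk_ctl hr hwt (fun c d => S'.ctl_one hr' c d) hw x hx).1

/-- A walk of cost `n` between the poles bounds the voltage by the `n`-th power of the current. -/
theorem dom_of (S : Side v₁ v₂ e₁ e₂ p q a b star) (S' : Side e₁ e₂ v₁ v₂ a b p q star')
    [Finite V] [Finite E] {X : Type*} [LinearOrder X] {f : V → Aut X} {h : E → Aut X}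
    (hr : SRel v₁ v₂ e₁ e₂ f h) (hr' : SRel e₁ e₂ v₁ v₂ h f) {wt : C → ℕ → Prop}
    (hwt : ∀ k m, wt k.1 m → Dom m ((f (cAt v₁ v₂ k))⁻¹ * f (cOpp v₁ v₂ k))
      ((h (cOpp e₁ e₂ k))⁻¹ * h (cAt e₁ e₂ k))) {n : ℕ} (hw : WWalk v₁ v₂ wt n p q) :
    Dom n ((f p)⁻¹ * f q) ((h a)⁻¹ * h b) := by
  have hs := (S.same_of S' hr hr').symm
  intro x
  constructor
  · intro hx
    rcases hx.lt_or_eq with h1 | h1
    · exact S'.dom_aux hr hr' hwt hw x h1
    · rw [hs.eq h1.symm]
      exact le_pow hx n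
  · intro hx
    rcases hx.lt_or_eq with h1 | h1
    · have := S'.dom_aux (X := Xᵒᵈ) hr.dual hr'.dual (wt := wt) (fun k m hk => by
        have h2 := (hwt k m hk).dual
        rwa [map_mul, map_inv, map_mul, map_inv] at h2) hw (OrderDual.toDual x) h1
      rw [← map_inv, ← map_mul, ← map_inv, ← map_mul, ← map_pow] at this
      exact this
    · rw [hs.eq h1]
      exact pow_le hx n

end Side

section mix

variable {X : Type*} [LinearOrder X]

theorem mix_up {G R : Aut X} {k m : ℕ} (hR : Same R G) (hm : Dom m R G)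
    (hmk : m ≤ k) {x : X} (hx : x ≤ G x) :
    R⁻¹ x ≤ x ∧ R⁻¹ x ≤ G (R⁻¹ x) ∧ x ≤ (G ^ k) (R⁻¹ x) := by
  have h1 : R⁻¹ x ≤ x := inv_le_self.mpr ((hR x).2.mpr hx)
  set y := R⁻¹ x with hy
  have h2 : R y = x := by rw [hy, self_inv]
  have h3 : y ≤ G y := by rw [← (hR y).2, h2]; exact h1
  refine ⟨h1, h3, ?_⟩
  have h4 := (hm y).1 h3
  rw [h2] at h4
  exact h4.trans (pow_mono h3 hmk)

theorem mix_same {P G R : Aut X} {k m : ℕ} (hP : Same P G) (hR : Same R G) (hm : Dom m R G)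
    (hmk : m ≤ k) : Same (P * G ^ k * R⁻¹) G := by
  have aux : ∀ (Y : Type _) [LinearOrder Y] (P G R : Aut Y), Same P G → Same R G → Dom m R G →
      ∀ x, x < G x → x < (P * G ^ k * R⁻¹) x := by
    intro Y _ P G R hP hR hm x hx
    obtain ⟨-, -, h3⟩ := mix_up hR hm hmk hx.le
    rw [mul_apply, mul_apply]
    exact lt_of_lt_of_le (hP.lt hx) ((le_iff P).mpr h3)
  refine Same.of (fun x hx => aux X P G R hP hR hm x hx) (fun x hx => ?_) (fun x hx => ?_)
  · have := aux Xᵒᵈ (dual P) (dual G) (dual R) hP.dual hR.dual hm.dual (OrderDual.toDual x) hx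
    rw [← map_pow, ← map_inv, ← map_mul, ← map_mul] at this
    exact this
  · have h1 : R⁻¹ x = x := by
      rw [← inj R, self_inv]; exact (hR.eq hx).symm
    rw [mul_apply, mul_apply, h1, le_antisymm (pow_le hx.le k) (le_pow hx.ge k), hP.eq hx]

theorem mix_dom {P G R : Aut X} {k m d : ℕ} (hR : Same R G) (hm : Dom m R G)
    (hmk : m ≤ k) (hd : Dom d P G) : Dom (d + k) (P * G ^ k * R⁻¹) G := by
  have aux : ∀ (Y : Type _) [LinearOrder Y] (P G R : Aut Y), Same R G → Dom m R G → Dom d P G →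
      ∀ x, x ≤ G x → (P * G ^ k * R⁻¹) x ≤ (G ^ (d + k)) x := by
    intro Y _ P G R hR hm hd x hx
    obtain ⟨h1, h2, h3⟩ := mix_up hR hm hmk hx
    rw [mul_apply, mul_apply, pow_add_apply]
    have h4 : (G ^ k) (R⁻¹ x) ≤ G ((G ^ k) (R⁻¹ x)) := by
      rw [pow_self_comm, le_iff]; exact h2
    exact ((hd _).1 h4).trans ((le_iff _).mpr ((le_iff _).mpr h1))
  intro x
  constructor
  · exact aux X P G R hR hm hd x
  · intro hx
    have := aux Xᵒᵈ (dual P) (dual G) (dual R) hR.dual hm.dual hd.dual (OrderDual.toDual x) hx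
    rw [← map_pow, ← map_pow, ← map_inv, ← map_mul, ← map_mul] at this
    exact this

theorem mix_dom' {P G R : Aut X} {k m d : ℕ} (hP : Same P G) (hR : Same R G) (hm : Dom m R G)
    (hmk : m ≤ k) (hd : Dom d G P) : Dom d G (P * G ^ k * R⁻¹) := by
  have aux : ∀ (Y : Type _) [LinearOrder Y] (P G R : Aut Y), Same P G → Same R G → Dom m R G →
      Dom d G P → ∀ x, x ≤ (P * G ^ k * R⁻¹) x → G x ≤ ((P * G ^ k * R⁻¹) ^ d) x := by
    intro Y _ P G R hP hR hm hd x hx
    have hs := mix_same hP hR hm hmk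
    have h1 : ∀ z, z ≤ (P * G ^ k * R⁻¹) z → P z ≤ (P * G ^ k * R⁻¹) z := by
      intro z hz
      obtain ⟨-, -, h3⟩ := mix_up hR hm hmk ((hs z).2.mp hz)
      rw [mul_apply, mul_apply]
      exact (le_iff P).mpr h3
    have h2 : ∀ i, (P ^ i) x ≤ ((P * G ^ k * R⁻¹) ^ i) x ∧
        ((P * G ^ k * R⁻¹) ^ i) x ≤ (P * G ^ k * R⁻¹) (((P * G ^ k * R⁻¹) ^ i) x) := by
      intro i
      induction i with
      | zero => simp only [pow_zero, one_apply]; exact ⟨le_rfl, hx⟩
      | succ i ih =>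
        rw [pow_succ', mul_apply, pow_succ' (P * G ^ k * R⁻¹), mul_apply]
        exact ⟨((le_iff P).mpr ih.1).trans (h1 _ ih.2), (le_iff _).mpr ih.2⟩
    exact ((hd x).1 ((hP x).2.mpr ((hs x).2.mp hx))).trans (h2 d).1
  intro x
  constructor
  · exact aux X P G R hP hR hm hd x
  · intro hx
    have := aux Xᵒᵈ (dual P) (dual G) (dual R) hP.dual hR.dual hm.dual hd.dual
      (OrderDual.toDual x)
    rw [← map_pow, ← map_inv, ← map_mul, ← map_mul, ← map_pow] at this
    exact this hx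

end mix

/-- Tangles built from crossings by replacing the crossings of alternating tangle diagrams, and by
forming sums `Q + k - Q'` and products with the mirror image of `Q'` and `k` crossings. -/
inductive Term : Type 1
  /-- one crossing -/
  | crossing : Term
  /-- the diagram `T` with the tangle `Q c` in place of the crossing `c` -/
  | node (T : Tangle) (Q : T.C → Term) : Term
  /-- `Q`, `k` crossings and the mirror image of `Q'` below each other -/
  | sum (Q : Term) (k : ℕ) (Q' : Term) : Term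
  /-- `Q`, `k` crossings and the mirror image of `Q'` beside each other -/
  | prod (Q : Term) (k : ℕ) (Q' : Term) : Term

namespace Term

/-- Inner regions. -/
def Gen : Term → Type
  | crossing => Empty
  | node T Q => (T.W ⊕ T.B) ⊕ (Σ c, Gen (Q c))
  | sum Q _ Q' => Unit ⊕ (Gen Q ⊕ Gen Q')
  | prod Q _ Q' => Unit ⊕ (Gen Q ⊕ Gen Q')

/-- The relators of a tangle. `w, e, n, s` are the elements of the regions west, east (white),
north, south (black) at the boundary circle, `ρ` gives the elements of the inner regions. -/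
def rel {G : Type} [Group G] : (t : Term) → (t.Gen → G) → G → G → G → G → Set G
  | crossing, _, w, e, n, s => {n⁻¹ * s * (w⁻¹ * e)⁻¹}
  | node T Q, ρ, w, e, n, s =>
    {r | r = ρ (Sum.inl (Sum.inl T.west)) * w⁻¹ ∨ r = ρ (Sum.inl (Sum.inl T.east)) * e⁻¹ ∨
      r = ρ (Sum.inl (Sum.inr T.north)) * n⁻¹ ∨ r = ρ (Sum.inl (Sum.inr T.south)) * s⁻¹ ∨
      ∃ c, r ∈ rel (Q c) (fun g => ρ (Sum.inr ⟨c, g⟩)) (ρ (Sum.inl (Sum.inl (T.w₁ c))))
        (ρ (Sum.inl (Sum.inl (T.w₂ c)))) (ρ (Sum.inl (Sum.inr (T.b₂ c))))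
        (ρ (Sum.inl (Sum.inr (T.b₁ c))))}
  | sum Q k Q', ρ, w, e, n, s =>
    rel Q (fun g => ρ (Sum.inr (Sum.inl g))) w e n (ρ (Sum.inl ())) ∪
      rel Q' (fun g => ρ (Sum.inr (Sum.inr g))) w e s (ρ (Sum.inl ()) * (w⁻¹ * e) ^ k)
  | prod Q k Q', ρ, w, e, n, s =>
    rel Q (fun g => ρ (Sum.inr (Sum.inl g))) w (ρ (Sum.inl ())) n s ∪
      rel Q' (fun g => ρ (Sum.inr (Sum.inr g))) e (ρ (Sum.inl ()) * (n⁻¹ * s) ^ k) n s

/-- The black poles are joined by a walk of length `d`. -/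
def black : Term → ℕ → Prop
  | crossing, d => d = 1
  | node T Q, d => WWalk T.b₁ T.b₂ (fun c m => black (Q c) m) d T.north T.south
  | sum Q k _, d => ∃ m, black Q m ∧ d = m + k
  | prod Q _ _, d => black Q d

/-- The white poles are joined by a walk of length `d`. -/
def white : Term → ℕ → Prop
  | crossing, d => d = 1
  | node T Q, d => WWalk T.w₁ T.w₂ (fun c m => white (Q c) m) d T.west T.east
  | sum Q _ _, d => white Q d
  | prod Q k _, d => ∃ m, white Q m ∧ d = m + k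

/-- In every sum `Q + k - Q'` the black poles of `Q'` are joined by a walk of length at most `k`, in
every product the white poles. -/
def Valid : Term → Prop
  | crossing => True
  | node _ Q => ∀ c, Valid (Q c)
  | sum Q k Q' => Valid Q ∧ Valid Q' ∧ ∃ m ≤ k, black Q' m
  | prod Q k Q' => Valid Q ∧ Valid Q' ∧ ∃ m ≤ k, white Q' m

theorem exists_rel {F G : Type} [Group F] [Group G] (φ : F →* G) : ∀ (t : Term) (ρ : t.Gen → F)
    (w e n s : F) (r : G), r ∈ rel t (fun g => φ (ρ g)) (φ w) (φ e) (φ n) (φ s) →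
      ∃ r₀ ∈ rel t ρ w e n s, φ r₀ = r := by
  intro t
  induction t with
  | crossing =>
    intro ρ w e n s r hr
    refine ⟨n⁻¹ * s * (w⁻¹ * e)⁻¹, rfl, ?_⟩
    have hr' : r = (φ n)⁻¹ * φ s * ((φ w)⁻¹ * φ e)⁻¹ := hr
    rw [hr']
    simp only [map_mul, map_inv]
  | node T Q ih =>
    intro ρ w e n s r hr
    rcases hr with h | h | h | h | ⟨c, h⟩
    · exact ⟨_, Or.inl rfl, by rw [h, map_mul, map_inv]⟩
    · exact ⟨_, Or.inr (Or.inl rfl), by rw [h, map_mul, map_inv]⟩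
    · exact ⟨_, Or.inr (Or.inr (Or.inl rfl)), by rw [h, map_mul, map_inv]⟩
    · exact ⟨_, Or.inr (Or.inr (Or.inr (Or.inl rfl))), by rw [h, map_mul, map_inv]⟩
    · obtain ⟨r₀, h1, h2⟩ := ih c _ _ _ _ _ r h
      exact ⟨r₀, Or.inr (Or.inr (Or.inr (Or.inr ⟨c, h1⟩))), h2⟩
  | sum Q k Q' ih ih' =>
    intro ρ w e n s r hr
    rcases hr with h | h
    · obtain ⟨r₀, h1, h2⟩ := ih _ _ _ _ _ r h
      exact ⟨r₀, Or.inl h1, h2⟩
    · have h' : r ∈ rel Q' (fun g => φ (ρ (Sum.inr (Sum.inr g)))) (φ w) (φ e) (φ s)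
          (φ (ρ (Sum.inl ()) * (w⁻¹ * e) ^ k)) := by
        simpa only [map_mul, map_pow, map_inv] using h
      obtain ⟨r₀, h1, h2⟩ := ih' _ _ _ _ _ r h'
      exact ⟨r₀, Or.inr h1, h2⟩
  | prod Q k Q' ih ih' =>
    intro ρ w e n s r hr
    rcases hr with h | h
    · obtain ⟨r₀, h1, h2⟩ := ih _ _ _ _ _ r h
      exact ⟨r₀, Or.inl h1, h2⟩
    · have h' : r ∈ rel Q' (fun g => φ (ρ (Sum.inr (Sum.inr g)))) (φ e)
          (φ (ρ (Sum.inl ()) * (n⁻¹ * s) ^ k)) (φ n) (φ s) := by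
        simpa only [map_mul, map_pow, map_inv] using h
      obtain ⟨r₀, h1, h2⟩ := ih' _ _ _ _ _ r h'
      exact ⟨r₀, Or.inr h1, h2⟩

section node

variable {T : Tangle} {X : Type} [LinearOrder X] {W : T.W → Aut X} {B : T.B → Aut X}

theorem srel_white (h : ∀ c, Same ((B (T.b₂ c))⁻¹ * B (T.b₁ c)) ((W (T.w₁ c))⁻¹ * W (T.w₂ c))) :
    Side.SRel T.w₁ T.w₂ T.b₁ T.b₂ W B := by
  rintro ⟨c, σ⟩
  cases σ
  · exact h c
  · have := (h c).inv
    simp only [mul_inv_rev, inv_inv] at this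
    exact this

theorem srel_black (h : ∀ c, Same ((B (T.b₂ c))⁻¹ * B (T.b₁ c)) ((W (T.w₁ c))⁻¹ * W (T.w₂ c))) :
    Side.SRel T.b₁ T.b₂ T.w₁ T.w₂ B W := by
  rintro ⟨c, σ⟩
  cases σ
  · have := (h c).symm.inv
    simp only [mul_inv_rev, inv_inv] at this
    exact this
  · exact (h c).symm

theorem wt_black {wt : T.C → ℕ → Prop}
    (h : ∀ c m, wt c m → Dom m ((B (T.b₂ c))⁻¹ * B (T.b₁ c)) ((W (T.w₁ c))⁻¹ * W (T.w₂ c))) :
    ∀ (k : T.C × Bool) (m : ℕ), wt k.1 m →
      Dom m ((B (cAt T.b₁ T.b₂ k))⁻¹ * B (cOpp T.b₁ T.b₂ k))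
        ((W (cOpp T.w₁ T.w₂ k))⁻¹ * W (cAt T.w₁ T.w₂ k)) := by
  rintro ⟨c, σ⟩ m hm
  cases σ
  · have := (h c m hm).inv
    simp only [mul_inv_rev, inv_inv] at this
    exact this
  · exact h c m hm

theorem wt_white {wt : T.C → ℕ → Prop}
    (h : ∀ c m, wt c m → Dom m ((W (T.w₁ c))⁻¹ * W (T.w₂ c)) ((B (T.b₂ c))⁻¹ * B (T.b₁ c))) :
    ∀ (k : T.C × Bool) (m : ℕ), wt k.1 m →
      Dom m ((W (cAt T.w₁ T.w₂ k))⁻¹ * W (cOpp T.w₁ T.w₂ k))
        ((B (cOpp T.b₁ T.b₂ k))⁻¹ * B (cAt T.b₁ T.b₂ k)) := by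
  rintro ⟨c, σ⟩ m hm
  cases σ
  · exact h c m hm
  · have := (h c m hm).inv
    simp only [mul_inv_rev, inv_inv] at this
    exact this

end node

/-- In a valid tangle the voltage and the current move all points in the same direction, and they
are bounded by powers of each other. -/
theorem main {X : Type} [LinearOrder X] : ∀ (t : Term) (ρ : t.Gen → Aut X) (w e n s : Aut X),
    (∀ r ∈ rel t ρ w e n s, r = 1) → t.Valid →
      Same (n⁻¹ * s) (w⁻¹ * e) ∧ (∀ d, t.black d → Dom d (n⁻¹ * s) (w⁻¹ * e)) ∧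
        ∀ d, t.white d → Dom d (w⁻¹ * e) (n⁻¹ * s) := by
  intro t
  induction t with
  | crossing =>
    intro ρ w e n s h _
    have h1 : n⁻¹ * s = w⁻¹ * e := by
      rw [← mul_inv_eq_one]
      exact h _ rfl
    have h2 : Dom 1 (w⁻¹ * e) (w⁻¹ * e) := fun x => by
      rw [pow_one]; exact ⟨fun _ => le_rfl, fun _ => le_rfl⟩
    rw [h1]
    refine ⟨Same.refl _, fun d hd => ?_, fun d hd => ?_⟩
    · have hd' : d = 1 := hd
      rw [hd']; exact h2
    · have hd' : d = 1 := hd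
      rw [hd']; exact h2
  | node T Q ih =>
    intro ρ w e n s h hv
    have hv' : ∀ c, (Q c).Valid := hv
    set W : T.W → Aut X := fun v => ρ (Sum.inl (Sum.inl v)) with hW
    set B : T.B → Aut X := fun v => ρ (Sum.inl (Sum.inr v)) with hB
    have e1 : w = W T.west := (mul_inv_eq_one.mp (h _ (Or.inl rfl))).symm
    have e2 : e = W T.east := (mul_inv_eq_one.mp (h _ (Or.inr (Or.inl rfl)))).symm
    have e3 : n = B T.north := (mul_inv_eq_one.mp (h _ (Or.inr (Or.inr (Or.inl rfl))))).symm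
    have e4 : s = B T.south :=
      (mul_inv_eq_one.mp (h _ (Or.inr (Or.inr (Or.inr (Or.inl rfl)))))).symm
    have hc := fun c => ih c (fun g => ρ (Sum.inr ⟨c, g⟩)) (W (T.w₁ c)) (W (T.w₂ c)) (B (T.b₂ c))
      (B (T.b₁ c)) (fun r hr => h r (Or.inr (Or.inr (Or.inr (Or.inr ⟨c, hr⟩))))) (hv' c)
    have hw := srel_white fun c => (hc c).1
    have hb := srel_black fun c => (hc c).1
    have := T.finW
    have := T.finB
    rw [e1, e2, e3, e4]
    refine ⟨T.white.same_of T.black hw hb, fun d hd => ?_, fun d hd => ?_⟩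
    · exact T.black.dom_of T.white hb hw (wt_black fun c m hm => (hc c).2.1 m hm) hd
    · exact T.white.dom_of T.black hw hb (wt_white fun c m hm => (hc c).2.2 m hm) hd
  | sum Q k Q' ih ih' =>
    intro ρ w e n s h hv
    obtain ⟨v1, v2, m', hm', v3⟩ := hv
    obtain ⟨a1, a2, a3⟩ := ih _ _ _ _ _ (fun r hr => h r (Or.inl hr)) v1
    obtain ⟨c1, c2, -⟩ := ih' _ _ _ _ _ (fun r hr => h r (Or.inr hr)) v2
    set m := ρ (Sum.inl ()) with hm
    have e1 : n⁻¹ * s = n⁻¹ * m * (w⁻¹ * e) ^ k * (s⁻¹ * (m * (w⁻¹ * e) ^ k))⁻¹ := by group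
    rw [e1]
    refine ⟨mix_same a1 c1 (c2 _ v3) hm', fun d hd => ?_, fun d hd => ?_⟩
    · obtain ⟨d', h1, rfl⟩ := hd
      exact mix_dom c1 (c2 _ v3) hm' (a2 _ h1)
    · exact mix_dom' a1 c1 (c2 _ v3) hm' (a3 _ hd)
  | prod Q k Q' ih ih' =>
    intro ρ w e n s h hv
    obtain ⟨v1, v2, m', hm', v3⟩ := hv
    obtain ⟨a1, a2, a3⟩ := ih _ _ _ _ _ (fun r hr => h r (Or.inl hr)) v1
    obtain ⟨c1, -, c3⟩ := ih' _ _ _ _ _ (fun r hr => h r (Or.inr hr)) v2
    set m := ρ (Sum.inl ()) with hm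
    have e1 : w⁻¹ * e = w⁻¹ * m * (n⁻¹ * s) ^ k * (e⁻¹ * (m * (n⁻¹ * s) ^ k))⁻¹ := by group
    rw [e1]
    refine ⟨(mix_same a1.symm c1.symm (c3 _ v3) hm').symm, fun d hd => ?_, fun d hd => ?_⟩
    · exact mix_dom' a1.symm c1.symm (c3 _ v3) hm' (a2 _ hd)
    · obtain ⟨d', h1, rfl⟩ := hd
      exact mix_dom c1.symm (c3 _ v3) hm' (a3 _ h1)

/-- Where the poles fix a point, all regions do. -/
theorem fix {X : Type} [LinearOrder X] (x : X) : ∀ (t : Term) (ρ : t.Gen → Aut X)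
    (w e n s : Aut X), (∀ r ∈ rel t ρ w e n s, r = 1) → t.Valid →
      w x = x → e x = x → n x = x → s x = x → ∀ g, ρ g x = x := by
  intro t
  induction t with
  | crossing => intro ρ w e n s _ _ _ _ _ _ g; exact g.elim
  | node T Q ih =>
    intro ρ w e n s h hv f1 f2 f3 f4
    have hv' : ∀ c, (Q c).Valid := hv
    set W : T.W → Aut X := fun v => ρ (Sum.inl (Sum.inl v)) with hW
    set B : T.B → Aut X := fun v => ρ (Sum.inl (Sum.inr v)) with hB
    have e1 : w = W T.west := (mul_inv_eq_one.mp (h _ (Or.inl rfl))).symm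
    have e2 : e = W T.east := (mul_inv_eq_one.mp (h _ (Or.inr (Or.inl rfl)))).symm
    have e3 : n = B T.north := (mul_inv_eq_one.mp (h _ (Or.inr (Or.inr (Or.inl rfl))))).symm
    have e4 : s = B T.south :=
      (mul_inv_eq_one.mp (h _ (Or.inr (Or.inr (Or.inr (Or.inl rfl)))))).symm
    have hc := fun c => main (Q c) (fun g => ρ (Sum.inr ⟨c, g⟩)) (W (T.w₁ c)) (W (T.w₂ c))
      (B (T.b₂ c)) (B (T.b₁ c))
      (fun r hr => h r (Or.inr (Or.inr (Or.inr (Or.inr ⟨c, hr⟩))))) (hv' c)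
    have hw := srel_white fun c => (hc c).1
    have hb := srel_black fun c => (hc c).1
    have := T.finW
    have := T.finB
    rw [e1] at f1
    rw [e2] at f2
    rw [e3] at f3
    rw [e4] at f4
    have g1 : ∀ v, W v x = x := fun v =>
      (T.white.seq_of_eq hw x (f1.trans f2.symm) v).trans f1
    have g2 : ∀ v, B v x = x := fun v =>
      (T.black.seq_of_eq hb x (f3.trans f4.symm) v).trans f3
    rintro ((v | v) | ⟨c, g⟩)
    · exact g1 v
    · exact g2 v
    · exact ih c (fun g => ρ (Sum.inr ⟨c, g⟩)) (W (T.w₁ c)) (W (T.w₂ c)) (B (T.b₂ c))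
        (B (T.b₁ c)) (fun r hr => h r (Or.inr (Or.inr (Or.inr (Or.inr ⟨c, hr⟩))))) (hv' c)
        (g1 _) (g1 _) (g2 _) (g2 _) g
  | sum Q k Q' ih ih' =>
    intro ρ w e n s h hv f1 f2 f3 f4
    obtain ⟨v1, v2, -⟩ := hv
    obtain ⟨a1, -⟩ := main _ _ _ _ _ _ (fun r hr => h r (Or.inl hr)) v1
    have hG : (w⁻¹ * e) x = x := by rw [inv_mul_eq, f1, f2]
    have hm : ρ (Sum.inl ()) x = x := by
      have := a1.eq hG
      rwa [inv_mul_eq, f3] at this
    have hp : (ρ (Sum.inl ()) * (w⁻¹ * e) ^ k) x = x := by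
      rw [mul_apply, le_antisymm (pow_le hG.le k) (le_pow hG.ge k), hm]
    rintro (u | g | g)
    · exact hm
    · exact ih _ _ _ _ _ (fun r hr => h r (Or.inl hr)) v1 f1 f2 f3 hm g
    · exact ih' _ _ _ _ _ (fun r hr => h r (Or.inr hr)) v2 f1 f2 f4 hp g
  | prod Q k Q' ih ih' =>
    intro ρ w e n s h hv f1 f2 f3 f4
    obtain ⟨v1, v2, -⟩ := hv
    obtain ⟨a1, -⟩ := main _ _ _ _ _ _ (fun r hr => h r (Or.inl hr)) v1
    have hG : (n⁻¹ * s) x = x := by rw [inv_mul_eq, f3, f4]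
    have hm : ρ (Sum.inl ()) x = x := by
      have := a1.symm.eq hG
      rwa [inv_mul_eq, f1] at this
    have hp : (ρ (Sum.inl ()) * (n⁻¹ * s) ^ k) x = x := by
      rw [mul_apply, le_antisymm (pow_le hG.le k) (le_pow hG.ge k), hm]
    rintro (u | g | g)
    · exact hm
    · exact ih _ _ _ _ _ (fun r hr => h r (Or.inl hr)) v1 f1 hm f3 f4 g
    · exact ih' _ _ _ _ _ (fun r hr => h r (Or.inr hr)) v2 f2 hp f3 f4 g

/-- The relators of the closure of a tangle: the regions north and south become one region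
(`numerator = true`), or the regions west and east (`numerator = false`). One white and one black
region are the base regions. -/
def closure (t : Term) (numerator : Bool) : Set (FreeGroup (t.Gen ⊕ Unit)) :=
  rel t (fun g => FreeGroup.of (Sum.inl g)) 1
    (if numerator then FreeGroup.of (Sum.inr ()) else 1) 1
    (if numerator then 1 else FreeGroup.of (Sum.inr ()))

/-- The fundamental group of the double branched cover of the closure of a tangle. -/
abbrev Grp (t : Term) (numerator : Bool) : Type := PresentedGroup (t.closure numerator)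

theorem fix_all {t : Term} (ht : t.Valid) {c : Bool} {X : Type} [LinearOrder X]
    (φ : Grp t c →* Aut X) (x : X) (γ : Grp t c) : φ γ x = x := by
  set ψ : FreeGroup (t.Gen ⊕ Unit) →* Aut X := φ.comp (PresentedGroup.mk (t.closure c)) with hψ
  have h0 : ∀ r ∈ rel t (fun g => ψ (FreeGroup.of (Sum.inl g))) (ψ 1)
      (ψ (if c then FreeGroup.of (Sum.inr ()) else 1)) (ψ 1)
      (ψ (if c then 1 else FreeGroup.of (Sum.inr ()))), r = 1 := by
    intro r hr
    obtain ⟨r₀, h1, rfl⟩ := exists_rel ψ t _ _ _ _ _ r hr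
    have h1' : r₀ ∈ t.closure c := h1
    rw [hψ, MonoidHom.comp_apply, PresentedGroup.one_of_mem h1', map_one]
  have h1 := (main t _ _ _ _ _ h0 ht).1
  have h2 : ψ (FreeGroup.of (Sum.inr ())) x = x := by
    cases c
    · simp only [if_false, Bool.false_eq_true, map_one, inv_one, one_mul] at h1
      exact h1.eq (one_apply x)
    · simp only [if_true, map_one, inv_one, one_mul] at h1
      exact h1.symm.eq (one_apply x)
  have h3 : ∀ g, ψ (FreeGroup.of (Sum.inl g)) x = x := by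
    refine fix x t _ _ _ _ _ h0 ht ?_ ?_ ?_ ?_
    · rw [map_one, one_apply]
    · cases c
      · simp only [if_false, Bool.false_eq_true, map_one, one_apply]
      · simp only [if_true]; exact h2
    · rw [map_one, one_apply]
    · cases c
      · simp only [if_false, Bool.false_eq_true]; exact h2
      · simp only [if_true, map_one, one_apply]
  have hmem : γ ∈ Subgroup.closure (Set.range (PresentedGroup.of (rels := t.closure c))) := by
    rw [PresentedGroup.closure_range_of]; trivial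
  induction hmem using Subgroup.closure_induction with
  | mem y hy =>
    obtain ⟨(g | u), rfl⟩ := hy
    · exact h3 g
    · exact h2
  | one => rw [map_one, Aut.one_apply]
  | mul y z _ _ h5 h6 => rw [map_mul, Aut.mul_apply, h6, h5]
  | inv y _ h5 => rw [map_inv, ← Aut.inj (φ y), Aut.self_inv, h5]

end Term

end Pool.Agent.Y479.LS
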