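import Pool.Agent.Y479.LS.Tangle

set_option autoImplicit false
set_option linter.unusedSectionVars false

/-!
# Consequences of positivity, in a partially ordered group
-/

namespace Pool.Agent.Y479.LS

section list
variable {P : Type*} [Group P] [PartialOrder P] [MulLeftMono P] [MulRightMono P]

theorem one_le_prod (l : List P) (h : ∀ g ∈ l, 1 ≤ g) : 1 ≤ l.prod := by
  induction l with
  | nil => exact le_of_eq List.prod_nil.symm
  | cons g l ih =>
    rw [List.prod_cons]
    exact one_le_mul (h g List.mem_cons_self) (ih fun x hx => h x (List.mem_cons_of_mem _ hx))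

theorem pow_le_prod {K : Type*} (F : K → P) (D : K → Bool) (g : P) :
    ∀ (l : List K), (∀ k ∈ l, 1 ≤ F k) → (∀ k ∈ l, D k = true → F k = g) →
      g ^ l.countP D ≤ (l.map F).prod
  | [], _, _ => by simp
  | k :: l, h1, h2 => by
    have ih := pow_le_prod F D g l (fun x hx => h1 x (List.mem_cons_of_mem _ hx))
      (fun x hx => h2 x (List.mem_cons_of_mem _ hx))
    rw [List.map_cons, List.prod_cons]
    by_cases hk : D k = true
    · rw [List.countP_cons_of_pos hk, pow_succ', h2 k List.mem_cons_self hk]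
      exact mul_le_mul_right ih _
    · rw [List.countP_cons_of_neg hk]
      exact ih.trans (le_mul_of_one_le_left' (h1 k List.mem_cons_self))

theorem pow_lt_prod {K : Type*} (F : K → P) (D : K → Bool) (g : P) :
    ∀ (l : List K), (∀ k ∈ l, 1 < F k) → (∀ k ∈ l, D k = true → F k = g) →
      l.countP D < l.length → g ^ l.countP D < (l.map F).prod
  | [], _, _, h => by simp at h
  | k :: l, h1, h2, h3 => by
    have h1' : ∀ x ∈ l, 1 < F x := fun x hx => h1 x (List.mem_cons_of_mem _ hx)
    have h2' : ∀ x ∈ l, D x = true → F x = g := fun x hx => h2 x (List.mem_cons_of_mem _ hx)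
    rw [List.map_cons, List.prod_cons]
    by_cases hk : D k = true
    · rw [List.countP_cons_of_pos hk, pow_succ', h2 k List.mem_cons_self hk]
      rw [List.countP_cons_of_pos hk, List.length_cons] at h3
      exact mul_lt_mul_right (pow_lt_prod F D g l h1' h2' (by omega)) _
    · rw [List.countP_cons_of_neg hk]
      exact lt_of_le_of_lt (pow_le_prod F D g l (fun x hx => (h1' x hx).le) h2')
        (lt_mul_of_one_lt_left' _ (h1 k List.mem_cons_self))

theorem prod_le_inv_pow {K : Type*} (F : K → P) (D : K → Bool) (g : P) :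
    ∀ (l : List K), (∀ k ∈ l, F k ≤ 1) → (∀ k ∈ l, D k = true → F k = g⁻¹) →
      (l.map F).prod ≤ (g ^ l.countP D)⁻¹
  | [], _, _ => by simp
  | k :: l, h1, h2 => by
    have ih := prod_le_inv_pow F D g l (fun x hx => h1 x (List.mem_cons_of_mem _ hx))
      (fun x hx => h2 x (List.mem_cons_of_mem _ hx))
    rw [List.map_cons, List.prod_cons]
    by_cases hk : D k = true
    · rw [List.countP_cons_of_pos hk, pow_succ, mul_inv_rev, h2 k List.mem_cons_self hk]
      exact mul_le_mul_right ih _
    · rw [List.countP_cons_of_neg hk]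
      exact (mul_le_of_le_one_left' (h1 k List.mem_cons_self)).trans ih

theorem prod_lt_inv_pow {K : Type*} (F : K → P) (D : K → Bool) (g : P) :
    ∀ (l : List K), (∀ k ∈ l, F k < 1) → (∀ k ∈ l, D k = true → F k = g⁻¹) →
      l.countP D < l.length → (l.map F).prod < (g ^ l.countP D)⁻¹
  | [], _, _, h => by simp at h
  | k :: l, h1, h2, h3 => by
    have h1' : ∀ x ∈ l, F x < 1 := fun x hx => h1 x (List.mem_cons_of_mem _ hx)
    have h2' : ∀ x ∈ l, D x = true → F x = g⁻¹ := fun x hx => h2 x (List.mem_cons_of_mem _ hx)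
    rw [List.map_cons, List.prod_cons]
    by_cases hk : D k = true
    · rw [List.countP_cons_of_pos hk, pow_succ, mul_inv_rev, h2 k List.mem_cons_self hk]
      rw [List.countP_cons_of_pos hk, List.length_cons] at h3
      exact mul_lt_mul_right (prod_lt_inv_pow F D g l h1' h2' (by omega)) _
    · rw [List.countP_cons_of_neg hk]
      exact lt_of_lt_of_le (mul_lt_of_lt_one_left' _ (h1 k List.mem_cons_self))
        (prod_le_inv_pow F D g l (fun x hx => (h1' x hx).le) h2')

theorem one_lt_prod (l : List P) (h : ∀ g ∈ l, 1 < g) (hl : l ≠ []) : 1 < l.prod := by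
  cases l with
  | nil => exact absurd rfl hl
  | cons g l =>
    rw [List.prod_cons]
    exact lt_of_lt_of_le (h g List.mem_cons_self) (le_mul_of_one_le_right'
      (one_le_prod l fun x hx => (h x (List.mem_cons_of_mem _ hx)).le))

theorem lt_prod (l : List P) (h : ∀ g ∈ l, 1 < g) (hl : 2 ≤ l.length) {g : P} (hg : g ∈ l) :
    g < l.prod := by
  obtain ⟨s, t, rfl⟩ := List.append_of_mem hg
  rw [List.prod_append, List.prod_cons]
  have hs : ∀ x ∈ s, 1 < x := fun x hx => h x (List.mem_append_left _ hx)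
  have ht : ∀ x ∈ t, 1 < x := fun x hx =>
    h x (List.mem_append_right _ (List.mem_cons_of_mem _ hx))
  rcases eq_or_ne t [] with rfl | h1
  · have : s ≠ [] := by
      rintro rfl
      simp at hl
    rw [List.prod_nil, mul_one]
    exact lt_mul_of_one_lt_left' _ (one_lt_prod s hs this)
  · exact lt_of_lt_of_le (lt_mul_of_one_lt_right' _ (one_lt_prod t ht h1))
      (le_mul_of_one_le_left' (one_le_prod s fun x hx => (hs x hx).le))

end list

/-- All values lie between the value `1` at `p` and the value at `q`. -/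
structure Bounds {V P : Type*} [Group P] [PartialOrder P] (f : V → P) (p q : V) : Prop where
  base : f p = 1
  pos : ∀ v, v ≠ p → 1 < f v
  lt : ∀ v, v ≠ q → f v < f q

namespace Bounds
variable {V P : Type*} [Group P] [PartialOrder P] {f : V → P} {p q : V} (h : Bounds f p q)
include h

theorem one_le (v : V) : 1 ≤ f v := by
  classical
  by_cases hv : v = p
  · rw [hv, h.base]
  · exact (h.pos v hv).le

theorem le (v : V) : f v ≤ f q := by
  classical
  by_cases hv : v = q
  · rw [hv]
  · exact (h.lt v hv).le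

end Bounds

namespace Side

variable {V E C : Type} {v₁ v₂ : C → V} {e₁ e₂ : C → E} {p q : V} {a b : E}
  {star : V → List (C × Bool)}
variable (S : Side v₁ v₂ e₁ e₂ p q a b star)
variable {P : Type*} [Group P] [PartialOrder P] [MulLeftMono P] [MulRightMono P]
  {f : V → P} {h : E → P} (hr : Rel v₁ v₂ e₁ e₂ f h) (hf : Bounds f p q) (hh : Bounds h a b)

omit [MulLeftMono P] [MulRightMono P] in
theorem adj_factor {G : Type*} [Group G] {f : V → G} {h : E → G} (hr : Rel v₁ v₂ e₁ e₂ f h)
    {u v : V} (huv : Adj v₁ v₂ u v) : ∃ c d : E, (f u)⁻¹ * f v = (h c)⁻¹ * h d := by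
  obtain ⟨k, h1, h2⟩ := huv
  refine ⟨cOpp e₁ e₂ k, cAt e₁ e₂ k, ?_⟩
  rw [hr k, h1, h2]

include hr hh in
theorem adj_le {u v : V} (huv : Adj v₁ v₂ u v) : (f u)⁻¹ * f v ≤ h b := by
  obtain ⟨c, d, hcd⟩ := adj_factor hr huv
  rw [hcd]
  exact (mul_le_of_le_one_left' (inv_le_one'.mpr (hh.one_le c))).trans (hh.le d)

include hr hh in
theorem walk_le : ∀ (n : ℕ) (u v : V), Walk v₁ v₂ n u v → (f u)⁻¹ * f v ≤ h b ^ n
  | 0, u, v, hw => by
    have hw' : u = v := hw
    rw [hw', inv_mul_cancel, pow_zero]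
  | n + 1, u, v, hw => by
    obtain ⟨c, h1, h2⟩ := hw
    have h3 := walk_le n c v h2
    have h4 := adj_le hr hh h1
    calc (f u)⁻¹ * f v = ((f u)⁻¹ * f c) * ((f c)⁻¹ * f v) := by group
      _ ≤ h b * h b ^ n := mul_le_mul' h4 h3
      _ = h b ^ (n + 1) := (pow_succ' _ _).symm

include S hr

omit [MulLeftMono P] [MulRightMono P] [PartialOrder P] in
theorem factor {v : V} {k : C × Bool} (hk : k ∈ star v) :
    (h (cOpp e₁ e₂ k))⁻¹ * h (cAt e₁ e₂ k) = (f v)⁻¹ * f (cOpp v₁ v₂ k) := by
  rw [hr k, (S.mem v k).mp hk]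

omit [MulLeftMono P] [MulRightMono P] [PartialOrder P] [Group P] hr in
theorem opp_ne {v : V} {k : C × Bool} (hk : k ∈ star v) : cOpp v₁ v₂ k ≠ v := by
  obtain ⟨c, s⟩ := k
  have h1 := (S.mem v (c, s)).mp hk
  intro h2
  rw [← h1] at h2
  cases s
  · exact S.noLoop c h2.symm
  · exact S.noLoop c h2

omit [MulLeftMono P] [MulRightMono P] in
theorem first_factor (hf : Bounds f p q) {k : C × Bool} (hk : k ∈ star p) :
    (h (cOpp e₁ e₂ k))⁻¹ * h (cAt e₁ e₂ k) = f (cOpp v₁ v₂ k) := by
  rw [S.factor hr hk, hf.base, inv_one, one_mul]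

omit [MulLeftMono P] [MulRightMono P] in
theorem first_pos (hf : Bounds f p q) {k : C × Bool} (hk : k ∈ star p) :
    1 < (h (cOpp e₁ e₂ k))⁻¹ * h (cAt e₁ e₂ k) := by
  rw [S.first_factor hr hf hk]
  exact hf.pos _ (S.opp_ne hk)

theorem second_neg (hf : Bounds f p q) {k : C × Bool} (hk : k ∈ star q) :
    (h (cOpp e₁ e₂ k))⁻¹ * h (cAt e₁ e₂ k) < 1 := by
  rw [S.factor hr hk]
  have := mul_lt_mul_right (hf.lt _ (S.opp_ne hk)) (f q)⁻¹
  rwa [inv_mul_cancel] at this

open Classical in
/-- a part of the path around `p` -/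
theorem seg_first (hf : Bounds f p q) {l : List (C × Bool)} (hl : ∀ k ∈ l, k ∈ star p)
    {c d : E} (hp : Path e₁ e₂ c l d) :
    f q ^ facing v₁ v₂ l q ≤ (h c)⁻¹ * h d ∧
      (facing v₁ v₂ l q < l.length → f q ^ facing v₁ v₂ l q < (h c)⁻¹ * h d) := by
  rw [← path_prod h l c d hp]
  have h2 : ∀ k ∈ l, decide (cOpp v₁ v₂ k = q) = true →
      (h (cOpp e₁ e₂ k))⁻¹ * h (cAt e₁ e₂ k) = f q := by
    intro k hk hd
    rw [S.first_factor hr hf (hl k hk), of_decide_eq_true hd]
  constructor
  · exact pow_le_prod _ _ _ l (fun k hk => (S.first_pos hr hf (hl k hk)).le) h2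
  · exact pow_lt_prod _ _ _ l (fun k hk => S.first_pos hr hf (hl k hk)) h2

open Classical in
/-- a part of the path around `q` -/
theorem seg_second (hf : Bounds f p q) {l : List (C × Bool)} (hl : ∀ k ∈ l, k ∈ star q)
    {c d : E} (hp : Path e₁ e₂ c l d) :
    (h c)⁻¹ * h d ≤ (f q ^ facing v₁ v₂ l p)⁻¹ ∧
      (facing v₁ v₂ l p < l.length → (h c)⁻¹ * h d < (f q ^ facing v₁ v₂ l p)⁻¹) := by
  rw [← path_prod h l c d hp]
  have h2 : ∀ k ∈ l, decide (cOpp v₁ v₂ k = p) = true →
      (h (cOpp e₁ e₂ k))⁻¹ * h (cAt e₁ e₂ k) = (f q)⁻¹ := by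
    intro k hk hd
    rw [S.factor hr (hl k hk), of_decide_eq_true hd, hf.base, mul_one]
  constructor
  · exact prod_le_inv_pow _ _ _ l (fun k hk => (S.second_neg hr hf (hl k hk)).le) h2
  · exact prod_lt_inv_pow _ _ _ l (fun k hk => S.second_neg hr hf (hl k hk)) h2

include hh in
/-- If at least two corners belong to `p`, the first step of a walk from `p` is strict. -/
theorem adj_lt (hf : Bounds f p q) (h2 : 2 ≤ (star p).length) {v : V} (huv : Adj v₁ v₂ p v) :
    f v < h b := by
  obtain ⟨k, hk1, hk2⟩ := huv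
  have hk := (S.mem p k).mpr hk1
  have h3 := path_prod h _ _ _ S.first
  rw [hh.base, inv_one, one_mul] at h3
  rw [← h3, ← hk2, ← S.first_factor hr hf hk]
  refine lt_prod _ ?_ (by simpa using h2) (List.mem_map_of_mem hk)
  intro g hg
  obtain ⟨k', hk', rfl⟩ := List.mem_map.mp hg
  exact S.first_pos hr hf hk'

include hh in
/-- A walk of length `n` from `p` to `q` bounds the voltage by the `n`-th power of the current. -/
theorem voltage_le (hf : Bounds f p q) {n : ℕ} (hw : Walk v₁ v₂ n p q) :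
    f q ≤ h b ^ n ∧ (2 ≤ (star p).length → f q < h b ^ n) := by
  have h1 := walk_le hr hh n p q hw
  rw [hf.base, inv_one, one_mul] at h1
  refine ⟨h1, fun h2 => ?_⟩
  cases n with
  | zero => exact absurd hw S.ne
  | succ n =>
    obtain ⟨c, h3, h4⟩ := hw
    have h5 := S.adj_lt hr hh hf h2 h3
    have h6 := walk_le hr hh n c q h4
    calc f q = f c * ((f c)⁻¹ * f q) := by group
      _ < h b * ((f c)⁻¹ * f q) := mul_lt_mul_left h5 _
      _ ≤ h b * h b ^ n := mul_le_mul_right h6 _
      _ = h b ^ (n + 1) := (pow_succ' _ _).symm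

/-- The corners of `p` facing `q` bound the current from below. -/
theorem current_ge (hf : Bounds f p q) (hh : Bounds h a b) :
    f q ^ facing v₁ v₂ (star p) q ≤ h b ∧
      (facing v₁ v₂ (star p) q < (star p).length → f q ^ facing v₁ v₂ (star p) q < h b) := by
  have := S.seg_first hr hf (l := star p) (fun k hk => hk) S.first
  rwa [hh.base, inv_one, one_mul] at this

end Side

/-- The positive situation: from a strictly positive voltage everywhere to `Bounds`. -/
theorem Aut.lt_of {X : Type*} [LinearOrder X] [Nonempty X] {f g : Aut X} (h : ∀ x, f x < g x) :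
    f < g := by
  refine lt_of_le_of_ne (fun x => (h x).le) ?_
  rintro rfl
  obtain ⟨x⟩ := ‹Nonempty X›
  exact lt_irrefl _ (h x)

theorem Tangle.bounds {T : Tangle} {X : Type*} [LinearOrder X] [Nonempty X] {w : T.W → Aut X}
    {b : T.B → Aut X} (h : T.Rep w b) (hw : w T.west = 1) (hb : b T.north = 1)
    (hpos : ∀ x, x < w T.east x) :
    Bounds w T.west T.east ∧ Bounds b T.north T.south ∧ ∀ x, x < b T.south x := by
  have := T.finW
  have := T.finB
  have h1 : ∀ x, w T.west x < w T.east x := fun x => by rw [hw]; exact hpos x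
  have h2 : ∀ x, b T.north x < b T.south x := fun x => by
    refine lt_of_le_of_ne (T.white.current h.white x (h1 x).le) fun hcon => ?_
    exact (h1 x).ne (T.black.eq_of_eq h.black x hcon).2.symm
  refine ⟨⟨hw, fun v hv => ?_, fun v hv => ?_⟩, ⟨hb, fun v hv => ?_, fun v hv => ?_⟩, fun x => ?_⟩
  · rw [← hw]; exact Aut.lt_of fun x => T.white.first_lt h.white x (h1 x) hv
  · exact Aut.lt_of fun x => T.white.lt_second h.white x (h1 x) hv
  · rw [← hb]; exact Aut.lt_of fun x => T.black.first_lt h.black x (h2 x) hv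
  · exact Aut.lt_of fun x => T.black.lt_second h.black x (h2 x) hv
  · have := h2 x
    rwa [hb] at this

end Pool.Agent.Y479.LS
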