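import Pool.Agent.Y479.LS.Pos

set_option autoImplicit false
set_option linter.unusedSectionVars false

/-!
# Networks whose edges are pairs of automorphisms that move every point in the same direction
-/

namespace Pool.Agent.Y479.LS

open Relation Aut

section same

variable {X : Type*} [LinearOrder X]

/-- `u` and `v` move every point in the same direction. -/
def Same (u v : Aut X) : Prop := ∀ x, (u x ≤ x ↔ v x ≤ x) ∧ (x ≤ u x ↔ x ≤ v x)

/-- `u` moves points at most as far as `v ^ d`. -/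
def Dom (d : ℕ) (u v : Aut X) : Prop :=
  ∀ x, (x ≤ v x → u x ≤ (v ^ d) x) ∧ (v x ≤ x → (v ^ d) x ≤ u x)

/-- `g` moves points, upwards or downwards, at most as far as `v ^ n`, where `v` moves points up. -/
def Ctl (v : Aut X) (n : ℕ) (g : Aut X) : Prop :=
  ∀ y, y < v y → g y ≤ (v ^ n) y ∧ y ≤ (v ^ n) (g y)

theorem inv_le_self {u : Aut X} {x : X} : u⁻¹ x ≤ x ↔ x ≤ u x := by
  rw [← le_iff u, self_inv]

theorem self_le_inv {u : Aut X} {x : X} : x ≤ u⁻¹ x ↔ u x ≤ x := by
  rw [← le_iff u, self_inv]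

theorem Same.symm {u v : Aut X} (h : Same u v) : Same v u :=
  fun x => ⟨(h x).1.symm, (h x).2.symm⟩

theorem Same.refl (u : Aut X) : Same u u := fun _ => ⟨Iff.rfl, Iff.rfl⟩

theorem Same.inv {u v : Aut X} (h : Same u v) : Same u⁻¹ v⁻¹ := by
  intro x
  rw [inv_le_self, inv_le_self, self_le_inv, self_le_inv]
  exact ⟨(h x).2, (h x).1⟩

theorem Same.eq {u v : Aut X} (h : Same u v) {x : X} (hx : v x = x) : u x = x :=
  le_antisymm ((h x).1.mpr hx.le) ((h x).2.mpr hx.ge)

theorem Same.lt {u v : Aut X} (h : Same u v) {x : X} (hx : x < v x) : x < u x := by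
  rw [← not_le] at hx ⊢
  exact fun h1 => hx ((h x).1.mp h1)

theorem Same.gt {u v : Aut X} (h : Same u v) {x : X} (hx : v x < x) : u x < x := by
  rw [← not_le] at hx ⊢
  exact fun h1 => hx ((h x).2.mp h1)

theorem Same.of {u v : Aut X} (h1 : ∀ x, x < v x → x < u x) (h2 : ∀ x, v x < x → u x < x)
    (h3 : ∀ x, v x = x → u x = x) : Same u v := by
  intro x
  rcases lt_trichotomy (v x) x with h | h | h
  · have := h2 x h
    exact ⟨⟨fun _ => h.le, fun _ => this.le⟩,
      ⟨fun k => absurd k (not_le.mpr this), fun k => absurd k (not_le.mpr h)⟩⟩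
  · have := h3 x h
    rw [h, this]
    exact ⟨Iff.rfl, Iff.rfl⟩
  · have := h1 x h
    exact ⟨⟨fun k => absurd k (not_le.mpr this), fun k => absurd k (not_le.mpr h)⟩,
      ⟨fun _ => h.le, fun _ => this.le⟩⟩

theorem Same.dual {u v : Aut X} (h : Same u v) : Same (Aut.dual u) (Aut.dual v) :=
  fun x => ⟨(h (OrderDual.ofDual x)).2, (h (OrderDual.ofDual x)).1⟩

theorem Dom.dual {u v : Aut X} {d : ℕ} (h : Dom d u v) : Dom d (Aut.dual u) (Aut.dual v) := by
  intro x
  rw [← map_pow]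
  exact ⟨(h (OrderDual.ofDual x)).2, (h (OrderDual.ofDual x)).1⟩

theorem pow_self_comm (v : Aut X) (m : ℕ) (x : X) : v ((v ^ m) x) = (v ^ m) (v x) := by
  rw [← mul_apply, ← mul_apply, ← pow_succ', pow_succ]

theorem pow_add_apply (v : Aut X) (m n : ℕ) (x : X) : (v ^ (m + n)) x = (v ^ m) ((v ^ n) x) := by
  rw [pow_add, mul_apply]

theorem le_pow {v : Aut X} {x : X} (h : x ≤ v x) (m : ℕ) : x ≤ (v ^ m) x := by
  induction m with
  | zero => rw [pow_zero, one_apply]
  | succ m ih =>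
    rw [pow_succ', mul_apply]
    exact h.trans ((le_iff v).mpr ih)

theorem pow_le {v : Aut X} {x : X} (h : v x ≤ x) (m : ℕ) : (v ^ m) x ≤ x := by
  induction m with
  | zero => rw [pow_zero, one_apply]
  | succ m ih =>
    rw [pow_succ', mul_apply]
    exact ((le_iff v).mpr ih).trans h

theorem pow_mono {v : Aut X} {x : X} (h : x ≤ v x) {m n : ℕ} (hmn : m ≤ n) :
    (v ^ m) x ≤ (v ^ n) x := by
  obtain ⟨k, rfl⟩ := Nat.exists_eq_add_of_le hmn
  rw [pow_add_apply, le_iff]
  exact le_pow h k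

theorem pow_anti {v : Aut X} {x : X} (h : v x ≤ x) {m n : ℕ} (hmn : m ≤ n) :
    (v ^ n) x ≤ (v ^ m) x := by
  obtain ⟨k, rfl⟩ := Nat.exists_eq_add_of_le hmn
  rw [pow_add_apply, le_iff]
  exact pow_le h k

theorem Dom.inv {u v : Aut X} {d : ℕ} (h : Dom d u v) : Dom d u⁻¹ v⁻¹ := by
  intro x
  constructor
  · intro hx
    rw [self_le_inv] at hx
    rw [inv_pow, ← le_iff u, self_inv]
    obtain ⟨y, hy⟩ : ∃ y, y = (v ^ d)⁻¹ x := ⟨_, rfl⟩
    have hy' : (v ^ d) y = x := by rw [hy, self_inv]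
    rw [← hy]
    have h1 : v y ≤ y := by
      rw [← le_iff (v ^ d), ← pow_self_comm, hy']
      exact hx
    have := (h y).2 h1
    rwa [hy'] at this
  · intro hx
    rw [inv_le_self] at hx
    rw [inv_pow, ← le_iff u, self_inv]
    obtain ⟨y, hy⟩ : ∃ y, y = (v ^ d)⁻¹ x := ⟨_, rfl⟩
    have hy' : (v ^ d) y = x := by rw [hy, self_inv]
    rw [← hy]
    have h1 : y ≤ v y := by
      rw [← le_iff (v ^ d), ← pow_self_comm, hy']
      exact hx
    have := (h y).1 h1
    rwa [hy'] at this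

theorem hull {v : Aut X} {y z : X} {m k : ℕ} (hy : y < v y) (h1 : z ≤ (v ^ m) y)
    (h2 : y ≤ (v ^ k) z) : z < v z := by
  by_contra hcon
  rw [not_lt] at hcon
  have h3 : y ≤ z := h2.trans (pow_le hcon k)
  have h4 : (v ^ m) y ≤ z := ((le_iff _).mpr h3).trans (pow_le hcon m)
  have h5 : z = (v ^ m) y := le_antisymm h1 h4
  rw [h5, pow_self_comm, le_iff] at hcon
  exact absurd hy (not_lt.mpr hcon)

theorem Ctl.one (v : Aut X) : Ctl v 0 1 := by
  intro y _
  rw [pow_zero, one_apply]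
  exact ⟨le_rfl, le_rfl⟩

theorem Ctl.mul {v g h : Aut X} {n m : ℕ} (hg : Ctl v n g) (hh : Ctl v m h) :
    Ctl v (n + m) (g * h) := by
  intro y hy
  obtain ⟨h1, h2⟩ := hh y hy
  have h3 := hull hy h1 h2
  obtain ⟨h4, h5⟩ := hg _ h3
  rw [mul_apply]
  refine ⟨?_, ?_⟩
  · rw [pow_add_apply]
    exact h4.trans ((le_iff _).mpr h1)
  · rw [add_comm, pow_add_apply]
    exact h2.trans ((le_iff _).mpr h5)

theorem Ctl.pow {v g : Aut X} (hg : Ctl v 1 g) (n : ℕ) : Ctl v n (g ^ n) := by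
  induction n with
  | zero => rw [pow_zero]; exact Ctl.one v
  | succ n ih => rw [pow_succ]; exact ih.mul hg

theorem Ctl.of_dom {v u w : Aut X} {d : ℕ} (hw : Ctl v 1 w) (hs : Same u w) (hd : Dom d u w) :
    Ctl v d u := by
  intro y hy
  obtain ⟨h1, h2⟩ := hw.pow d y hy
  rcases le_total y (w y) with h | h
  · have h3 : y ≤ u y := (hs y).2.mpr h
    have h4 : u y ≤ (v ^ d) y := ((hd y).1 h).trans h1
    have h5 : u y < v (u y) := hull (k := 0) hy h4 (by rw [pow_zero, one_apply]; exact h3)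
    exact ⟨h4, h3.trans (le_pow h5.le d)⟩
  · have h3 : u y ≤ y := (hs y).1.mpr h
    exact ⟨h3.trans (le_pow hy.le d), h2.trans ((le_iff _).mpr ((hd y).2 h))⟩

end same

namespace Side

variable {V E C : Type} {v₁ v₂ : C → V} {e₁ e₂ : C → E} {p q : V} {a b : E}
  {star : V → List (C × Bool)}

variable (S : Side v₁ v₂ e₁ e₂ p q a b star)

/-- At every crossing the difference of the values of one colour and the difference of the values
of the other colour move all points in the same direction. -/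
def SRel {X : Type*} [LinearOrder X] (v₁ v₂ : C → V) (e₁ e₂ : C → E) (f : V → Aut X)
    (h : E → Aut X) : Prop :=
  ∀ k, Same ((h (cOpp e₁ e₂ k))⁻¹ * h (cAt e₁ e₂ k)) ((f (cAt v₁ v₂ k))⁻¹ * f (cOpp v₁ v₂ k))

theorem SRel.dual {X : Type*} [LinearOrder X] {f : V → Aut X} {h : E → Aut X}
    (hr : SRel v₁ v₂ e₁ e₂ f h) :
    SRel v₁ v₂ e₁ e₂ (fun v => Aut.dual (f v)) (fun e => Aut.dual (h e)) := by
  intro k
  rw [← map_inv, ← map_mul, ← map_inv, ← map_mul]
  exact (hr k).dual

section point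

variable {X : Type*} [LinearOrder X] {f : V → Aut X} {h : E → Aut X}
  (hr : SRel v₁ v₂ e₁ e₂ f h) (x : X)

include S hr

theorem slocal_max {v : V} (hp : v ≠ p) (hq : v ≠ q)
    (hm : ∀ k ∈ star v, f (cOpp v₁ v₂ k) x ≤ f v x) :
    ∀ k ∈ star v, f (cOpp v₁ v₂ k) x = f v x := by
  obtain ⟨e, he⟩ := S.inner v hp hq
  have h1 := path_prod h _ _ _ he
  rw [inv_mul_cancel] at h1
  have h2 : ∀ k ∈ star v, Same ((h (cOpp e₁ e₂ k))⁻¹ * h (cAt e₁ e₂ k))
      ((f v)⁻¹ * f (cOpp v₁ v₂ k)) := by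
    intro k hk
    have := hr k
    rwa [(S.mem v k).mp hk] at this
  have h3 := list_eq (x := x) ((star v).map fun k => (h (cOpp e₁ e₂ k))⁻¹ * h (cAt e₁ e₂ k)) ?_ ?_
  · intro k hk
    have h4 := h3 _ (List.mem_map_of_mem hk)
    have h5 := (h2 k hk).symm.eq h4
    rw [inv_mul_eq] at h5
    exact h5
  · intro g hg
    obtain ⟨k, hk, rfl⟩ := List.mem_map.mp hg
    rw [(h2 k hk x).1, inv_mul_le]
    exact hm k hk
  · rw [h1, one_apply]

theorem sle_second [Finite V] (hpq : f p x ≤ f q x) (v : V) : f v x ≤ f q x := by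
  obtain ⟨M, hM⟩ : ∃ M, ∀ n, f n x ≤ f M x := by
    have : Nonempty V := ⟨p⟩
    exact Finite.exists_max fun n => f n x
  refine (hM v).trans ?_
  by_cases hMp : M = p
  · rw [hMp]; exact hpq
  have : ∀ u, ReflTransGen (fun x y => Adj v₁ v₂ x y ∧ y ≠ p) u q → u ≠ p → f u x = f M x →
      f M x ≤ f q x := by
    intro u hu
    induction hu using ReflTransGen.head_induction_on with
    | refl => intro _ h1; exact h1.ge
    | @head u c huc _ ih =>
      intro hup h1
      by_cases huq : u = q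
      · rw [← huq]; exact h1.ge
      obtain ⟨⟨k, hk1, hk2⟩, hc⟩ := huc
      have h2 := S.slocal_max hr x hup huq (fun k _ => h1 ▸ hM _) k ((S.mem u k).mpr hk1)
      rw [hk2] at h2
      exact ih hc (h2.trans h1)
  exact this M (S.toSecond M hMp) hMp rfl

theorem sfirst_le [Finite V] (hpq : f p x ≤ f q x) (v : V) : f p x ≤ f v x :=
  S.symm.sle_second (X := Xᵒᵈ) hr.dual (OrderDual.toDual x) hpq v

theorem scurrent_aux [Finite V] (hpq : f q x ≤ f p x) : h b x ≤ h a x := by
  rw [← inv_mul_le, ← path_prod h _ _ _ S.first]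
  refine list_le _ fun g hg => ?_
  obtain ⟨k, hk, rfl⟩ := List.mem_map.mp hg
  rw [(hr k x).1, (S.mem p k).mp hk, inv_mul_le]
  exact S.symm.sle_second hr x hpq _

theorem scurrent [Finite V] (hpq : f p x ≤ f q x) : h a x ≤ h b x :=
  S.symm.scurrent_aux hr x hpq

theorem seq_of_eq [Finite V] (hpq : f p x = f q x) (v : V) : f v x = f p x := by
  refine le_antisymm ?_ (S.sfirst_le hr x hpq.le v)
  rw [hpq]; exact S.sle_second hr x hpq.le v

/-- Differences of values are bounded by the total voltage. -/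
theorem ctl_one [Finite V] (c d : V) : Ctl ((f p)⁻¹ * f q) 1 ((f c)⁻¹ * f d) := by
  intro y hy
  rw [← not_le, inv_mul_le, not_le] at hy
  rw [pow_one]
  have first : ((f c)⁻¹ * f d) y ≤ ((f p)⁻¹ * f q) y := by
    rw [mul_apply, mul_apply, ← le_iff (f c), self_inv]
    have h1 := S.sle_second hr y hy.le d
    refine h1.trans ?_
    set z := (f p)⁻¹ (f q y) with hz
    have h2 : f p z = f q y := by rw [hz, self_inv]
    rw [← h2]
    refine S.sfirst_le hr z ?_ c
    rw [h2, le_iff, ← le_iff (f p), h2]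
    exact hy.le
  refine ⟨first, ?_⟩
  set y' := ((f c)⁻¹ * f d) y with hy'
  have e1 : f c y' = f d y := by rw [hy', mul_apply, self_inv]
  rw [mul_apply, ← le_iff (f p), self_inv]
  have h1 : f p y ≤ f c y' := by rw [e1]; exact S.sfirst_le hr y hy.le d
  refine h1.trans ?_
  rcases le_total (f p y') (f q y') with h2 | h2
  · exact S.sle_second hr y' h2 c
  · have h3 : f c y' ≤ f p y' := S.symm.sle_second hr y' h2 c
    have h4 : y ≤ y' := (le_iff (f p)).mp (h1.trans h3)
    have h5 := hull (v := (f p)⁻¹ * f q) (m := 1) (k := 0) (z := y') (y := y)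
      (by rw [← not_le, inv_mul_le, not_le]; exact hy) (by rw [pow_one]; exact first)
      (by rw [pow_zero, one_apply]; exact h4)
    rw [← not_le, inv_mul_le, not_le] at h5
    exact absurd h2 (not_le.mpr h5)

end point

end Side

end Pool.Agent.Y479.LS
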