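import Pool.Agent.Y479.LS.Pos

set_option autoImplicit false
set_option linter.unusedSectionVars false

/-!
# Inequalities in partially ordered groups which exclude a solution
-/

namespace Pool.Agent.Y479.LS

variable {P : Type*} [Group P] [PartialOrder P] [MulLeftMono P] [MulRightMono P]

theorem conj_pos {a b : P} (hb : 1 < b) : 1 < a⁻¹ * b * a := by
  have h1 : a⁻¹ * 1 * a < a⁻¹ * b * a := mul_lt_mul_left (mul_lt_mul_right hb _) _
  simpa using h1

theorem conj_pos' {a b : P} (hb : 1 < b) : 1 < a * b * a⁻¹ := by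
  have h1 : a * 1 * a⁻¹ < a * b * a⁻¹ := mul_lt_mul_left (mul_lt_mul_right hb _) _
  simpa using h1

/-- `x b x⁻¹ < b` and `x⁻¹ b x < b` are incompatible. -/
theorem conj_false {x b : P} (h1 : x * b * x⁻¹ < b) (h2 : x⁻¹ * b * x < b) : False := by
  have h3 : x * b < b * x := by
    have := mul_lt_mul_left h1 x
    rwa [inv_mul_cancel_right] at this
  have h4 : b * x < x * b := by
    have := mul_lt_mul_right h2 x
    rwa [mul_assoc x⁻¹, mul_inv_cancel_left] at this
  exact absurd (h3.trans h4) (lt_irrefl _)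

/-- `u * b ^ (n + 1) * v ≤ b ^ (n + 2)` with `u, v > 1` gives `u < b` and `v < b`. -/
theorem squeeze {u v b : P} {n : ℕ} (hu : 1 < u) (hv : 1 < v)
    (h : u * b ^ (n + 1) * v ≤ b ^ (n + 2)) : u < b ∧ v < b := by
  constructor
  · have h1 : u * b ^ (n + 1) < b * b ^ (n + 1) := by
      rw [← pow_succ' b (n + 1)]
      exact lt_of_lt_of_le (lt_mul_of_one_lt_right' _ hv) h
    exact lt_of_mul_lt_mul_right' h1
  · have h1 : b ^ (n + 1) * v < b ^ (n + 1) * b := by
      rw [← pow_succ b (n + 1)]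
      refine lt_of_lt_of_le ?_ h
      rw [mul_assoc]
      exact lt_mul_of_one_lt_left' _ hu
    exact lt_of_mul_lt_mul_left' h1

theorem core {a b : P} {r : ℕ} (hb : 1 < b) (h1 : b * a * b ≤ a * a)
    (h2 : a * b ^ (2 * r + 1) * a ≤ b ^ (2 * r + 4)) : False := by
  have k1 : b * (a * b * a⁻¹) ≤ a := by
    have := mul_le_mul_left h1 a⁻¹
    rw [mul_inv_cancel_right] at this
    calc b * (a * b * a⁻¹) = b * a * b * a⁻¹ := by group
      _ ≤ a := this
  have k2 : (a⁻¹ * b * a) * b ≤ a := by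
    have := mul_le_mul_right h1 a⁻¹
    rw [inv_mul_cancel_left] at this
    calc (a⁻¹ * b * a) * b = a⁻¹ * (b * a * b) := by group
      _ ≤ a := this
  have k3 : b * ((a * b * a⁻¹) * b ^ (2 * r + 1) * (a⁻¹ * b * a)) * b ≤ b * b ^ (2 * r + 2) * b := by
    calc b * ((a * b * a⁻¹) * b ^ (2 * r + 1) * (a⁻¹ * b * a)) * b
        = (b * (a * b * a⁻¹)) * b ^ (2 * r + 1) * ((a⁻¹ * b * a) * b) := by
          simp only [mul_assoc]
      _ ≤ a * b ^ (2 * r + 1) * a := mul_le_mul' (mul_le_mul_left k1 _) k2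
      _ ≤ b ^ (2 * r + 4) := h2
      _ = b * b ^ (2 * r + 2) * b := by rw [← pow_succ', ← pow_succ]
  have k4 := le_of_mul_le_mul_left' (le_of_mul_le_mul_right' k3)
  obtain ⟨k5, k6⟩ := squeeze (conj_pos' hb) (conj_pos hb) k4
  exact conj_false k5 k6

theorem pow_le_pow_of_le {a b : P} (h : a ≤ b) (n : ℕ) : a ^ n ≤ b ^ n := by
  induction n with
  | zero => simp
  | succ n ih => rw [pow_succ, pow_succ]; exact mul_le_mul' ih h

/-- `(a b) ^ m ≤ g ≤ a ^ (m + 1), b ^ (2 m + 1)` is impossible for `m ≥ 2`. -/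
theorem pair₁ {a b g : P} {r : ℕ} (hb : 1 < b) (h : (a * b) ^ (r + 2) ≤ g)
    (h1 : g ≤ a ^ (r + 3)) (h2 : g ≤ b ^ (2 * r + 5)) : False := by
  have k1 : b * a * b ≤ a * a := by
    have h3 : a * (b * a * b * a ^ r) ≤ a * (a * a * a ^ r) := by
      calc a * (b * a * b * a ^ r) ≤ a * (b * a * b * (a * b) ^ r) :=
            mul_le_mul_right (mul_le_mul_right
              (pow_le_pow_of_le (le_mul_of_one_le_right' hb.le) r) _) _
        _ = (a * b) ^ (r + 2) := by rw [pow_succ', pow_succ']; simp only [mul_assoc]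
        _ ≤ a ^ (r + 3) := h.trans h1
        _ = a * (a * a * a ^ r) := by rw [pow_succ', pow_succ', pow_succ']; simp only [mul_assoc]
    exact le_of_mul_le_mul_right' (le_of_mul_le_mul_left' h3)
  have k2 : b ≤ a := by
    have h3 : b * a ≤ a * a := (le_mul_of_one_le_right' hb.le).trans k1
    exact le_of_mul_le_mul_right' h3
  refine core (r := r) hb k1 ?_
  have h3 : (a * b ^ (2 * r + 1) * a) * b ≤ b ^ (2 * r + 4) * b := by
    calc (a * b ^ (2 * r + 1) * a) * b = a * (b * (b * b) ^ r) * (a * b) := by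
          rw [pow_succ' b (2 * r), pow_mul, pow_two]; simp only [mul_assoc]
      _ ≤ a * (b * (a * b) ^ r) * (a * b) := by
          refine mul_le_mul_left (mul_le_mul_right (mul_le_mul_right ?_ _) _) _
          exact pow_le_pow_of_le (mul_le_mul_left k2 _) r
      _ = (a * b) ^ (r + 2) := by
          rw [pow_succ (a * b) (r + 1), pow_succ' (a * b) r]; simp only [mul_assoc]
      _ ≤ b ^ (2 * r + 5) := h.trans h2
      _ = b ^ (2 * r + 4) * b := pow_succ _ _
  exact le_of_mul_le_mul_right' h3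

/-- `(a b) ^ m ≤ g ≤ a ^ (2 m + 1), b ^ (m + 1)` is impossible for `m ≥ 2`. -/
theorem pair₂ {a b g : P} {r : ℕ} (ha : 1 < a) (h : (a * b) ^ (r + 2) ≤ g)
    (h1 : g ≤ a ^ (2 * r + 5)) (h2 : g ≤ b ^ (r + 3)) : False := by
  have k1 : a * b * a ≤ b * b := by
    have h3 : b ^ r * (a * b * a) * b ≤ b ^ r * (b * b) * b := by
      calc b ^ r * (a * b * a) * b ≤ (a * b) ^ r * (a * b * a) * b :=
            mul_le_mul_left (mul_le_mul_left
              (pow_le_pow_of_le (le_mul_of_one_le_left' ha.le) r) _) _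
        _ = (a * b) ^ (r + 2) := by rw [pow_succ, pow_succ]; simp only [mul_assoc]
        _ ≤ b ^ (r + 3) := h.trans h2
        _ = b ^ r * (b * b) * b := by rw [pow_succ, pow_succ, pow_succ]; simp only [mul_assoc]
    exact le_of_mul_le_mul_left' (le_of_mul_le_mul_right' h3)
  have k2 : a ≤ b := by
    have h3 : a * b ≤ b * b := (le_mul_of_one_le_right' ha.le).trans k1
    exact le_of_mul_le_mul_right' h3
  refine core (r := r) ha k1 ?_
  have h3 : a * (b * a ^ (2 * r + 1) * b) ≤ a * a ^ (2 * r + 4) := by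
    calc a * (b * a ^ (2 * r + 1) * b) = (a * b) * ((a * a) ^ r * a) * b := by
          rw [pow_succ a (2 * r), pow_mul, pow_two]; simp only [mul_assoc]
      _ ≤ (a * b) * ((a * b) ^ r * a) * b := by
          refine mul_le_mul_left (mul_le_mul_right (mul_le_mul_left ?_ _) _) _
          exact pow_le_pow_of_le (mul_le_mul_right k2 _) r
      _ = (a * b) ^ (r + 2) := by
          rw [pow_succ' (a * b) (r + 1), pow_succ (a * b) r]; simp only [mul_assoc]
      _ ≤ a ^ (2 * r + 5) := h.trans h1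
      _ = a * a ^ (2 * r + 4) := pow_succ' _ _
  exact le_of_mul_le_mul_left' h3

theorem mid₁ {a x b g : P} (hb : 1 < b) (h : a * x * b ≤ g)
    (h1 : g ≤ a ^ 3) (h2 : g ≤ x ^ 2) (h3 : g ≤ b ^ 5) : False := by
  have k1 : x * b ≤ a * a := by
    have : a * (x * b) ≤ a * (a * a) := by
      calc a * (x * b) = a * x * b := by simp only [mul_assoc]
        _ ≤ a ^ 3 := h.trans h1
        _ = a * (a * a) := by rw [pow_succ, pow_two, mul_assoc]
    exact le_of_mul_le_mul_left' this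
  have k2 : a * x ≤ b ^ 4 := by
    have : (a * x) * b ≤ b ^ 4 * b := by
      rw [← pow_succ]; exact h.trans h3
    exact le_of_mul_le_mul_right' this
  have k3 : a * x * b ≤ x * x := by rw [← pow_two]; exact h.trans h2
  have k4 : (x⁻¹ * a * x) * b ≤ x := by
    have := mul_le_mul_right k3 x⁻¹
    rw [inv_mul_cancel_left] at this
    calc (x⁻¹ * a * x) * b = x⁻¹ * (a * x * b) := by group
      _ ≤ x := this
  have k5 : a * (x * b * x⁻¹) ≤ x := by
    have := mul_le_mul_left k3 x⁻¹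
    rw [mul_inv_cancel_right] at this
    calc a * (x * b * x⁻¹) = a * x * b * x⁻¹ := by group
      _ ≤ x := this
  have k6 : (x * b * x⁻¹) * b ≤ a := by
    have : a * ((x * b * x⁻¹) * b) ≤ a * a := by
      calc a * ((x * b * x⁻¹) * b) = (a * (x * b * x⁻¹)) * b := by simp only [mul_assoc]
        _ ≤ x * b := mul_le_mul_left k5 _
        _ ≤ a * a := k1
    exact le_of_mul_le_mul_left' this
  have k7 : a * (x⁻¹ * a * x) ≤ b ^ 3 := by
    have : (a * (x⁻¹ * a * x)) * b ≤ b ^ 3 * b := by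
      calc (a * (x⁻¹ * a * x)) * b = a * ((x⁻¹ * a * x) * b) := by simp only [mul_assoc]
        _ ≤ a * x := mul_le_mul_right k4 _
        _ ≤ b ^ 4 := k2
        _ = b ^ 3 * b := pow_succ _ _
    exact le_of_mul_le_mul_right' this
  have k8 : b * (x⁻¹ * b * x) ≤ x⁻¹ * a * x := by
    have := mul_le_mul_left (mul_le_mul_right k6 x⁻¹) x
    calc b * (x⁻¹ * b * x) = x⁻¹ * (x * b * x⁻¹ * b) * x := by group
      _ ≤ x⁻¹ * a * x := this
  have k9 : (x * b * x⁻¹) * b ^ (1 + 1) * (x⁻¹ * b * x) ≤ b ^ (1 + 2) := by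
    calc (x * b * x⁻¹) * b ^ (1 + 1) * (x⁻¹ * b * x)
        = ((x * b * x⁻¹) * b) * (b * (x⁻¹ * b * x)) := by
          rw [pow_succ, pow_one]; simp only [mul_assoc]
      _ ≤ a * (x⁻¹ * a * x) := mul_le_mul' k6 k8
      _ ≤ b ^ 3 := k7
  obtain ⟨s1, s2⟩ := squeeze (conj_pos' hb) (conj_pos hb) k9
  exact conj_false s1 s2

theorem mid₂ {a x b g : P} (ha : 1 < a) (h : a * x * b ≤ g)
    (h1 : g ≤ a ^ 5) (h2 : g ≤ x ^ 2) (h3 : g ≤ b ^ 3) : False := by
  have k1 : a * x ≤ b * b := by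
    have : (a * x) * b ≤ (b * b) * b := by
      calc (a * x) * b ≤ b ^ 3 := h.trans h3
        _ = (b * b) * b := by rw [pow_succ, pow_two]
    exact le_of_mul_le_mul_right' this
  have k2 : x * b ≤ a ^ 4 := by
    have : a * (x * b) ≤ a * a ^ 4 := by
      rw [← pow_succ', ← mul_assoc]; exact h.trans h1
    exact le_of_mul_le_mul_left' this
  have k3 : a * x * b ≤ x * x := by rw [← pow_two]; exact h.trans h2
  have k4 : (x⁻¹ * a * x) * b ≤ x := by
    have := mul_le_mul_right k3 x⁻¹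
    rw [inv_mul_cancel_left] at this
    calc (x⁻¹ * a * x) * b = x⁻¹ * (a * x * b) := by group
      _ ≤ x := this
  have k5 : a * (x * b * x⁻¹) ≤ x := by
    have := mul_le_mul_left k3 x⁻¹
    rw [mul_inv_cancel_right] at this
    calc a * (x * b * x⁻¹) = a * x * b * x⁻¹ := by group
      _ ≤ x := this
  have k6 : a * (x⁻¹ * a * x) ≤ b := by
    have : (a * (x⁻¹ * a * x)) * b ≤ b * b := by
      calc (a * (x⁻¹ * a * x)) * b = a * ((x⁻¹ * a * x) * b) := by simp only [mul_assoc]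
        _ ≤ a * x := mul_le_mul_right k4 _
        _ ≤ b * b := k1
    exact le_of_mul_le_mul_right' this
  have k7 : (x * b * x⁻¹) * b ≤ a ^ 3 := by
    have : a * ((x * b * x⁻¹) * b) ≤ a * a ^ 3 := by
      calc a * ((x * b * x⁻¹) * b) = (a * (x * b * x⁻¹)) * b := by simp only [mul_assoc]
        _ ≤ x * b := mul_le_mul_left k5 _
        _ ≤ a ^ 4 := k2
        _ = a * a ^ 3 := pow_succ' _ _
    exact le_of_mul_le_mul_left' this
  have k8 : (x * a * x⁻¹) * a ≤ x * b * x⁻¹ := by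
    have := mul_le_mul_left (mul_le_mul_right k6 x) x⁻¹
    calc (x * a * x⁻¹) * a = x * (a * (x⁻¹ * a * x)) * x⁻¹ := by group
      _ ≤ x * b * x⁻¹ := this
  have k9 : (x * a * x⁻¹) * a ^ (1 + 1) * (x⁻¹ * a * x) ≤ a ^ (1 + 2) := by
    calc (x * a * x⁻¹) * a ^ (1 + 1) * (x⁻¹ * a * x)
        = ((x * a * x⁻¹) * a) * (a * (x⁻¹ * a * x)) := by
          rw [pow_succ, pow_one]; simp only [mul_assoc]
      _ ≤ (x * b * x⁻¹) * b := mul_le_mul' k8 k6
      _ ≤ a ^ 3 := k7
  obtain ⟨s1, s2⟩ := squeeze (conj_pos' ha) (conj_pos ha) k9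
  exact conj_false s1 s2

/-- Two elements whose squares dominate, and a product that is strictly smaller. -/
theorem sq_false {a b g : P} (h : a * b < g) (h1 : g ≤ a ^ 2) (h2 : g ≤ b ^ 2) : False := by
  have k1 : b < a := by
    have := lt_of_lt_of_le h h1
    rw [pow_two] at this
    exact lt_of_mul_lt_mul_left' this
  have k2 : a < b := by
    have := lt_of_lt_of_le h h2
    rw [pow_two] at this
    exact lt_of_mul_lt_mul_right' this
  exact absurd (k1.trans k2) (lt_irrefl _)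

/-- Spherical triples of natural numbers. -/
theorem spherical_cases {a b c : ℕ} (ha : 1 ≤ a) (hb : 1 ≤ b) (hc : 1 ≤ c)
    (h : a * b * c < a * b + b * c + a * c) :
    a ≤ 1 ∨ b ≤ 1 ∨ c ≤ 1 ∨ (a ≤ 2 ∧ b ≤ 2) ∨ (a ≤ 2 ∧ c ≤ 2) ∨ (b ≤ 2 ∧ c ≤ 2) ∨
      (a ≤ 2 ∧ b ≤ 3 ∧ c ≤ 5) ∨ (a ≤ 2 ∧ b ≤ 5 ∧ c ≤ 3) ∨ (a ≤ 3 ∧ b ≤ 2 ∧ c ≤ 5) ∨
      (a ≤ 5 ∧ b ≤ 2 ∧ c ≤ 3) ∨ (a ≤ 3 ∧ b ≤ 5 ∧ c ≤ 2) ∨ (a ≤ 5 ∧ b ≤ 3 ∧ c ≤ 2) := by
  have two : ∀ x y : ℕ, 3 ≤ x → 3 ≤ y → x * y < 2 * x + 2 * y →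
      (x ≤ 3 ∧ y ≤ 5) ∨ (x ≤ 5 ∧ y ≤ 3) := by
    intro x y hx hy hxy
    rcases Nat.lt_or_ge x 4 with h1 | h1
    · left
      have : x = 3 := by omega
      subst this
      omega
    · rcases Nat.lt_or_ge y 4 with h2 | h2
      · right
        have : y = 3 := by omega
        subst this
        omega
      · nlinarith
  by_contra hcon
  push Not at hcon
  obtain ⟨a1, b1, c1, h12, h13, h23, p1, p2, p3, p4, p5, p6⟩ := hcon
  rcases Nat.lt_or_ge a 3 with h1 | h1
  · have ha2 : a = 2 := by omega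
    subst ha2
    have hb3 := h12 le_rfl
    have hc3 := h13 le_rfl
    rcases two b c hb3 hc3 (by nlinarith) with h2 | h2
    · exact absurd (p1 le_rfl h2.1) (not_lt.mpr h2.2)
    · exact absurd (p2 le_rfl h2.1) (not_lt.mpr h2.2)
  · rcases Nat.lt_or_ge b 3 with h2 | h2
    · have hb2 : b = 2 := by omega
      subst hb2
      have hc3 := h23 le_rfl
      rcases two a c h1 hc3 (by nlinarith) with h3 | h3
      · exact absurd (p3 h3.1 le_rfl) (not_lt.mpr h3.2)
      · exact absurd (p4 h3.1 le_rfl) (not_lt.mpr h3.2)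
    · rcases Nat.lt_or_ge c 3 with h3 | h3
      · have hc2 : c = 2 := by omega
        subst hc2
        rcases two a b h1 h2 (by nlinarith) with h4 | h4
        · exact absurd (p5 h4.1 h4.2) (not_lt.mpr le_rfl)
        · exact absurd (p6 h4.1 h4.2) (not_lt.mpr le_rfl)
      · have e1 : 3 * (a * b) ≤ c * (a * b) := Nat.mul_le_mul_right _ h3
        have e2 : 3 * (b * c) ≤ a * (b * c) := Nat.mul_le_mul_right _ h1
        have e3 : 3 * (a * c) ≤ b * (a * c) := Nat.mul_le_mul_right _ h2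
        nlinarith

/-- The main inequality: no solution for spherical triples. -/
theorem spherical {a x b g : P} {k l m : ℕ} (ha : 1 < a) (hx : 1 < x) (hb : 1 < b)
    (hk : 1 ≤ k) (hl : 1 ≤ l) (hm : 1 ≤ m) (hs : k * l * m < k * l + l * m + k * m)
    (h : a * x * b ≤ g) (h1 : g ≤ a ^ k) (h2 : g ≤ x ^ l) (h3 : g ≤ b ^ m) : False := by
  have up : ∀ {z : P} {i j : ℕ}, 1 < z → i ≤ j → g ≤ z ^ i → g ≤ z ^ j := fun hz hij hg =>
    hg.trans (pow_le_pow_right' hz.le hij)
  have lax : a * x < g := lt_of_lt_of_le (lt_mul_of_one_lt_right' _ hb) h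
  have lxb : x * b < g := by
    refine lt_of_lt_of_le ?_ h
    rw [mul_assoc]; exact lt_mul_of_one_lt_left' _ ha
  have lab : a * b < g := by
    refine lt_of_lt_of_le ?_ h
    exact mul_lt_mul_left (lt_mul_of_one_lt_right' _ hx) _
  rcases spherical_cases hk hl hm hs with c | c | c | c | c | c | c | c | c | c | c | c
  · have := up ha c h1
    rw [pow_one] at this
    exact absurd (lt_of_lt_of_le (lt_mul_of_one_lt_right' a hx) (lax.le.trans this)) (lt_irrefl _)
  · have := up hx c h2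
    rw [pow_one] at this
    exact absurd (lt_of_lt_of_le (lt_mul_of_one_lt_left' x ha) (lax.le.trans this)) (lt_irrefl _)
  · have := up hb c h3
    rw [pow_one] at this
    exact absurd (lt_of_lt_of_le (lt_mul_of_one_lt_left' b hx) (lxb.le.trans this)) (lt_irrefl _)
  · exact sq_false lax (up ha c.1 h1) (up hx c.2 h2)
  · exact sq_false lab (up ha c.1 h1) (up hb c.2 h3)
  · exact sq_false lxb (up hx c.1 h2) (up hb c.2 h3)
  · -- `a` has exponent two
    have k1 : x * b ≤ a := by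
      have h4 := h.trans (up ha c.1 h1)
      rw [pow_two, mul_assoc] at h4
      exact le_of_mul_le_mul_left' h4
    have k2 : (x * b) ^ (0 + 2) ≤ g := by
      rw [zero_add, pow_two]
      refine (mul_le_mul_left k1 _).trans ?_
      rw [← mul_assoc]; exact h
    exact pair₁ (r := 0) hb k2 (up hx c.2.1 h2) (up hb c.2.2 h3)
  · have k1 : x * b ≤ a := by
      have h4 := h.trans (up ha c.1 h1)
      rw [pow_two, mul_assoc] at h4
      exact le_of_mul_le_mul_left' h4
    have k2 : (x * b) ^ (0 + 2) ≤ g := by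
      rw [zero_add, pow_two]
      refine (mul_le_mul_left k1 _).trans ?_
      rw [← mul_assoc]; exact h
    exact pair₂ (r := 0) hx k2 (up hx c.2.1 h2) (up hb c.2.2 h3)
  · exact mid₁ hb h (up ha c.1 h1) (up hx c.2.1 h2) (up hb c.2.2 h3)
  · exact mid₂ ha h (up ha c.1 h1) (up hx c.2.1 h2) (up hb c.2.2 h3)
  · have k1 : a * x ≤ b := by
      have h4 := h.trans (up hb c.2.2 h3)
      rw [pow_two] at h4
      exact le_of_mul_le_mul_right' h4
    have k2 : (a * x) ^ (0 + 2) ≤ g := by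
      rw [zero_add, pow_two]
      exact (mul_le_mul_right k1 _).trans h
    exact pair₁ (r := 0) hx k2 (up ha c.1 h1) (up hx c.2.1 h2)
  · have k1 : a * x ≤ b := by
      have h4 := h.trans (up hb c.2.2 h3)
      rw [pow_two] at h4
      exact le_of_mul_le_mul_right' h4
    have k2 : (a * x) ^ (0 + 2) ≤ g := by
      rw [zero_add, pow_two]
      exact (mul_le_mul_right k1 _).trans h
    exact pair₂ (r := 0) ha k2 (up ha c.1 h1) (up hx c.2.1 h2)

end Pool.Agent.Y479.LS
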