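import Pool.Agent.Y479.LS.Nested
import Pool.Agent.TH335.LS.Net

set_option autoImplicit false

/-!
# Strip diagrams with nested tangles

Generalises the starting file `EncircledAlternatingLinks` (crossings or positive rational tangles):
the crossings of an alternating diagram in a strip are replaced by nested tangles of both signs.
-/

namespace Pool.Agent.Y479.LS

open Relation Pool.Agent.TH335.LS

/-- One colour of the diagram in a strip. `g` is the region along the top (or bottom) side of the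
strip, `vL`, `vR` are the regions of this colour at the left and right side, `eg, eL, eR` are the
corresponding regions of the other colour. `star v` is the list of the corners of the region `v` as
they are met along its boundary (clockwise for the white regions, counterclockwise for the black
ones). -/
structure Colour {V E C : Type} (v₁ v₂ : C → V) (e₁ e₂ : C → E) (g vL vR : V) (eg eL eR : E)
    (star : V → List (C × Bool)) : Prop where
  mem : ∀ v k, k ∈ star v ↔ cAt v₁ v₂ k = v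
  nodup : ∀ v, (star v).Nodup
  inner : ∀ v, v ≠ g → v ≠ vL → v ≠ vR → ∃ a, Path e₁ e₂ a (star v) a
  ground : Path e₁ e₂ eR (star g) eL
  left : Path e₁ e₂ eL (star vL) eg
  right : Path e₁ e₂ eg (star vR) eR
  /-- the checkerboard graph is connected -/
  conn : ∀ v, ReflTransGen (Adj v₁ v₂) v g
  /-- no arc in the strip from top to bottom crosses only one strand -/
  link : ReflTransGen (fun a b => Adj v₁ v₂ a b ∧ a ≠ g ∧ b ≠ g) vL vR

/-- A checkerboard coloured alternating diagram in a strip with three strands at the left side and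
three strands at the right side; each crossing `c` stands for the nested tangle `Q c`. -/
structure Strip : Type 1 where
  /-- white regions -/
  W : Type
  /-- black regions -/
  B : Type
  /-- crossings -/
  C : Type
  finW : Finite W
  finB : Finite B
  /-- the corners of a crossing are `w₁, b₁, w₂, b₂`, in counterclockwise order -/
  w₁ : C → W
  b₁ : C → B
  w₂ : C → W
  b₂ : C → B
  /-- the tangles in place of the crossings -/
  Q : C → Term
  valid : ∀ c, (Q c).Valid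
  /-- the regions at the sides of the strip -/
  top : W
  bL : B
  wL : W
  bot : B
  bR : B
  wR : W
  starW : W → List (C × Bool)
  starB : B → List (C × Bool)
  white : Colour w₁ w₂ b₁ b₂ top wL wR bot bL bR starW
  black : Colour b₁ b₂ w₁ w₂ bot bL bR top wL wR starB

/-- the actions of two elements move a point in the same direction -/
def Dir {X H : Type*} [Group H] [CompleteLinearOrder X] (ρ : Act H X) (u v : H) (r : X) : Prop :=
  (ρ.f u r ≤ r ↔ ρ.f v r ≤ r) ∧ (r ≤ ρ.f u r ↔ r ≤ ρ.f v r)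

/-- One colour at one point. -/
theorem colour_ports {X : Type*} {H : Type*} [Group H] [CompleteLinearOrder X] (ρ : Act H X)
    {V E C : Type} [Finite V] {v₁ v₂ : C → V} {e₁ e₂ : C → E} {g vL vR : V} {eg eL eR : E}
    {star : V → List (C × Bool)} (hc : Colour v₁ v₂ e₁ e₂ g vL vR eg eL eR star)
    (ev : V → H) (ee : E → H) (r : X)
    (hs : ∀ k : C × Bool, Dir ρ ((ee (cOpp e₁ e₂ k))⁻¹ * ee (cAt e₁ e₂ k))
      ((ev (cAt v₁ v₂ k))⁻¹ * ev (cOpp v₁ v₂ k)) r) :
    (ρ.f (ev g) r ≤ ρ.f (ev vL) r → r ≤ ρ.f ((ee eL)⁻¹ * ee eg) r →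
      ρ.f (ev g) r ≤ ρ.f (ev vR) r) ∧
    (ρ.f (ev g) r ≤ ρ.f (ev vR) r → r ≤ ρ.f ((ee eg)⁻¹ * ee eR) r →
      ρ.f (ev g) r ≤ ρ.f (ev vL) r) ∧
    (ρ.f (ev vL) r ≤ ρ.f (ev g) r → ρ.f (ev vR) r ≤ ρ.f (ev g) r → ∀ n,
      ρ.f (ev n) r ≤ ρ.f (ev g) r) := by
  have net : Net ρ star (cOpp v₁ v₂)
      (fun k => (ee (cOpp e₁ e₂ k))⁻¹ * ee (cAt e₁ e₂ k)) (fun n => ρ.f (ev n) r) r := by
    refine ⟨fun n k hkn h => ?_, fun n k hkn h => ?_, fun n k hkn h => ?_⟩
    · have hat := (hc.mem n k).mp hkn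
      refine (hs k).1.mpr ?_
      rw [ρ.inv_mul_le, hat]; exact h
    · have hat := (hc.mem n k).mp hkn
      refine (hs k).2.mpr ?_
      rw [ρ.le_inv_mul, hat]; exact h
    · have hat := (hc.mem n k).mp hkn
      have h1 := le_antisymm ((hs k).1.mp h.le) ((hs k).2.mp h.ge)
      rw [ρ.inv_mul_eq, hat] at h1
      exact h1
  have hstep : ∀ a b, Adj v₁ v₂ a b → ∃ k ∈ star a, cOpp v₁ v₂ k = b := by
    rintro a b ⟨k, h1, h2⟩
    exact ⟨k, (hc.mem a k).mpr h1, h2⟩
  have conn : ∀ n, ReflTransGen (fun a b => ∃ k ∈ star a, cOpp v₁ v₂ k = b) n g :=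
    fun n => ReflTransGen.mono (fun a b h => hstep a b h) _ _ (hc.conn n)
  have inner : ∀ n, n ≠ g → n ≠ vL → n ≠ vR →
      ((star n).map fun k => (ee (cOpp e₁ e₂ k))⁻¹ * ee (cAt e₁ e₂ k)).prod = 1 := by
    intro n h1 h2 h3
    obtain ⟨a, ha⟩ := hc.inner n h1 h2 h3
    rw [path_prod ee _ _ _ ha, inv_mul_cancel]
  have adj_symm : ∀ a b, Adj v₁ v₂ a b → Adj v₁ v₂ b a := by
    rintro a b ⟨⟨c, s⟩, h1, h2⟩
    refine ⟨(c, !s), ?_, ?_⟩ <;> cases s <;> simp_all [cAt, cOpp]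
  refine ⟨fun h1 h2 => ?_, fun h1 h2 => ?_, fun h1 h2 n => ?_⟩
  · refine net.port (p := vL) (q := vR) ρ inner conn ?_ ?_ h1
    · exact ReflTransGen.mono (fun a b h => ⟨hstep a b h.1, h.2.2⟩) _ _ hc.link
    · rw [path_prod ee _ _ _ hc.left]; exact h2
  · refine net.port (p := vR) (q := vL) ρ (fun n h3 h4 h5 => inner n h3 h5 h4) conn ?_ ?_ h1
    · have h3 : ReflTransGen (fun a b => Adj v₁ v₂ a b ∧ a ≠ g ∧ b ≠ g) vR vL := by
        have h4 := ReflTransGen.swap _ _ hc.link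
        exact ReflTransGen.mono (fun a b h => ⟨adj_symm _ _ h.1, h.2.2, h.2.1⟩) _ _ h4
      exact ReflTransGen.mono (fun a b h => ⟨hstep a b h.1, h.2.2⟩) _ _ h3
    · rw [path_prod ee _ _ _ hc.right]; exact h2
  · exact net.le_ground ρ inner conn h1 h2 n

/-- If `t ^ a * t₁ ^ b = 1` then `t` and `t₁` do not both move a point up. -/
theorem no_common {X H : Type*} [Group H] [CompleteLinearOrder X] (ρ : Act H X) {t t₁ : H}
    {a b : ℕ} (hab : (a, b) ≠ (0, 0)) (ht : t ^ a * t₁ ^ b = 1) {r : X}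
    (h1 : r < ρ.f t r) (h2 : r < ρ.f t₁ r) : False := by
  have h3 : ρ.f (t ^ a) (ρ.f (t₁ ^ b) r) = r := by rw [← ρ.mul, ht, ρ.one]
  rcases Nat.eq_zero_or_pos b with rfl | hb
  · rcases Nat.eq_zero_or_pos a with rfl | ha
    · exact hab rfl
    · have h4 := ρ.lt_pow h1 ha
      rw [pow_zero, ρ.one] at h3
      exact absurd h3 (ne_of_gt h4)
  · have h4 := ρ.lt_pow h2 hb
    have h5 : r ≤ ρ.f (t ^ a) r := ρ.le_pow h1.le a
    exact absurd h3 (ne_of_gt (lt_of_le_of_lt h5 ((ρ.f (t ^ a)).lt_iff_lt.mpr h4)))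

/-- The pointwise statements, from the relations in a group acting on a complete linear order. -/
theorem sys_of_strip {X H : Type*} [Group H] [CompleteLinearOrder X] (ρ : Act H X)
    (D : Strip) (a b : ℕ) (hab : (a, b) ≠ (0, 0)) (W : D.W → H) (B : D.B → H) (m : H)
    (sW : ∀ r (k : D.C × Bool), Dir ρ ((B (cOpp D.b₁ D.b₂ k))⁻¹ * B (cAt D.b₁ D.b₂ k))
      ((W (cAt D.w₁ D.w₂ k))⁻¹ * W (cOpp D.w₁ D.w₂ k)) r)
    (sB : ∀ r (k : D.C × Bool), Dir ρ ((W (cOpp D.w₁ D.w₂ k))⁻¹ * W (cAt D.w₁ D.w₂ k))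
      ((B (cAt D.b₁ D.b₂ k))⁻¹ * B (cOpp D.b₁ D.b₂ k)) r)
    (hx : m * ((W D.top)⁻¹ * W D.wL) * m⁻¹ * ((W D.top)⁻¹ * W D.wR) = 1)
    (hy : m * ((B D.bL)⁻¹ * B D.bot) * m⁻¹ * ((B D.bR)⁻¹ * B D.bot) = 1)
    (ht : (((B D.bR)⁻¹ * B D.bot)⁻¹ * ((W D.top)⁻¹ * W D.wR) * m) ^ a *
      (((W D.top)⁻¹ * W D.wR) * ((B D.bR)⁻¹ * B D.bot)⁻¹ * m) ^ b = 1) (r : X) :
    ρ.f m r = r ∧ (∀ n, ρ.f (W n) r = ρ.f (W D.top) r) ∧
      (∀ n, ρ.f (B n) r = ρ.f (B D.bot) r) := by
  have := D.finW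
  have := D.finB
  have cW := fun r => colour_ports ρ D.white W B r (sW r)
  have cB := fun r => colour_ports ρ D.black B W r (sB r)
  have cW' := fun r => colour_ports ρ.dual D.white W B r (fun k => ⟨(sW r k).2, (sW r k).1⟩)
  have cB' := fun r => colour_ports ρ.dual D.black B W r (fun k => ⟨(sB r k).2, (sB r k).1⟩)
  set xL := (W D.top)⁻¹ * W D.wL with hxL
  set yL := (B D.bL)⁻¹ * B D.bot with hyL
  set xR := (W D.top)⁻¹ * W D.wR with hxR
  set yR := (B D.bR)⁻¹ * B D.bot with hyR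
  set t := yR⁻¹ * xR * m with htt
  set t₁ := xR * yR⁻¹ * m with htt1
  -- reformulations
  have eW1 : (W D.wL)⁻¹ * W D.top = xL⁻¹ := by rw [hxL]; group
  have eW2 : (B D.bot)⁻¹ * B D.bR = yR⁻¹ := by rw [hyR]; group
  have hmx : xR * (m * xL) = m := by
    have h2 : m * xL * m⁻¹ = xR⁻¹ := mul_eq_one_iff_eq_inv.mp hx
    have h3 : m * xL = xR⁻¹ * m := by rw [← h2]; group
    rw [h3]; group
  have hmy : yR * (m * yL) = m := by
    have h2 : m * yL * m⁻¹ = yR⁻¹ := mul_eq_one_iff_eq_inv.mp hy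
    have h3 : m * yL = yR⁻¹ * m := by rw [← h2]; group
    rw [h3]; group
  have sys : Sys (ρ.f xL) (ρ.f yL) (ρ.f xR) (ρ.f yR) (ρ.f m) (ρ.f t) (ρ.f t₁) := by
    refine ⟨?_, ?_, ?_, ?_, ?_, ?_, ?_, ?_, ?_, ?_⟩
    · intro r
      rw [← ρ.mul, ← ρ.mul, mul_assoc, hmx]
    · intro r
      rw [← ρ.mul, ← ρ.mul, mul_assoc, hmy]
    · intro r h1 h2
      constructor
      · exact (ρ.le_inv_mul _ _ _).mpr ((cW r).1 ((ρ.le_inv_mul _ _ _).mp h1) h2)
      · refine (ρ.le_inv_mul _ _ _).mpr ((cB' r).1 ((ρ.le_inv_mul _ _ _).mp h2) ?_)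
        show ρ.f ((W D.wL)⁻¹ * W D.top) r ≤ r
        rw [eW1, ρ.inv_le]; exact h1
    · intro r h1 h2
      constructor
      · exact (ρ.inv_mul_le _ _ _).mpr ((cW' r).1 ((ρ.inv_mul_le _ _ _).mp h1) h2)
      · refine (ρ.inv_mul_le _ _ _).mpr ((cB r).1 ((ρ.inv_mul_le _ _ _).mp h2) ?_)
        rw [eW1, ρ.le_inv]; exact h1
    · intro r h1 h2
      constructor
      · refine (ρ.le_inv_mul _ _ _).mpr ((cW r).2.1 ((ρ.le_inv_mul _ _ _).mp h1) ?_)
        rw [eW2, ρ.le_inv]; exact h2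
      · exact (ρ.inv_mul_le _ _ _).mpr ((cB r).2.1 ((ρ.inv_mul_le _ _ _).mp h2) h1)
    · intro r h1 h2
      constructor
      · refine (ρ.inv_mul_le _ _ _).mpr ((cW' r).2.1 ((ρ.inv_mul_le _ _ _).mp h1) ?_)
        show ρ.f ((B D.bot)⁻¹ * B D.bR) r ≤ r
        rw [eW2, ρ.inv_le]; exact h2
      · exact (ρ.le_inv_mul _ _ _).mpr ((cB' r).2.1 ((ρ.le_inv_mul _ _ _).mp h2) h1)
    · intro r
      rw [← ρ.mul, ← ρ.mul]
      congr 2
      rw [htt]; group
    · intro r s hs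
      rw [htt1, ρ.mul, ρ.mul, ← hs, ρ.inv_self]
    · exact fun r h => no_common ρ hab ht h.1 h.2
    · exact fun r h => no_common ρ.dual hab ht (r := r) h.1 h.2
  have triv : ∀ r, ρ.f xL r = r ∧ ρ.f yL r = r ∧ ρ.f m r = r := sys.trivial
  obtain ⟨t1, t2, t3⟩ := triv r
  have t4 : ρ.f xR r = r := by
    have h1 := sys.rx r
    rwa [t1, t3] at h1
  have t5 : ρ.f yR r = r := by
    have h1 := sys.ry r
    rwa [t2, t3] at h1
  rw [hxL, ρ.inv_mul_eq] at t1
  rw [hyL, ρ.inv_mul_eq] at t2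
  rw [hxR, ρ.inv_mul_eq] at t4
  rw [hyR, ρ.inv_mul_eq] at t5
  refine ⟨t3, fun n => le_antisymm ?_ ?_, fun n => le_antisymm ?_ ?_⟩
  · exact (cW r).2.2 t1.le t4.le n
  · exact (cW' r).2.2 t1.ge t4.ge n
  · exact (cB r).2.2 t2.ge t5.ge n
  · exact (cB' r).2.2 t2.le t5.le n

namespace Strip

variable (D : Strip)

/-- Generators: the regions, the stable letter, the inner regions of the tangles. -/
abbrev Gen : Type := (D.W ⊕ D.B) ⊕ (Unit ⊕ (Σ c, (D.Q c).Gen))

/-- the generator of a white region -/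
def w (v : D.W) : FreeGroup D.Gen := FreeGroup.of (Sum.inl (Sum.inl v))

/-- the generator of a black region -/
def b (v : D.B) : FreeGroup D.Gen := FreeGroup.of (Sum.inl (Sum.inr v))

/-- the stable letter -/
def m : FreeGroup D.Gen := FreeGroup.of (Sum.inr (Sum.inl ()))

/-- the generator of an inner region of the tangle at `c` -/
def i (c : D.C) (g : (D.Q c).Gen) : FreeGroup D.Gen := FreeGroup.of (Sum.inr (Sum.inr ⟨c, g⟩))

def xL : FreeGroup D.Gen := (D.w D.top)⁻¹ * D.w D.wL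
def yL : FreeGroup D.Gen := (D.b D.bL)⁻¹ * D.b D.bot
def xR : FreeGroup D.Gen := (D.w D.top)⁻¹ * D.w D.wR
def yR : FreeGroup D.Gen := (D.b D.bR)⁻¹ * D.b D.bot

/-- the two peripheral elements -/
def t : FreeGroup D.Gen := D.yR⁻¹ * D.xR * D.m
def t₁ : FreeGroup D.Gen := D.xR * D.yR⁻¹ * D.m

/-- The relators of the fundamental group of `Y(a, b)`. -/
def relators (a b : ℕ) : Set (FreeGroup D.Gen) :=
  {r | r = D.w D.top ∨ r = D.b D.bot ∨
    (∃ c, r ∈ Term.rel (D.Q c) (D.i c) (D.w (D.w₁ c)) (D.w (D.w₂ c)) (D.b (D.b₂ c))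
      (D.b (D.b₁ c))) ∨
    r = D.m * D.xL * D.m⁻¹ * D.xR ∨ r = D.m * D.yL * D.m⁻¹ * D.yR ∨
    r = D.t ^ a * D.t₁ ^ b}

/-- The fundamental group of `Y(a, b)`. -/
abbrev Grp (a b : ℕ) : Type := PresentedGroup (D.relators a b)

/-- Every action of the group on a complete linear order is trivial. -/
theorem act_trivial (a b : ℕ) (hab : (a, b) ≠ (0, 0)) (X : Type) [CompleteLinearOrder X]
    (φ : D.Grp a b →* Aut X) (γ : D.Grp a b) (x : X) : φ γ x = x := by
  set ψ : FreeGroup D.Gen →* Aut X := φ.comp (PresentedGroup.mk (D.relators a b)) with hψ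
  have rel : ∀ r ∈ D.relators a b, ψ r = 1 := by
    intro r hr
    rw [hψ, MonoidHom.comp_apply, PresentedGroup.one_of_mem hr, map_one]
  have hQ : ∀ c, ∀ r ∈ Term.rel (D.Q c) (fun g => ψ (D.i c g)) (ψ (D.w (D.w₁ c)))
      (ψ (D.w (D.w₂ c))) (ψ (D.b (D.b₂ c))) (ψ (D.b (D.b₁ c))), r = 1 := by
    intro c r hr
    obtain ⟨r₀, h1, rfl⟩ := Term.exists_rel ψ (D.Q c) _ _ _ _ _ r hr
    exact rel _ (Or.inr (Or.inr (Or.inl ⟨c, h1⟩)))
  have hsame : ∀ c, Same ((ψ (D.b (D.b₂ c)))⁻¹ * ψ (D.b (D.b₁ c)))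
      ((ψ (D.w (D.w₁ c)))⁻¹ * ψ (D.w (D.w₂ c))) := fun c =>
    (Term.main (D.Q c) _ _ _ _ _ (hQ c) (D.valid c)).1
  let ρ : Act (Aut X) X := ⟨fun g => g, fun _ => rfl, fun _ _ _ => rfl⟩
  have h0 := sys_of_strip ρ D a b hab (fun v => ψ (D.w v)) (fun v => ψ (D.b v)) (ψ D.m)
    (fun r k => by
      obtain ⟨c, σ⟩ := k
      cases σ
      · exact hsame c r
      · have h1 := (hsame c).inv
        simp only [mul_inv_rev, inv_inv] at h1
        exact h1 r)
    (fun r k => by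
      obtain ⟨c, σ⟩ := k
      cases σ
      · have h1 := (hsame c).symm.inv
        simp only [mul_inv_rev, inv_inv] at h1
        exact h1 r
      · exact (hsame c).symm r)
    (by
      have h1 := rel _ (Or.inr (Or.inr (Or.inr (Or.inl rfl))))
      simpa only [xL, xR, map_mul, map_inv] using h1)
    (by
      have h1 := rel _ (Or.inr (Or.inr (Or.inr (Or.inr (Or.inl rfl)))))
      simpa only [yL, yR, map_mul, map_inv] using h1)
    (by
      have h1 := rel _ (Or.inr (Or.inr (Or.inr (Or.inr (Or.inr rfl)))))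
      simpa only [t, t₁, xR, yR, map_mul, map_inv, map_pow] using h1)
  have hw0 : ψ (D.w D.top) = 1 := rel _ (Or.inl rfl)
  have hb0 : ψ (D.b D.bot) = 1 := rel _ (Or.inr (Or.inl rfl))
  have fw : ∀ v, ψ (D.w v) x = x := by
    intro v
    have h1 : ψ (D.w v) x = ψ (D.w D.top) x := (h0 x).2.1 v
    rw [h1, hw0, Aut.one_apply]
  have fb : ∀ v, ψ (D.b v) x = x := by
    intro v
    have h1 : ψ (D.b v) x = ψ (D.b D.bot) x := (h0 x).2.2 v
    rw [h1, hb0, Aut.one_apply]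
  have fm : ψ D.m x = x := (h0 x).1
  have fi : ∀ c g, ψ (D.i c g) x = x := fun c g =>
    Term.fix x (D.Q c) _ _ _ _ _ (hQ c) (D.valid c) (fw _) (fw _) (fb _) (fb _) g
  have hmem : γ ∈ Subgroup.closure (Set.range (PresentedGroup.of (rels := D.relators a b))) := by
    rw [PresentedGroup.closure_range_of]; trivial
  induction hmem using Subgroup.closure_induction with
  | mem y hy =>
    obtain ⟨((v | v) | (u | ⟨c, g⟩)), rfl⟩ := hy
    · exact fw v
    · exact fb v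
    · exact fm
    · exact fi c g
  | one => rw [map_one, Aut.one_apply]
  | mul y z _ _ h5 h6 => rw [map_mul, Aut.mul_apply, h6, h5]
  | inv y _ h5 => rw [map_inv, ← Aut.inj (φ y), Aut.self_inv, h5]

open Pool.Agent.W705.Borr in
theorem hom_trivial (a b : ℕ) (hab : (a, b) ≠ (0, 0)) (H : Type) [Group H]
    (hH : LeftOrderable H) (f : D.Grp a b →* H) (γ : D.Grp a b) : f γ = 1 := by
  classical
  obtain ⟨_, lt, hlt, hinv⟩ := hH
  let _ : LinearOrder H := linearOrderOfSTO lt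
  have hinv' : ∀ a b c : H, a ≤ b ↔ c * a ≤ c * b := by
    intro a b c
    show (a = b ∨ lt a b) ↔ (c * a = c * b ∨ lt (c * a) (c * b))
    rw [mul_right_inj, ← hinv]
  let ρ : H →* Aut (LowerSet H) :=
    { toFun := act hinv'
      map_one' := Aut.ext' (act_one hinv')
      map_mul' := fun a b => Aut.ext' (act_mul hinv' a b) }
  refine eq_one_of_act hinv' _ fun r => ?_
  exact D.act_trivial a b hab (LowerSet H) (ρ.comp f) γ r

end Strip

/-- Example: two crossings. If both tangles are crossings, then `Y` is the sister of the exterior of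
the figure eight knot. Regions `0, 1, 2` are `top, wL, wR` and `bot, bL, bR`. -/
def twoCrossings (Q : Fin 2 → Term) (hQ : ∀ c, (Q c).Valid) : Strip where
  W := Fin 3
  B := Fin 3
  C := Fin 2
  finW := inferInstance
  finB := inferInstance
  w₁ := ![1, 2]
  b₁ := ![0, 2]
  w₂ := ![2, 0]
  b₂ := ![1, 1]
  Q := Q
  valid := hQ
  top := 0
  bL := 1
  wL := 1
  bot := 0
  bR := 2
  wR := 2
  starW := ![[(1, true)], [(0, false)], [(0, true), (1, false)]]
  starB := ![[(0, false)], [(0, true), (1, true)], [(1, false)]]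
  white := by
    refine ⟨by decide, by decide, fun v h0 h1 h2 => absurd v.isLt (by omega), ⟨rfl, rfl⟩,
      ⟨rfl, rfl⟩, ⟨rfl, rfl, rfl⟩, ?_, ?_⟩
    · have h20 : Adj (![1, 2] : Fin 2 → Fin 3) ![2, 0] 2 0 := ⟨(1, false), rfl, rfl⟩
      have h12 : Adj (![1, 2] : Fin 2 → Fin 3) ![2, 0] 1 2 := ⟨(0, false), rfl, rfl⟩
      intro v
      fin_cases v
      · exact ReflTransGen.refl
      · exact ReflTransGen.head h12 (ReflTransGen.single h20)
      · exact ReflTransGen.single h20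
    · exact ReflTransGen.single ⟨⟨(0, false), rfl, rfl⟩, by decide, by decide⟩
  black := by
    refine ⟨by decide, by decide, fun v h0 h1 h2 => absurd v.isLt (by omega), ⟨rfl, rfl⟩,
      ⟨rfl, rfl, rfl⟩, ⟨rfl, rfl⟩, ?_, ?_⟩
    · have h21 : Adj (![0, 2] : Fin 2 → Fin 3) ![1, 1] 2 1 := ⟨(1, false), rfl, rfl⟩
      have h10 : Adj (![0, 2] : Fin 2 → Fin 3) ![1, 1] 1 0 := ⟨(0, true), rfl, rfl⟩
      intro v
      fin_cases v
      · exact ReflTransGen.refl
      · exact ReflTransGen.single h10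
      · exact ReflTransGen.head h21 (ReflTransGen.single h10)
    · exact ReflTransGen.single ⟨⟨(1, true), rfl, rfl⟩, by decide, by decide⟩

end Pool.Agent.Y479.LS
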