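import Pool.Agent.Y479.LS.Sph

set_option autoImplicit false

/-!
# Sums of alternating tangles, closed with a tangle of the opposite sign

`T 0, ..., T k` and `T'` are alternating tangle diagrams; `T 0, ..., T k` and `n` more crossings of the
same sign are put below each other, so that all of them are adjacent to the same white regions `west`
and `east` (the sum `T 0 + ... + T k + n`), and the sum is closed with the mirror image of `T'`.
-/

namespace Pool.Agent.Y479.LS.Sum

open Pool.Agent.Y479.LS

section defs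

variable {k : ℕ} (T : Fin (k + 1) → Tangle) (T' : Tangle)

/-- Generators: the regions of all tangles. -/
abbrev Gen : Type := (Σ i : Fin (k + 1), (T i).W ⊕ (T i).B) ⊕ (T'.W ⊕ T'.B)

/-- the generator of a white region of `T i` -/
def w (i : Fin (k + 1)) (v : (T i).W) : FreeGroup (Gen T T') :=
  FreeGroup.of (Sum.inl ⟨i, Sum.inl v⟩)
/-- the generator of a black region of `T i` -/
def b (i : Fin (k + 1)) (v : (T i).B) : FreeGroup (Gen T T') :=
  FreeGroup.of (Sum.inl ⟨i, Sum.inr v⟩)
/-- the generator of a white region of `T'` -/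
def w' (v : T'.W) : FreeGroup (Gen T T') := FreeGroup.of (Sum.inr (Sum.inl v))
/-- the generator of a black region of `T'` -/
def b' (v : T'.B) : FreeGroup (Gen T T') := FreeGroup.of (Sum.inr (Sum.inr v))

/-- Relators: crossings of `T i` and of `T'`; the regions `west` and `east` are common to all tangles;
the black regions between consecutive summands; the `n` extra crossings between the last summand and
`south`; base regions. -/
def relators (n : ℕ) : Set (FreeGroup (Gen T T')) :=
  {r | (∃ i c, r = (b T T' i ((T i).b₂ c))⁻¹ * b T T' i ((T i).b₁ c) *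
      ((w T T' i ((T i).w₁ c))⁻¹ * w T T' i ((T i).w₂ c))⁻¹) ∨
    (∃ c, r = (b' T T' (T'.b₂ c))⁻¹ * b' T T' (T'.b₁ c) *
      ((w' T T' (T'.w₁ c))⁻¹ * w' T T' (T'.w₂ c))⁻¹) ∨
    (∃ i, r = w T T' i (T i).west * (w' T T' T'.west)⁻¹) ∨
    (∃ i, r = w T T' i (T i).east * (w' T T' T'.east)⁻¹) ∨
    r = b T T' 0 (T 0).north * (b' T T' T'.north)⁻¹ ∨
    (∃ i : Fin k, r = b T T' i.castSucc (T i.castSucc).south *
      (b T T' i.succ (T i.succ).north)⁻¹) ∨
    r = (b T T' (Fin.last k) (T (Fin.last k)).south *
      ((w' T T' T'.west)⁻¹ * w' T T' T'.east) ^ n) * (b' T T' T'.south)⁻¹ ∨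
    r = w' T T' T'.west ∨ r = b' T T' T'.north}

/-- The fundamental group of the double branched cover of the closure of
`T 0 + ... + T k + n - T'`. -/
abbrev Grp (n : ℕ) : Type := PresentedGroup (relators T T' n)

end defs

section positive

variable {k : ℕ} {T : Fin (k + 1) → Tangle} {T' : Tangle} {n : ℕ}

/-- A solution of the inequalities: voltage `g`, currents `A i` in the summands, total current `S`
(without the extra crossings). -/
structure Data (T : Fin (k + 1) → Tangle) (T' : Tangle) (n : ℕ) {P : Type*} [Group P]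
    [PartialOrder P] (g S : P) (A : Fin (k + 1) → P) : Prop where
  one_lt : 1 < g
  cur : ∀ i, 1 < A i
  volt : ∀ i (d : ℕ), Walk (T i).w₁ (T i).w₂ d (T i).west (T i).east → g ≤ A i ^ d
  le : ∀ i, A i ≤ S
  pair : ∀ i j, i < j → A i * A j ≤ S
  triple : ∀ i j l, i < j → j < l → A i * A j * A l ≤ S
  walk : ∀ d : ℕ, Walk T'.b₁ T'.b₂ d T'.north T'.south → S * g ^ n ≤ g ^ d
  series : (S * g ^ n) ^ facing T'.b₁ T'.b₂ (T'.starB T'.north) T'.south ≤ g

theorem data {X : Type*} [LinearOrder X] [Nonempty X]
    {w : ∀ i, (T i).W → Aut X} {b : ∀ i, (T i).B → Aut X} {w' : T'.W → Aut X} {b' : T'.B → Aut X}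
    (h : ∀ i, (T i).Rep (w i) (b i)) (h' : T'.Rep w' b') (hw' : w' T'.west = 1)
    (hb' : b' T'.north = 1) (hw : ∀ i, w i (T i).west = w' T'.west)
    (he : ∀ i, w i (T i).east = w' T'.east) (h0 : b 0 (T 0).north = b' T'.north)
    (hi : ∀ i : Fin k, b i.castSucc (T i.castSucc).south = b i.succ (T i.succ).north)
    (hl : b (Fin.last k) (T (Fin.last k)).south * ((w' T'.west)⁻¹ * w' T'.east) ^ n =
      b' T'.south)
    (hpos : ∀ x, x < w' T'.east x) :
    ∃ (g S : Aut X) (A : Fin (k + 1) → Aut X), Data T T' n g S A := by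
  obtain ⟨B3, B4, -⟩ := Tangle.bounds h' hw' hb' hpos
  set g := w' T'.east with hg
  set N : Fin (k + 1) → Aut X := fun i => b i (T i).north with hN
  set S : Fin (k + 1) → Aut X := fun i => b i (T i).south with hS
  set A : Fin (k + 1) → Aut X := fun i => (N i)⁻¹ * S i with hA
  have hrep : ∀ i, (T i).Rep (w i) (fun v => (N i)⁻¹ * b i v) := by
    intro i c
    rw [← h i c]; group
  have hbd : ∀ i, Bounds (w i) (T i).west (T i).east ∧
      Bounds (fun v => (N i)⁻¹ * b i v) (T i).north (T i).south := by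
    intro i
    obtain ⟨h1, h2, -⟩ := Tangle.bounds (hrep i) ((hw i).trans hw') (inv_mul_cancel _)
      (by rw [he i]; exact hpos)
    exact ⟨h1, h2⟩
  have hA1 : ∀ i, 1 < A i := fun i => (hbd i).2.pos _ (T i).black.ne.symm
  have hvolt : ∀ i (d : ℕ), Walk (T i).w₁ (T i).w₂ d (T i).west (T i).east → g ≤ A i ^ d := by
    intro i d hd
    have := ((T i).white.voltage_le (hrep i).white (hbd i).2 (hbd i).1 hd).1
    rwa [he i] at this
  have hNS : ∀ i, N i ≤ S i := by
    intro i
    have := mul_le_mul_right (hA1 i).le (N i)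
    rwa [mul_one, hA, mul_inv_cancel_left] at this
  have hstack : ∀ j, 1 ≤ N j ∧ ∀ i, i < j → S i ≤ N j := by
    intro j
    induction j using Fin.induction with
    | zero =>
      refine ⟨?_, fun i hi => absurd hi (Fin.not_lt_zero i)⟩
      exact le_of_eq (h0.trans hb').symm
    | succ j ih =>
      have e1 : N j.succ = S j.castSucc := (hi j).symm
      rw [e1]
      refine ⟨ih.1.trans (hNS _), fun i hij => ?_⟩
      rcases (Fin.le_castSucc_iff.mpr hij).lt_or_eq with h1 | h1
      · exact (ih.2 i h1).trans (hNS _)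
      · rw [h1]
  have hlast : ∀ l, S l ≤ S (Fin.last k) := by
    intro l
    rcases (Fin.le_last l).lt_or_eq with h1 | h1
    · exact ((hstack _).2 l h1).trans (hNS _)
    · rw [h1]
  have hAS : ∀ i, A i ≤ S i := fun i =>
    mul_le_of_le_one_left' (inv_le_one'.mpr (hstack i).1)
  have hAA : ∀ i j, i < j → A j ≤ (S i)⁻¹ * S j := fun i j hij =>
    mul_le_mul_left (inv_le_inv_iff.mpr ((hstack j).2 i hij)) _
  have hpair : ∀ i j, i < j → A i * A j ≤ S j := by
    intro i j hij
    calc A i * A j ≤ S i * ((S i)⁻¹ * S j) := mul_le_mul' (hAS i) (hAA i j hij)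
      _ = S j := mul_inv_cancel_left _ _
  rw [hw', inv_one, one_mul] at hl
  refine ⟨g, S (Fin.last k), A, B3.pos _ T'.white.ne.symm, hA1, hvolt,
    fun i => (hAS i).trans (hlast i), fun i j hij => (hpair i j hij).trans (hlast j),
    fun i j l hij hjl => ?_, fun d hd => ?_, ?_⟩
  · calc A i * A j * A l ≤ S j * ((S j)⁻¹ * S l) := mul_le_mul' (hpair i j hij) (hAA j l hjl)
      _ = S l := mul_inv_cancel_left _ _
      _ ≤ S (Fin.last k) := hlast l
  · have k1 := (T'.black.voltage_le h'.black B3 B4 hd).1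
    rwa [← hl] at k1
  · have k1 := (T'.black.current_ge h'.black B4 B3).1
    rwa [← hl] at k1

end positive

section rels

variable {k : ℕ} {T : Fin (k + 1) → Tangle} {T' : Tangle} {n : ℕ}

theorem mk_eq_one {r : FreeGroup (Gen T T')} (h : r ∈ relators T T' n) :
    (PresentedGroup.mk (relators T T' n) r : Grp T T' n) = 1 := PresentedGroup.one_of_mem h

/-- the images of the generators -/
def W (i : Fin (k + 1)) (v : (T i).W) : Grp T T' n := PresentedGroup.mk _ (w T T' i v)
def B (i : Fin (k + 1)) (v : (T i).B) : Grp T T' n := PresentedGroup.mk _ (b T T' i v)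
def W' (v : T'.W) : Grp T T' n := PresentedGroup.mk _ (w' T T' v)
def B' (v : T'.B) : Grp T T' n := PresentedGroup.mk _ (b' T T' v)

theorem rep (i : Fin (k + 1)) : (T i).Rep (W (T' := T') (n := n) i) (B i) := by
  intro c
  have := mk_eq_one (T := T) (T' := T') (n := n) (Or.inl ⟨i, c, rfl⟩)
  rw [map_mul, map_inv, mul_inv_eq_one] at this
  simp only [map_mul, map_inv] at this
  exact this

theorem rep' : T'.Rep (W' (T := T) (n := n)) B' := by
  intro c
  have := mk_eq_one (T := T) (T' := T') (n := n) (Or.inr (Or.inl ⟨c, rfl⟩))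
  rw [map_mul, map_inv, mul_inv_eq_one] at this
  simp only [map_mul, map_inv] at this
  exact this

theorem west_eq (i : Fin (k + 1)) : W (T' := T') (n := n) i (T i).west = W' T'.west := by
  have := mk_eq_one (T := T) (T' := T') (n := n) (Or.inr (Or.inr (Or.inl ⟨i, rfl⟩)))
  rwa [map_mul, map_inv, mul_inv_eq_one] at this

theorem east_eq (i : Fin (k + 1)) : W (T' := T') (n := n) i (T i).east = W' T'.east := by
  have := mk_eq_one (T := T) (T' := T') (n := n) (Or.inr (Or.inr (Or.inr (Or.inl ⟨i, rfl⟩))))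
  rwa [map_mul, map_inv, mul_inv_eq_one] at this

theorem north_eq : B (T' := T') (n := n) 0 (T 0).north = B' T'.north := by
  have := mk_eq_one (T := T) (T' := T') (n := n) (Or.inr (Or.inr (Or.inr (Or.inr (Or.inl rfl)))))
  rwa [map_mul, map_inv, mul_inv_eq_one] at this

theorem stack_eq (i : Fin k) : B (T' := T') (n := n) i.castSucc (T i.castSucc).south =
    B i.succ (T i.succ).north := by
  have := mk_eq_one (T := T) (T' := T') (n := n)
    (Or.inr (Or.inr (Or.inr (Or.inr (Or.inr (Or.inl ⟨i, rfl⟩))))))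
  rwa [map_mul, map_inv, mul_inv_eq_one] at this

theorem south_eq : B (T' := T') (n := n) (Fin.last k) (T (Fin.last k)).south *
    ((W' T'.west)⁻¹ * W' T'.east) ^ n = B' T'.south := by
  have := mk_eq_one (T := T) (T' := T') (n := n)
    (Or.inr (Or.inr (Or.inr (Or.inr (Or.inr (Or.inr (Or.inl rfl)))))))
  rw [map_mul, map_inv, mul_inv_eq_one] at this
  simp only [map_mul, map_inv, map_pow] at this
  exact this

theorem west_one : W' (T := T) (n := n) T'.west = 1 :=
  mk_eq_one (T := T) (T' := T') (n := n)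
    (Or.inr (Or.inr (Or.inr (Or.inr (Or.inr (Or.inr (Or.inr (Or.inl rfl))))))))

theorem north_one : B' (T := T) (n := n) T'.north = 1 :=
  mk_eq_one (T := T) (T' := T') (n := n)
    (Or.inr (Or.inr (Or.inr (Or.inr (Or.inr (Or.inr (Or.inr (Or.inr rfl))))))))

theorem fix_all {X : Type*} [LinearOrder X] (φ : Grp T T' n →* Aut X) (x : X)
    (hx : φ (W' T'.east) x = x) (γ : Grp T T' n) : φ γ x = x := by
  have e3 : φ (W' T'.west) x = x := by rw [west_one, map_one, Aut.one_apply]
  have e5 : φ (B' T'.north) x = x := by rw [north_one, map_one, Aut.one_apply]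
  obtain ⟨h3, h4⟩ := Tangle.fix (rep'.map φ) (x := x) (e3.trans hx.symm)
  have e1 : ∀ i, φ (W i (T i).west) x = x := fun i => by rw [west_eq]; exact e3
  have e2 : ∀ i, φ (W i (T i).east) x = x := fun i => by rw [east_eq]; exact hx
  have hh : ∀ i, (∀ v, φ (W i v) x = φ (W i (T i).west) x) ∧
      ∀ v, φ (B i v) x = φ (B i (T i).north) x := fun i =>
    Tangle.fix ((rep i).map φ) (x := x) ((e1 i).trans (e2 i).symm)
  have e6 : ∀ i, φ (B i (T i).north) x = x := by
    intro i
    induction i using Fin.induction with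
    | zero => rw [north_eq]; exact e5
    | succ i ih => rw [← stack_eq, (hh i.castSucc).2, ih]
  have hmem : γ ∈ Subgroup.closure (Set.range (PresentedGroup.of (rels := relators T T' n))) := by
    rw [PresentedGroup.closure_range_of]; trivial
  induction hmem using Subgroup.closure_induction with
  | mem y hy =>
    obtain ⟨⟨i, (v | v)⟩ | (v | v), rfl⟩ := hy
    · exact ((hh i).1 v).trans (e1 i)
    · exact ((hh i).2 v).trans (e6 i)
    · exact (h3 v).trans e3
    · exact (h4 v).trans e5
  | one => rw [map_one, Aut.one_apply]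
  | mul y z _ _ h5 h6 => rw [map_mul, Aut.mul_apply, h6, h5]
  | inv y _ h5 => rw [map_inv, ← Aut.inj (φ y), Aut.self_inv, h5]

/-- If the inequalities have no solution then the group is not left-orderable, and has no nontrivial
homomorphism to a left-orderable group. -/
theorem not_leftOrderable (hno : ∀ (X : Type) [LinearOrder X] [Nonempty X] (g S : Aut X)
    (A : Fin (k + 1) → Aut X), ¬ Data T T' n g S A) :
    (∀ (H : Type) [Group H], LeftOrderable H → ∀ (f : Grp T T' n →* H) (γ : Grp T T' n),
      f γ = 1) ∧ ¬ LeftOrderable (Grp T T' n) := by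
  have key : ∀ (H : Type) [Group H], LeftOrderable H → ∀ (f : Grp T T' n →* H)
      (γ : Grp T T' n), f γ = 1 := by
    intro H _ hH f γ
    refine hom_trivial (W' T'.east) (fun X _ φ x hx γ => fix_all φ x hx γ)
      (fun X _ _ φ hpos => ?_) H hH f γ
    obtain ⟨g, S, A, hd⟩ := data (fun i => (rep i).map φ) (rep'.map φ) (n := n)
      (by rw [west_one, map_one]) (by rw [north_one, map_one]) (fun i => by rw [west_eq])
      (fun i => by rw [east_eq]) (by rw [north_eq]) (fun i => by rw [stack_eq])
      (by rw [← south_eq]; simp only [map_mul, map_inv, map_pow]) hpos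
    exact hno X g S A hd
  refine ⟨key, fun hG => ?_⟩
  obtain ⟨x, y, hxy⟩ := hG.1
  have h1 := key _ hG (MonoidHom.id _) x
  have h2 := key _ hG (MonoidHom.id _) y
  simp only [MonoidHom.id_apply] at h1 h2
  exact hxy (by rw [h1, h2])

end rels

end Pool.Agent.Y479.LS.Sum
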