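import Pool.Agent.Y479.LS.Aut

set_option autoImplicit false

/-!
# Alternating tangle diagrams and their group relations

A tangle diagram in a disc, whose boundary circle meets the regions `west` (white), `north` (black),
`east` (white), `south` (black), in this clockwise order. The diagram is alternating: at every
crossing the corners are `w₁, b₁, w₂, b₂` in counterclockwise order and the overpass separates
`w₁, b₁` from `w₂, b₂`.
-/

namespace Pool.Agent.Y479.LS

open Relation Aut

/-- The corner `(c, false)` of a colour is the first corner of that colour at the crossing `c`, the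
corner `(c, true)` is the second one. `cAt v₁ v₂ k` is the region at the corner `k`. -/
def cAt {V C : Type} (v₁ v₂ : C → V) (k : C × Bool) : V := if k.2 then v₂ k.1 else v₁ k.1

/-- The region of the same colour on the opposite side of the crossing. -/
def cOpp {V C : Type} (v₁ v₂ : C → V) (k : C × Bool) : V := if k.2 then v₁ k.1 else v₂ k.1

/-- The list of corners leads from the neighbouring region `a` to the neighbouring region `b`: each
corner is entered from the neighbour (of the other colour) at which the previous one was left. -/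
def Path {E C : Type} (e₁ e₂ : C → E) : E → List (C × Bool) → E → Prop
  | a, [], b => a = b
  | a, k :: l, b => cOpp e₁ e₂ k = a ∧ Path e₁ e₂ (cAt e₁ e₂ k) l b

/-- Two regions of the same colour are opposite to each other at some crossing. -/
def Adj {V C : Type} (v₁ v₂ : C → V) (a b : V) : Prop :=
  ∃ k : C × Bool, cAt v₁ v₂ k = a ∧ cOpp v₁ v₂ k = b

/-- A walk of length `n` in the checkerboard graph of one colour. -/
def Walk {V C : Type} (v₁ v₂ : C → V) : ℕ → V → V → Prop
  | 0, a, b => a = b
  | n + 1, a, b => ∃ c, Adj v₁ v₂ a c ∧ Walk v₁ v₂ n c b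

open Classical in
/-- The number of corners in a list at which `v` is the region on the opposite side. -/
noncomputable def facing {V C : Type} (v₁ v₂ : C → V) (l : List (C × Bool)) (v : V) : ℕ :=
  l.countP fun k => decide (cOpp v₁ v₂ k = v)

/-- One colour of a tangle diagram. `p`, `q` are the two regions of this colour at the boundary
circle, `a`, `b` those of the other colour. `star v` is the list of the corners of the region `v` as
they are met along its boundary (clockwise for the white regions, counterclockwise for the black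
ones). -/
structure Side {V E C : Type} (v₁ v₂ : C → V) (e₁ e₂ : C → E) (p q : V) (a b : E)
    (star : V → List (C × Bool)) : Prop where
  ne : p ≠ q
  /-- no nugatory crossings -/
  noLoop : ∀ c, v₁ c ≠ v₂ c
  mem : ∀ v k, k ∈ star v ↔ cAt v₁ v₂ k = v
  nodup : ∀ v, (star v).Nodup
  inner : ∀ v, v ≠ p → v ≠ q → ∃ e, Path e₁ e₂ e (star v) e
  first : Path e₁ e₂ a (star p) b
  second : Path e₁ e₂ b (star q) a
  /-- every region other than `p` is joined to `q` by a path that avoids `p` -/
  toSecond : ∀ v, v ≠ p → ReflTransGen (fun x y => Adj v₁ v₂ x y ∧ y ≠ p) v q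
  /-- every region other than `q` is joined to `p` by a path that avoids `q` -/
  toFirst : ∀ v, v ≠ q → ReflTransGen (fun x y => Adj v₁ v₂ x y ∧ y ≠ q) v p

/-- An alternating tangle diagram. -/
structure Tangle where
  /-- white regions -/
  W : Type
  /-- black regions -/
  B : Type
  /-- crossings -/
  C : Type
  finW : Finite W
  finB : Finite B
  /-- the corners of a crossing are `w₁, b₁, w₂, b₂`, in counterclockwise order -/
  w₁ : C → W
  b₁ : C → B
  w₂ : C → W
  b₂ : C → B
  /-- the regions at the boundary circle, in clockwise order -/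
  west : W
  north : B
  east : W
  south : B
  starW : W → List (C × Bool)
  starB : B → List (C × Bool)
  white : Side w₁ w₂ b₁ b₂ west east north south starW
  black : Side b₁ b₂ w₁ w₂ north south west east starB

/-- The relations `b₂⁻¹ b₁ = w₁⁻¹ w₂` of the crossings. -/
def Tangle.Rep (T : Tangle) {G : Type*} [Group G] (w : T.W → G) (b : T.B → G) : Prop :=
  ∀ c, (b (T.b₂ c))⁻¹ * b (T.b₁ c) = (w (T.w₁ c))⁻¹ * w (T.w₂ c)

/-- telescoping along a path -/
theorem path_prod {H : Type*} [Group H] {E C : Type} {e₁ e₂ : C → E} (F : E → H) :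
    ∀ (l : List (C × Bool)) (a b : E), Path e₁ e₂ a l b →
      (l.map fun k => (F (cOpp e₁ e₂ k))⁻¹ * F (cAt e₁ e₂ k)).prod = (F a)⁻¹ * F b
  | [], a, b, h => by
    have h' : a = b := h
    simp [h']
  | k :: l, a, b, h => by
    obtain ⟨h1, h2⟩ : cOpp e₁ e₂ k = a ∧ Path e₁ e₂ (cAt e₁ e₂ k) l b := h
    rw [List.map_cons, List.prod_cons, path_prod F l _ b h2, h1]
    group

theorem path_append {E C : Type} {e₁ e₂ : C → E} : ∀ (l m : List (C × Bool)) (a b : E),
    Path e₁ e₂ a (l ++ m) b → ∃ c, Path e₁ e₂ a l c ∧ Path e₁ e₂ c m b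
  | [], m, a, b, h => ⟨a, rfl, h⟩
  | k :: l, m, a, b, h => by
    obtain ⟨h1, h2⟩ : cOpp e₁ e₂ k = a ∧ Path e₁ e₂ (cAt e₁ e₂ k) (l ++ m) b := h
    obtain ⟨c, h3, h4⟩ := path_append l m _ b h2
    exact ⟨c, ⟨h1, h3⟩, h4⟩

namespace Side

variable {V E C : Type} {v₁ v₂ : C → V} {e₁ e₂ : C → E} {p q : V} {a b : E}
  {star : V → List (C × Bool)}

theorem symm (S : Side v₁ v₂ e₁ e₂ p q a b star) : Side v₁ v₂ e₁ e₂ q p b a star where
  ne := S.ne.symm
  noLoop := S.noLoop
  mem := S.mem
  nodup := S.nodup
  inner v h1 h2 := S.inner v h2 h1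
  first := S.second
  second := S.first
  toSecond := S.toFirst
  toFirst := S.toSecond

variable (S : Side v₁ v₂ e₁ e₂ p q a b star)

/-- The crossing relations, seen from a colour. -/
def Rel {G : Type*} [Group G] (v₁ v₂ : C → V) (e₁ e₂ : C → E) (f : V → G) (h : E → G) : Prop :=
  ∀ k, (h (cOpp e₁ e₂ k))⁻¹ * h (cAt e₁ e₂ k) = (f (cAt v₁ v₂ k))⁻¹ * f (cOpp v₁ v₂ k)

theorem Rel.map {G G' : Type*} [Group G] [Group G'] {f : V → G} {h : E → G}
    (hr : Rel v₁ v₂ e₁ e₂ f h) (φ : G →* G') : Rel v₁ v₂ e₁ e₂ (fun v => φ (f v))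
      (fun e => φ (h e)) := by
  intro k
  rw [← map_inv, ← map_mul, hr k, map_mul, map_inv]

section point

variable {X : Type*} [LinearOrder X] {f : V → Aut X} {h : E → Aut X}
  (hr : Rel v₁ v₂ e₁ e₂ f h) (x : X)

include S hr

theorem local_max {v : V} (hp : v ≠ p) (hq : v ≠ q)
    (hm : ∀ k ∈ star v, f (cOpp v₁ v₂ k) x ≤ f v x) :
    ∀ k ∈ star v, f (cOpp v₁ v₂ k) x = f v x := by
  obtain ⟨e, he⟩ := S.inner v hp hq
  have h1 := path_prod h _ _ _ he
  rw [inv_mul_cancel] at h1
  have h2 : ∀ k ∈ star v, ((h (cOpp e₁ e₂ k))⁻¹ * h (cAt e₁ e₂ k)) =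
      (f v)⁻¹ * f (cOpp v₁ v₂ k) := by
    intro k hk
    rw [hr k, (S.mem v k).mp hk]
  have h3 := list_eq (x := x) ((star v).map fun k => (h (cOpp e₁ e₂ k))⁻¹ * h (cAt e₁ e₂ k)) ?_ ?_
  · intro k hk
    have h4 := h3 _ (List.mem_map_of_mem hk)
    rw [h2 k hk, inv_mul_eq] at h4
    exact h4
  · intro g hg
    obtain ⟨k, hk, rfl⟩ := List.mem_map.mp hg
    rw [h2 k hk, inv_mul_le]
    exact hm k hk
  · rw [h1, one_apply]

theorem le_second [Finite V] (hpq : f p x ≤ f q x) (v : V) : f v x ≤ f q x := by
  obtain ⟨M, hM⟩ : ∃ M, ∀ n, f n x ≤ f M x := by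
    have : Nonempty V := ⟨p⟩
    exact Finite.exists_max fun n => f n x
  refine (hM v).trans ?_
  by_cases hMp : M = p
  · rw [hMp]; exact hpq
  have : ∀ u, ReflTransGen (fun x y => Adj v₁ v₂ x y ∧ y ≠ p) u q → u ≠ p → f u x = f M x →
      f M x ≤ f q x := by
    intro u hu
    induction hu using ReflTransGen.head_induction_on with
    | refl => intro _ h1; exact h1.ge
    | @head u c huc _ ih =>
      intro hup h1
      by_cases huq : u = q
      · rw [← huq]; exact h1.ge
      obtain ⟨⟨k, hk1, hk2⟩, hc⟩ := huc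
      have h2 := S.local_max hr x hup huq (fun k _ => h1 ▸ hM _) k ((S.mem u k).mpr hk1)
      rw [hk2] at h2
      exact ih hc (h2.trans h1)
  exact this M (S.toSecond M hMp) hMp rfl

theorem lt_second [Finite V] (hpq : f p x < f q x) {v : V} (hv : v ≠ q) : f v x < f q x := by
  have hM := S.le_second hr x hpq.le
  refine lt_of_le_of_ne (hM v) fun hcon => ?_
  have : ∀ u, ReflTransGen (fun x y => Adj v₁ v₂ x y ∧ y ≠ q) u p → u ≠ q → f u x = f q x →
      False := by
    intro u hu
    induction hu using ReflTransGen.head_induction_on with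
    | refl => intro _ h1; exact hpq.ne h1
    | @head u c huc _ ih =>
      intro huq h1
      by_cases hup : u = p
      · rw [hup] at h1; exact hpq.ne h1
      obtain ⟨⟨k, hk1, hk2⟩, hc⟩ := huc
      have h2 := S.local_max hr x hup huq (fun k _ => h1 ▸ hM _) k ((S.mem u k).mpr hk1)
      rw [hk2] at h2
      exact ih hc (h2.trans h1)
  exact this v (S.toFirst v hv) hv hcon

theorem first_le [Finite V] (hpq : f p x ≤ f q x) (v : V) : f p x ≤ f v x :=
  S.symm.le_second (X := Xᵒᵈ) (hr.map dual) (OrderDual.toDual x) hpq v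

theorem first_lt [Finite V] (hpq : f p x < f q x) {v : V} (hv : v ≠ p) : f p x < f v x :=
  S.symm.lt_second (X := Xᵒᵈ) (hr.map dual) (OrderDual.toDual x) hpq hv

theorem current_aux [Finite V] (hpq : f q x ≤ f p x) : h b x ≤ h a x := by
  rw [← inv_mul_le, ← path_prod h _ _ _ S.first]
  refine list_le _ fun g hg => ?_
  obtain ⟨k, hk, rfl⟩ := List.mem_map.mp hg
  rw [hr k, (S.mem p k).mp hk, inv_mul_le]
  exact S.symm.le_second hr x hpq _

theorem current [Finite V] (hpq : f p x ≤ f q x) : h a x ≤ h b x :=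
  S.symm.current_aux hr x hpq

theorem eq_of_eq [Finite V] (hpq : f p x = f q x) : (∀ v, f v x = f p x) ∧ h b x = h a x := by
  refine ⟨fun v => le_antisymm ?_ (S.first_le hr x hpq.le v), le_antisymm ?_ ?_⟩
  · rw [hpq]; exact S.le_second hr x hpq.le v
  · exact S.current_aux hr x hpq.ge
  · exact S.current hr x hpq.le

end point

end Side

namespace Tangle

variable (T : Tangle)

theorem Rep.white {T : Tangle} {G : Type*} [Group G] {w : T.W → G} {b : T.B → G}
    (h : T.Rep w b) : Side.Rel T.w₁ T.w₂ T.b₁ T.b₂ w b := by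
  rintro ⟨c, s⟩
  cases s
  · exact h c
  · have h1 := congrArg (fun z => z⁻¹) (h c)
    simp only [mul_inv_rev, inv_inv] at h1
    exact h1

theorem Rep.black {T : Tangle} {G : Type*} [Group G] {w : T.W → G} {b : T.B → G}
    (h : T.Rep w b) : Side.Rel T.b₁ T.b₂ T.w₁ T.w₂ b w := by
  rintro ⟨c, s⟩
  cases s
  · have h1 := congrArg (fun z => z⁻¹) (h c)
    simp only [mul_inv_rev, inv_inv] at h1
    exact h1.symm
  · exact (h c).symm

theorem Rep.map {T : Tangle} {G G' : Type*} [Group G] [Group G'] {w : T.W → G} {b : T.B → G}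
    (h : T.Rep w b) (φ : G →* G') : T.Rep (fun v => φ (w v)) (fun v => φ (b v)) := by
  intro c
  rw [← map_inv, ← map_mul, h c, map_mul, map_inv]

variable {T}

/-- Where `west` and `east` agree, all regions of a colour agree. -/
theorem fix {X : Type*} [LinearOrder X] {w : T.W → Aut X} {b : T.B → Aut X} (h : T.Rep w b) {x : X}
    (hx : w T.west x = w T.east x) : (∀ v, w v x = w T.west x) ∧ ∀ v, b v x = b T.north x := by
  have := T.finW
  have := T.finB
  obtain ⟨h1, h2⟩ := T.white.eq_of_eq h.white x hx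
  exact ⟨h1, (T.black.eq_of_eq h.black x h2.symm).1⟩

end Tangle

end Pool.Agent.Y479.LS
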