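import Pool.Agent.Y479.LS.Chain

set_option autoImplicit false

/-!
# Unions of two alternating tangles of opposite sign

`T` and `T'` are alternating tangle diagrams; the diagram of `T` is closed with the mirror image of
`T'`, region by region.
-/

namespace Pool.Agent.Y479.LS.Union

open Pool.Agent.Y479.LS

/-- Generators: the regions of `T` and of `T'`. -/
abbrev Gen (T T' : Tangle) : Type := (T.W ⊕ T.B) ⊕ (T'.W ⊕ T'.B)

section gens
variable (T T' : Tangle)

/-- the generator of a white region of `T` -/
def w (v : T.W) : FreeGroup (Gen T T') := FreeGroup.of (Sum.inl (Sum.inl v))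
/-- the generator of a black region of `T` -/
def b (v : T.B) : FreeGroup (Gen T T') := FreeGroup.of (Sum.inl (Sum.inr v))
/-- the generator of a white region of `T'` -/
def w' (v : T'.W) : FreeGroup (Gen T T') := FreeGroup.of (Sum.inr (Sum.inl v))
/-- the generator of a black region of `T'` -/
def b' (v : T'.B) : FreeGroup (Gen T T') := FreeGroup.of (Sum.inr (Sum.inr v))

/-- Crossing relators, gluing relators, and base regions. -/
def relators : Set (FreeGroup (Gen T T')) :=
  {r | (∃ c, r = (b T T' (T.b₂ c))⁻¹ * b T T' (T.b₁ c) *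
      ((w T T' (T.w₁ c))⁻¹ * w T T' (T.w₂ c))⁻¹) ∨
    (∃ c, r = (b' T T' (T'.b₂ c))⁻¹ * b' T T' (T'.b₁ c) *
      ((w' T T' (T'.w₁ c))⁻¹ * w' T T' (T'.w₂ c))⁻¹) ∨
    r = w T T' T.west * (w' T T' T'.west)⁻¹ ∨ r = w T T' T.east * (w' T T' T'.east)⁻¹ ∨
    r = b T T' T.north * (b' T T' T'.north)⁻¹ ∨ r = b T T' T.south * (b' T T' T'.south)⁻¹ ∨
    r = w T T' T.west ∨ r = b T T' T.north}

/-- The fundamental group of the double branched cover of the union of `T` and the mirror image of
`T'`. -/
abbrev Grp : Type := PresentedGroup (relators T T')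

end gens

section rels

variable {T T' : Tangle}

theorem mk_eq_one {r : FreeGroup (Gen T T')} (h : r ∈ relators T T') :
    (PresentedGroup.mk (relators T T') r : Grp T T') = 1 := PresentedGroup.one_of_mem h

/-- the images of the generators -/
def W (v : T.W) : Grp T T' := PresentedGroup.mk _ (w T T' v)
def B (v : T.B) : Grp T T' := PresentedGroup.mk _ (b T T' v)
def W' (v : T'.W) : Grp T T' := PresentedGroup.mk _ (w' T T' v)
def B' (v : T'.B) : Grp T T' := PresentedGroup.mk _ (b' T T' v)

theorem rep : T.Rep (W (T' := T')) B := by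
  intro c
  have := mk_eq_one (T := T) (T' := T') (Or.inl ⟨c, rfl⟩)
  rw [map_mul, map_inv, mul_inv_eq_one] at this
  simp only [map_mul, map_inv] at this
  exact this

theorem rep' : T'.Rep (W' (T := T)) B' := by
  intro c
  have := mk_eq_one (T := T) (T' := T') (Or.inr (Or.inl ⟨c, rfl⟩))
  rw [map_mul, map_inv, mul_inv_eq_one] at this
  simp only [map_mul, map_inv] at this
  exact this

theorem west_eq : W (T' := T') T.west = W' T'.west := by
  have := mk_eq_one (T := T) (T' := T') (Or.inr (Or.inr (Or.inl rfl)))
  rwa [map_mul, map_inv, mul_inv_eq_one] at this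

theorem east_eq : W (T' := T') T.east = W' T'.east := by
  have := mk_eq_one (T := T) (T' := T') (Or.inr (Or.inr (Or.inr (Or.inl rfl))))
  rwa [map_mul, map_inv, mul_inv_eq_one] at this

theorem north_eq : B (T' := T') T.north = B' T'.north := by
  have := mk_eq_one (T := T) (T' := T') (Or.inr (Or.inr (Or.inr (Or.inr (Or.inl rfl)))))
  rwa [map_mul, map_inv, mul_inv_eq_one] at this

theorem south_eq : B (T' := T') T.south = B' T'.south := by
  have := mk_eq_one (T := T) (T' := T')
    (Or.inr (Or.inr (Or.inr (Or.inr (Or.inr (Or.inl rfl))))))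
  rwa [map_mul, map_inv, mul_inv_eq_one] at this

theorem west_one : W (T' := T') T.west = 1 :=
  mk_eq_one (T := T) (T' := T') (Or.inr (Or.inr (Or.inr (Or.inr (Or.inr (Or.inr (Or.inl rfl)))))))

theorem north_one : B (T' := T') T.north = 1 :=
  mk_eq_one (T := T) (T' := T') (Or.inr (Or.inr (Or.inr (Or.inr (Or.inr (Or.inr (Or.inr rfl)))))))

theorem fix_all {X : Type*} [LinearOrder X] (φ : Grp T T' →* Aut X) (x : X)
    (hx : φ (W T.east) x = x) (γ : Grp T T') : φ γ x = x := by
  have e1 : φ (W T.west) x = x := by rw [west_one, map_one, Aut.one_apply]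
  have e2 : φ (B T.north) x = x := by rw [north_one, map_one, Aut.one_apply]
  obtain ⟨h1, h2⟩ := Tangle.fix (rep.map φ) (x := x) (e1.trans hx.symm)
  have e3 : φ (W' T'.west) x = x := by rw [← west_eq]; exact e1
  have e4 : φ (W' T'.east) x = x := by rw [← east_eq]; exact hx
  have e5 : φ (B' T'.north) x = x := by rw [← north_eq]; exact e2
  obtain ⟨h3, h4⟩ := Tangle.fix (rep'.map φ) (x := x) (e3.trans e4.symm)
  have hmem : γ ∈ Subgroup.closure (Set.range (PresentedGroup.of (rels := relators T T'))) := by
    rw [PresentedGroup.closure_range_of]; trivial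
  induction hmem using Subgroup.closure_induction with
  | mem y hy =>
    obtain ⟨(v | v) | (v | v), rfl⟩ := hy
    · exact (h1 v).trans e1
    · exact (h2 v).trans e2
    · exact (h3 v).trans e3
    · exact (h4 v).trans e5
  | one => rw [map_one, Aut.one_apply]
  | mul y z _ _ h5 h6 => rw [map_mul, Aut.mul_apply, h6, h5]
  | inv y _ h5 => rw [map_inv, ← Aut.inj (φ y), Aut.self_inv, h5]

end rels


section reduction

variable {T T' : Tangle}

/-- A solution of the inequalities: values of the regions in a partially ordered group. -/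
structure Data (T T' : Tangle) {P : Type*} [Group P] [PartialOrder P] (w : T.W → P) (b : T.B → P)
    (w' : T'.W → P) (b' : T'.B → P) : Prop where
  rep : T.Rep w b
  rep' : T'.Rep w' b'
  white : Bounds w T.west T.east
  black : Bounds b T.north T.south
  white' : Bounds w' T'.west T'.east
  black' : Bounds b' T'.north T'.south
  east : w T.east = w' T'.east
  south : b T.south = b' T'.south

/-- If the inequalities have no solution then the group is not left-orderable, and has no nontrivial
homomorphism to a left-orderable group. -/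
theorem not_leftOrderable (hno : ∀ (X : Type) [LinearOrder X] [Nonempty X] (w : T.W → Aut X)
    (b : T.B → Aut X) (w' : T'.W → Aut X) (b' : T'.B → Aut X), ¬ Data T T' w b w' b') :
    (∀ (H : Type) [Group H], LeftOrderable H → ∀ (f : Grp T T' →* H) (γ : Grp T T'), f γ = 1) ∧
      ¬ LeftOrderable (Grp T T') := by
  have key : ∀ (H : Type) [Group H], LeftOrderable H → ∀ (f : Grp T T' →* H) (γ : Grp T T'),
      f γ = 1 := by
    intro H _ hH f γ
    refine hom_trivial (W T.east) (fun X _ φ x hx γ => fix_all φ x hx γ)
      (fun X _ _ φ hpos => ?_) H hH f γ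
    have r1 := (rep (T := T) (T' := T')).map φ
    have r2 := (rep' (T := T) (T' := T')).map φ
    have q1 : φ (W T.west) = 1 := by rw [west_one, map_one]
    have q2 : φ (B T.north) = 1 := by rw [north_one, map_one]
    have q3 : φ (W' T'.west) = 1 := by rw [← west_eq]; exact q1
    have q4 : φ (B' T'.north) = 1 := by rw [← north_eq]; exact q2
    have q5 : φ (W T.east) = φ (W' T'.east) := by rw [east_eq]
    have q6 : φ (B T.south) = φ (B' T'.south) := by rw [south_eq]
    obtain ⟨B1, B2, -⟩ := Tangle.bounds r1 q1 q2 hpos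
    obtain ⟨B3, B4, -⟩ := Tangle.bounds r2 q3 q4 (by rw [← q5]; exact hpos)
    exact hno X _ _ _ _ ⟨r1, r2, B1, B2, B3, B4, q5, q6⟩
  refine ⟨key, fun hG => ?_⟩
  obtain ⟨x, y, hxy⟩ := hG.1
  have h1 := key _ hG (MonoidHom.id _) x
  have h2 := key _ hG (MonoidHom.id _) y
  simp only [MonoidHom.id_apply] at h1 h2
  exact hxy (by rw [h1, h2])

end reduction

end Pool.Agent.Y479.LS.Union
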